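import Mathlib

set_option linter.all false

open MeasureTheory Set

namespace Pool.Agent.Helper839.PS

theorem ps_hdist (x y : EuclideanSpace ℝ (Fin 2)) :
    dist x y ^ 2 = (x 0 - y 0) ^ 2 + (x 1 - y 1) ^ 2 := by
  rw [EuclideanSpace.dist_eq, Real.sq_sqrt (by positivity), Fin.sum_univ_two]
  simp only [Real.dist_eq, sq_abs]

/-- normal position of a planar compact set with nonempty interior -/
theorem ps_normal (K : Set (EuclideanSpace ℝ (Fin 2))) (hc : IsCompact K)
    (hint : (interior K).Nonempty) :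
    ∃ (g : EuclideanSpace ℝ (Fin 2) → EuclideanSpace ℝ (Fin 2)) (d w h : ℝ)
      (p q t b : EuclideanSpace ℝ (Fin 2)),
      Isometry g ∧ 0 < w ∧ w ≤ d ∧ d = Metric.diam K ∧
      (∀ x ∈ K, 0 ≤ g x 0 ∧ g x 0 ≤ d ∧ 0 ≤ g x 1 ∧ g x 1 ≤ w) ∧
      p ∈ K ∧ q ∈ K ∧ t ∈ K ∧ b ∈ K ∧
      g p 0 = 0 ∧ g p 1 = h ∧ g q 0 = d ∧ g q 1 = h ∧ g t 1 = w ∧ g b 1 = 0 := by
  have hne : K.Nonempty := hint.mono interior_subset
  obtain ⟨⟨p, q⟩, hpq, hmax0⟩ := (hc.prod hc).exists_isMaxOn (hne.prod hne)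
    (f := fun z : EuclideanSpace ℝ (Fin 2) × EuclideanSpace ℝ (Fin 2) => dist z.1 z.2)
    (by fun_prop)
  have hp : p ∈ K := hpq.1
  have hq : q ∈ K := hpq.2
  have hmax : ∀ x ∈ K, ∀ y ∈ K, dist x y ≤ dist p q := by
    intro x hx y hy
    have h1 := isMaxOn_iff.1 hmax0 (x, y) (Set.mk_mem_prod hx hy)
    exact h1
  obtain ⟨c0, hcI⟩ := hint
  obtain ⟨r, hr, hball⟩ := Metric.isOpen_iff.1 isOpen_interior c0 hcI
  have hballK : Metric.ball c0 r ⊆ K := hball.trans interior_subset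
  -- a point at distance r/2
  have hnear : ∀ v0 v1 : ℝ, v0 ^ 2 + v1 ^ 2 = 1 → ∀ s : ℝ, |s| < r →
      (!₂[c0 0 + s * v0, c0 1 + s * v1] : EuclideanSpace ℝ (Fin 2)) ∈ K := by
    intro v0 v1 hv s hs
    apply hballK
    rw [Metric.mem_ball]
    have h1 := ps_hdist (!₂[c0 0 + s * v0, c0 1 + s * v1] : EuclideanSpace ℝ (Fin 2)) c0
    have h2 : dist (!₂[c0 0 + s * v0, c0 1 + s * v1] : EuclideanSpace ℝ (Fin 2)) c0 ^ 2 = s ^ 2 := by
      rw [h1]
      simp
      linear_combination (s ^ 2) * hv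
    have h3 : dist (!₂[c0 0 + s * v0, c0 1 + s * v1] : EuclideanSpace ℝ (Fin 2)) c0 = |s| := by
      rw [← abs_of_nonneg (dist_nonneg (x := (!₂[c0 0 + s * v0, c0 1 + s * v1] :
        EuclideanSpace ℝ (Fin 2))) (y := c0))]
      exact (sq_eq_sq_iff_abs_eq_abs _ _).1 h2
    rw [h3]
    exact hs
  have hr2 : |r / 2| < r := by
    rw [abs_of_pos (by positivity)]
    linarith
  have hdpos : 0 < dist p q := by
    have h1 : c0 ∈ K := interior_subset hcI
    have h2 := hnear 1 0 (by norm_num) (r / 2) hr2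
    have h3 := hmax _ h2 _ h1
    have h4 := ps_hdist (!₂[c0 0 + r / 2 * 1, c0 1 + r / 2 * 0] : EuclideanSpace ℝ (Fin 2)) c0
    simp at h4
    have h5 : 0 < dist (!₂[c0 0 + r / 2 * 1, c0 1 + r / 2 * 0] : EuclideanSpace ℝ (Fin 2)) c0 := by
      refine dist_pos.2 ?_
      intro he
      have := congrArg (fun z : EuclideanSpace ℝ (Fin 2) => z 0) he
      simp at this
      linarith
    linarith
  set d := dist p q with hd
  have hdiam : d = Metric.diam K := le_antisymm (Metric.dist_le_diam_of_mem hc.isBounded hp hq)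
    (Metric.diam_le_of_forall_dist_le dist_nonneg hmax)
  have hd2 : d ^ 2 = (q 0 - p 0) ^ 2 + (q 1 - p 1) ^ 2 := by
    rw [hd, dist_comm, ps_hdist]
  obtain ⟨u0, hu0⟩ : ∃ u0 : ℝ, u0 * d = q 0 - p 0 := ⟨(q 0 - p 0) / d, by field_simp⟩
  obtain ⟨u1, hu1⟩ : ∃ u1 : ℝ, u1 * d = q 1 - p 1 := ⟨(q 1 - p 1) / d, by field_simp⟩
  have hu : u0 ^ 2 + u1 ^ 2 = 1 := by
    have h1 : d ^ 2 * (u0 ^ 2 + u1 ^ 2 - 1) = 0 := by
      rw [← hu0, ← hu1] at hd2
      linear_combination -hd2
    have h2 : d ^ 2 ≠ 0 := by positivity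
    have h3 := (mul_eq_zero.1 h1).resolve_left h2
    linarith
  set a : EuclideanSpace ℝ (Fin 2) → ℝ := fun x => u0 * (x 0 - p 0) + u1 * (x 1 - p 1) with ha
  set c : EuclideanSpace ℝ (Fin 2) → ℝ := fun x => -u1 * (x 0 - p 0) + u0 * (x 1 - p 1) with hcdef
  have hac : ∀ x y, (a x - a y) ^ 2 + (c x - c y) ^ 2 = dist x y ^ 2 := by
    intro x y
    rw [ps_hdist, ha, hcdef]
    simp only []
    linear_combination ((x 0 - y 0) ^ 2 + (x 1 - y 1) ^ 2) * hu
  have hcc : Continuous c := by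
    rw [hcdef]
    fun_prop
  obtain ⟨b, hbK, hbmin⟩ := hc.exists_isMinOn hne hcc.continuousOn
  obtain ⟨t, htK, htmax⟩ := hc.exists_isMaxOn hne hcc.continuousOn
  have hb' : ∀ x ∈ K, c b ≤ c x := fun x hx => hbmin hx
  have ht' : ∀ x ∈ K, c x ≤ c t := fun x hx => htmax hx
  have hap : a p = 0 := by rw [ha]; simp
  have hcp : c p = 0 := by rw [hcdef]; simp
  have haq : a q = d := by
    rw [ha]
    simp only []
    rw [← hu0, ← hu1]
    linear_combination d * hu
  have hcq : c q = 0 := by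
    rw [hcdef]
    simp only []
    rw [← hu0, ← hu1]
    ring
  have hax : ∀ x ∈ K, 0 ≤ a x ∧ a x ≤ d := by
    intro x hx
    have h1 := hac x p
    have h2 := hac x q
    rw [hap, hcp] at h1
    rw [haq, hcq] at h2
    have h3 : dist x p ^ 2 ≤ d ^ 2 := pow_le_pow_left₀ dist_nonneg (hmax x hx p hp) 2
    have h4 : dist x q ^ 2 ≤ d ^ 2 := pow_le_pow_left₀ dist_nonneg (hmax x hx q hq) 2
    constructor
    · by_contra hcon
      push Not at hcon
      nlinarith [sq_nonneg (c x - 0), sq_nonneg (a x)]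
    · by_contra hcon
      push Not at hcon
      nlinarith [sq_nonneg (c x - 0)]
  refine ⟨fun x => !₂[a x, c x - c b], d, c t - c b, - c b, p, q, t, b, ?_, ?_, ?_, hdiam, ?_,
    hp, hq, htK, hbK, ?_, ?_, ?_, ?_, ?_, ?_⟩
  · refine Isometry.of_dist_eq ?_
    intro x y
    have h1 : dist (!₂[a x, c x - c b] : EuclideanSpace ℝ (Fin 2)) !₂[a y, c y - c b] ^ 2 =
        dist x y ^ 2 := by
      rw [ps_hdist, ← hac x y]
      simp
    have h2 := (sq_eq_sq_iff_abs_eq_abs _ _).1 h1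
    rwa [abs_of_nonneg dist_nonneg, abs_of_nonneg dist_nonneg] at h2
  · have h1 := hnear (-u1) u0 (by linarith) (r / 2) hr2
    have h2 := hnear (-u1) u0 (by linarith) (-(r / 2)) (by rw [abs_neg]; exact hr2)
    have h3 := ht' _ h1
    have h4 := hb' _ h2
    have h5 : c (!₂[c0 0 + r / 2 * -u1, c0 1 + r / 2 * u0] : EuclideanSpace ℝ (Fin 2)) =
        c c0 + r / 2 := by
      rw [hcdef]
      simp
      linear_combination (r / 2) * hu
    have h6 : c (!₂[c0 0 + -(r / 2) * -u1, c0 1 + -(r / 2) * u0] : EuclideanSpace ℝ (Fin 2)) =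
        c c0 - r / 2 := by
      rw [hcdef]
      simp
      linear_combination (-(r / 2)) * hu
    linarith
  · have h1 := hac t b
    have h3 : dist t b ^ 2 ≤ d ^ 2 := pow_le_pow_left₀ dist_nonneg (hmax t htK b hbK) 2
    have h4 : (c t - c b) ^ 2 ≤ d ^ 2 := by nlinarith [sq_nonneg (a t - a b)]
    exact le_of_sq_le_sq h4 hdpos.le
  · intro x hx
    obtain ⟨h1, h2⟩ := hax x hx
    have h3 := hb' x hx
    have h4 := ht' x hx
    refine ⟨by simpa using h1, by simpa using h2, ?_, ?_⟩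
    · simp
      exact h3
    · simp
      exact h4
  · simp [hap]
  · simp [hcp]
  · simp [haq]
  · simp [hcq]
  · simp
  · simp

theorem pa_tri (C : Set (EuclideanSpace ℝ (Fin 2))) (hconv : Convex ℝ C)
    (d h lam : ℝ) (hd : 0 < d) (p q r x : EuclideanSpace ℝ (Fin 2))
    (hp : p ∈ C) (hq : q ∈ C) (hr : r ∈ C)
    (hp0 : p 0 = 0) (hp1 : p 1 = h) (hq0 : q 0 = d) (hq1 : q 1 = h) (hl0 : 0 ≤ lam)
    (hx1 : x 1 = h + lam * (r 1 - h)) (hx0 : lam * r 0 ≤ x 0)
    (hx0' : x 0 ≤ (1 - lam) * d + lam * r 0) :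
    x ∈ C := by
  obtain ⟨al, hal⟩ : ∃ al : ℝ, al = (x 0 - lam * r 0) / d := ⟨_, rfl⟩
  have hald : al * d = x 0 - lam * r 0 := by rw [hal, div_mul_cancel₀ _ hd.ne']
  have hal0 : 0 ≤ al := by
    rw [hal]
    apply div_nonneg _ hd.le
    linarith
  have hbe0 : 0 ≤ 1 - lam - al := by
    have h1 : 0 ≤ (1 - lam - al) * d := by
      have e : (1 - lam - al) * d = (1 - lam) * d - (x 0 - lam * r 0) := by rw [← hald]; ring
      rw [e]
      linarith
    exact nonneg_of_mul_nonneg_left h1 hd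
  have hx : x = ∑ i : Fin 3, (![lam, al, 1 - lam - al] : Fin 3 → ℝ) i •
      (![r, q, p] : Fin 3 → EuclideanSpace ℝ (Fin 2)) i := by
    rw [Fin.sum_univ_three]
    ext j
    fin_cases j
    · simp only [Matrix.cons_val_zero, Matrix.cons_val_one, Matrix.cons_val_two,
        PiLp.add_apply, PiLp.smul_apply, smul_eq_mul, Matrix.head_cons, Matrix.tail_cons]
      change x 0 = lam * r 0 + al * q 0 + (1 - lam - al) * p 0
      rw [hq0, hp0, hald]; ring
    · simp only [Matrix.cons_val_zero, Matrix.cons_val_one, Matrix.cons_val_two,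
        PiLp.add_apply, PiLp.smul_apply, smul_eq_mul, Matrix.head_cons, Matrix.tail_cons]
      change x 1 = lam * r 1 + al * q 1 + (1 - lam - al) * p 1
      rw [hq1, hp1, hx1]; ring
  rw [hx]
  apply hconv.sum_mem
  · intro i _
    fin_cases i
    · exact hl0
    · exact hal0
    · exact hbe0
  · rw [Fin.sum_univ_three]
    change lam + al + (1 - lam - al) = 1
    ring
  · intro i _
    fin_cases i
    · exact hr
    · exact hq
    · exact hp

/-- the coordinates, second coordinate first -/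
noncomputable def pa_Phi (x : EuclideanSpace ℝ (Fin 2)) : ℝ × ℝ := (x 1, x 0)

theorem pa_mp : MeasurePreserving pa_Phi volume volume := by
  have h1 := EuclideanSpace.volume_preserving_symm_measurableEquiv_toLp (Fin 2)
  have h2 := volume_preserving_finTwoArrow ℝ
  have h3 : MeasurePreserving (Prod.swap : ℝ × ℝ → ℝ × ℝ) volume volume :=
    Measure.measurePreserving_swap
  exact h3.comp (h2.comp h1)

theorem pa_vol (u v al be r0 d : ℝ) (huv : u < v) (h1 : 2 * al + be * (u + v) = 1)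
    (hle : ∀ y ∈ Ioo u v, al + be * y ≤ 1) (hd : 0 < d) :
    volume (regionBetween (fun y => (al + be * y) * r0)
      (fun y => (1 - (al + be * y)) * d + (al + be * y) * r0) (Ioo u v)) =
      ENNReal.ofReal (d * (v - u) / 2) := by
  have c1 : Continuous fun y : ℝ => (al + be * y) * r0 := by fun_prop
  have c2 : Continuous fun y : ℝ => (1 - (al + be * y)) * d + (al + be * y) * r0 := by fun_prop
  rw [Measure.volume_eq_prod, volume_regionBetween_eq_integral
    (c1.integrableOn_Icc.mono_set Ioo_subset_Icc_self)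
    (c2.integrableOn_Icc.mono_set Ioo_subset_Icc_self) measurableSet_Ioo (by
      intro y hy
      have := hle y hy
      nlinarith)]
  congr 1
  rw [← integral_Ioc_eq_integral_Ioo, ← intervalIntegral.integral_of_le huv.le]
  have hF : ∀ y ∈ uIcc u v, HasDerivAt (fun y => d * ((1 - al) * y - be * y ^ 2 / 2))
      (((fun y => (1 - (al + be * y)) * d + (al + be * y) * r0) - fun y => (al + be * y) * r0) y)
      y := by
    intro y _
    have h2 : HasDerivAt (fun y : ℝ => (1 - al) * y) ((1 - al) * 1) y :=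
      (hasDerivAt_id y).const_mul (1 - al)
    have h3 : HasDerivAt (fun y : ℝ => be * y ^ 2 / 2) (be * (2 * y) / 2) y := by
      have := ((hasDerivAt_pow 2 y).const_mul be).div_const 2
      simpa using this
    have h4 := (h2.sub h3).const_mul d
    refine h4.congr_deriv ?_
    simp only [Pi.sub_apply]
    ring
  rw [intervalIntegral.integral_eq_sub_of_hasDerivAt hF ((c2.sub c1).intervalIntegrable _ _)]
  have e : d * ((1 - al) * v - be * v ^ 2 / 2) - d * ((1 - al) * u - be * u ^ 2 / 2) =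
      d * (v - u) - d * (v - u) * (2 * al + be * (u + v)) / 2 := by ring
  rw [e, h1]
  ring

theorem pa_half (C : Set (EuclideanSpace ℝ (Fin 2))) (hconv : Convex ℝ C)
    (d h u v : ℝ) (hd : 0 < d) (p q r : EuclideanSpace ℝ (Fin 2))
    (hp : p ∈ C) (hq : q ∈ C) (hr : r ∈ C)
    (hp0 : p 0 = 0) (hp1 : p 1 = h) (hq0 : q 0 = d) (hq1 : q 1 = h) (huv : u ≤ v)
    (hcase : (u = h ∧ v = r 1) ∨ (u = r 1 ∧ v = h)) :
    ∃ S ⊆ C, MeasurableSet S ∧ (∀ x ∈ S, u < x 1 ∧ x 1 < v) ∧
      ENNReal.ofReal (d * (v - u) / 2) ≤ volume S := by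
  rcases eq_or_lt_of_le huv with h0 | huv'
  · refine ⟨∅, Set.empty_subset _, MeasurableSet.empty, by simp, ?_⟩
    rw [h0]
    simp
  · have hrh : r 1 - h ≠ 0 := by
      rcases hcase with ⟨h1, h2⟩ | ⟨h1, h2⟩
      · rw [← h1, ← h2]; linarith
      · rw [← h1, ← h2]; intro h3; linarith
    have hlam : ∀ y, -h / (r 1 - h) + 1 / (r 1 - h) * y = (y - h) / (r 1 - h) := by
      intro y; field_simp; ring
    have hb : ∀ y ∈ Ioo u v, 0 ≤ (y - h) / (r 1 - h) ∧ (y - h) / (r 1 - h) ≤ 1 := by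
      intro y hy
      rcases hcase with ⟨h1, h2⟩ | ⟨h1, h2⟩
      · have hpos : 0 < r 1 - h := by rw [← h1, ← h2]; linarith
        constructor
        · apply div_nonneg _ hpos.le
          linarith [hy.1]
        · rw [div_le_one hpos]
          linarith [hy.2]
      · have hneg : r 1 - h < 0 := by rw [← h1, ← h2]; linarith
        constructor
        · apply div_nonneg_of_nonpos _ hneg.le
          linarith [hy.2]
        · rw [div_le_one_of_neg hneg]
          linarith [hy.1]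
    have hvol := pa_vol u v (-h / (r 1 - h)) (1 / (r 1 - h)) (r 0) d huv' (by
      rcases hcase with ⟨h1, h2⟩ | ⟨h1, h2⟩
      · rw [h1, h2]; field_simp; ring
      · rw [h1, h2]; field_simp; ring) (fun y hy => by rw [hlam]; exact (hb y hy).2) hd
    set R := regionBetween (fun y => (-h / (r 1 - h) + 1 / (r 1 - h) * y) * r 0)
      (fun y => (1 - (-h / (r 1 - h) + 1 / (r 1 - h) * y)) * d +
        (-h / (r 1 - h) + 1 / (r 1 - h) * y) * r 0) (Ioo u v) with hR
    have hRm : MeasurableSet R :=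
      measurableSet_regionBetween (by fun_prop) (by fun_prop) measurableSet_Ioo
    refine ⟨pa_Phi ⁻¹' R, ?_, pa_mp.measurable hRm, ?_, ?_⟩
    · rintro x ⟨hx1, hx2⟩
      have hx1' : x 1 ∈ Ioo u v := hx1
      have hx2' : x 0 ∈ Ioo ((-h / (r 1 - h) + 1 / (r 1 - h) * x 1) * r 0)
        ((1 - (-h / (r 1 - h) + 1 / (r 1 - h) * x 1)) * d +
          (-h / (r 1 - h) + 1 / (r 1 - h) * x 1) * r 0) := hx2
      rw [hlam] at hx2'
      refine pa_tri C hconv d h ((x 1 - h) / (r 1 - h)) hd p q r x hp hq hr hp0 hp1 hq0 hq1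
        (hb _ hx1').1 ?_ hx2'.1.le hx2'.2.le
      rw [div_mul_cancel₀ _ hrh]; ring
    · intro x hx
      exact hx.1
    · rw [pa_mp.measure_preimage hRm.nullMeasurableSet, hvol]

/-- area of a convex set containing four boundary points of its bounding box, sharp constant -/
theorem ps_area2 (C : Set (EuclideanSpace ℝ (Fin 2))) (hconv : Convex ℝ C) (hfin : volume C ≠ ⊤)
    (d w h : ℝ) (hd : 0 < d) (hw : 0 < w) (p q t b : EuclideanSpace ℝ (Fin 2))
    (hp : p ∈ C) (hq : q ∈ C) (ht : t ∈ C) (hb : b ∈ C)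
    (hp0 : p 0 = 0) (hp1 : p 1 = h) (hq0 : q 0 = d) (hq1 : q 1 = h) (ht1 : t 1 = w) (hb1 : b 1 = 0)
    (h0 : 0 ≤ h) (hhw : h ≤ w) (ht0 : 0 ≤ t 0 ∧ t 0 ≤ d) (hb0 : 0 ≤ b 0 ∧ b 0 ≤ d) :
    d * w ≤ 2 * (volume C).toReal := by
  obtain ⟨S1, hS1, hm1, hy1, hv1⟩ := pa_half C hconv d h h w hd p q t hp hq ht hp0 hp1 hq0 hq1 hhw
    (Or.inl ⟨rfl, ht1.symm⟩)
  obtain ⟨S2, hS2, hm2, hy2, hv2⟩ := pa_half C hconv d h 0 h hd p q b hp hq hb hp0 hp1 hq0 hq1 h0
    (Or.inr ⟨hb1.symm, rfl⟩)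
  have hdisj : Disjoint S1 S2 := by
    rw [Set.disjoint_left]
    intro x hx1 hx2
    linarith [(hy1 x hx1).1, (hy2 x hx2).2]
  have hle : volume (S1 ∪ S2) ≤ volume C := measure_mono (Set.union_subset hS1 hS2)
  rw [measure_union hdisj hm2] at hle
  have h3 : ENNReal.ofReal (d * (w - h) / 2) + ENNReal.ofReal (d * (h - 0) / 2) ≤ volume C :=
    (add_le_add hv1 hv2).trans hle
  have hwh : 0 ≤ w - h := by linarith
  rw [← ENNReal.ofReal_add (by positivity) (by rw [sub_zero]; positivity)] at h3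
  have h5 := (ENNReal.ofReal_le_iff_le_toReal hfin).1 h3
  linarith

/-- isometries of Euclidean space preserve volume -/
theorem ps_vol (k : ℕ) (g : EuclideanSpace ℝ (Fin k) → EuclideanSpace ℝ (Fin k))
    (hg : Isometry g) (K : Set (EuclideanSpace ℝ (Fin k))) : volume (g '' K) = volume K := by
  let A := hg.affineIsometryOfStrictConvexSpace
  let L : EuclideanSpace ℝ (Fin k) ≃ₗᵢ[ℝ] EuclideanSpace ℝ (Fin k) :=
    A.linearIsometry.toLinearIsometryEquiv rfl
  have hA : ∀ x, A x = g x := fun x => rfl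
  have h1 : ∀ x, g x = g 0 + L x := by
    intro x
    have h2 := A.map_vadd 0 x
    simp only [vadd_eq_add, add_zero] at h2
    rw [hA, hA] at h2
    rw [h2, add_comm]
    rfl
  have h3 : g '' K = (fun y => g 0 + y) '' (L '' K) := by
    rw [Set.image_image]
    exact Set.image_congr fun x _ => h1 x
  rw [h3, Set.image_add_left, measure_preimage_add, LinearIsometryEquiv.image_eq_preimage_symm]
  have h4 := (L.symm.measurePreserving)
  exact h4.measure_preimage_equiv (f := L.symm.toMeasurableEquiv) K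


end Pool.Agent.Helper839.PS
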