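import Mathlib

set_option linter.all false

open MeasureTheory Set

namespace Pool.Agent.Helper839.PS

/-- shelf packing of countably many rectangles -/
theorem ps_pack (a S ε : ℝ) (ha : 0 < a) (hS : 0 < S) (hε : 0 < ε) (P : Set ℕ) (d w : ℕ → ℝ)
    (hd : ∀ n ∈ P, 0 < w n ∧ w n ≤ d n ∧ d n ≤ a)
    (hsum : ∀ F : Finset ℕ, (∀ n ∈ F, n ∈ P) → ∑ n ∈ F, d n * w n ≤ S) :
    ∃ x y : ℕ → ℝ,
      (∀ n ∈ P, 0 ≤ x n ∧ x n + d n ≤ (1 + ε) * a ∧ 0 ≤ y n ∧
        y n + w n ≤ (1 + ε) * (4 * Real.sqrt S + 4 * S / a)) ∧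
      ∀ m ∈ P, ∀ n ∈ P, m ≠ n →
        (x m + d m < x n ∨ x n + d n < x m ∨ y m + w m < y n ∨ y n + w n < y m) := by
  classical
  set W : ℝ := Real.sqrt S with hWdef
  have hW : 0 < W := Real.sqrt_pos.2 hS
  have hWW : W * W = S := Real.mul_self_sqrt hS.le
  set h : ℕ → ℝ := fun j => W * (1 / 2) ^ j with hh
  have hpos : ∀ j, 0 < h j := fun j => by simp only [hh]; positivity
  have hd0 : ∀ n ∈ P, 0 < d n := fun n hn => (hd n hn).1.trans_le (hd n hn).2.1
  have hwW : ∀ n ∈ P, w n ≤ W := by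
    intro n hn
    have h1 := hsum {n} (by simpa using hn)
    rw [Finset.sum_singleton] at h1
    have h2 : w n * w n ≤ d n * w n := mul_le_mul_of_nonneg_right (hd n hn).2.1 (hd n hn).1.le
    nlinarith [(hd n hn).1]
  have hcl : ∀ n, ∃ j : ℕ, n ∈ P → h j < 2 * w n ∧ w n ≤ h j := by
    intro n
    by_cases hn : n ∈ P
    · obtain ⟨j, h1, h2⟩ := exists_nat_pow_near_of_lt_one (x := w n / W) (y := (1 / 2 : ℝ))
        (div_pos (hd n hn).1 hW) ((div_le_one hW).2 (hwW n hn)) (by norm_num) (by norm_num)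
      refine ⟨j, fun _ => ⟨?_, ?_⟩⟩
      · rw [lt_div_iff₀ hW, pow_succ] at h1
        simp only [hh]
        linarith
      · rw [div_le_iff₀ hW] at h2
        simp only [hh]
        linarith
    · exact ⟨0, fun h => absurd h hn⟩
  choose jj hjj using hcl
  -- the class sums
  set f : ℕ → ℕ → ℝ := fun j m => if m ∈ P ∧ jj m = j then d m * w m else 0 with hf
  set g : ℕ → ℝ := fun m => if m ∈ P then d m * w m else 0 with hg
  have hf0 : ∀ j m, 0 ≤ f j m := by
    intro j m
    simp only [hf]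
    split_ifs with h1
    · exact mul_nonneg (hd0 m h1.1).le (hd m h1.1).1.le
    · exact le_rfl
  have hgS : ∀ F : Finset ℕ, ∑ m ∈ F, g m ≤ S := by
    intro F
    simp only [hg]
    rw [← Finset.sum_filter]
    exact hsum _ (fun n hn => (Finset.mem_filter.1 hn).2)
  have hfg : ∀ J m, ∑ i ∈ Finset.range J, f i m ≤ g m := by
    intro J m
    by_cases hm : m ∈ P
    · have h1 : ∀ i ∈ Finset.range J, f i m = if i = jj m then d m * w m else 0 := by
        intro i _
        simp only [hf, hm, true_and]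
        by_cases hi : jj m = i
        · rw [if_pos hi, if_pos hi.symm]
        · rw [if_neg hi, if_neg (fun h => hi h.symm)]
      rw [Finset.sum_congr rfl h1, Finset.sum_ite_eq']
      simp only [hg, hm, if_true]
      split_ifs
      · exact le_rfl
      · exact mul_nonneg (hd0 m hm).le (hd m hm).1.le
    · have h1 : ∀ i ∈ Finset.range J, f i m = 0 := by
        intro i _
        simp only [hf, hm, false_and, if_false]
      rw [Finset.sum_congr rfl h1]
      simp [hg, hm]
  have hfS : ∀ j, Summable (f j) := by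
    intro j
    refine summable_of_sum_le (c := S) (hf0 j) (fun F => ?_)
    refine (Finset.sum_le_sum fun m _ => ?_).trans (hgS F)
    have h1 := hfg (j + 1) m
    rw [Finset.sum_range_succ] at h1
    have h2 : 0 ≤ ∑ i ∈ Finset.range j, f i m := Finset.sum_nonneg fun i _ => hf0 i m
    linarith
  set Sj : ℕ → ℝ := fun j => ∑' m, f j m with hSj
  have hSj0 : ∀ j, 0 ≤ Sj j := fun j => tsum_nonneg (hf0 j)
  have hSjS : ∀ J, ∑ i ∈ Finset.range J, Sj i ≤ S := by
    intro J
    simp only [hSj]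
    rw [← Summable.tsum_finsetSum (fun i _ => hfS i)]
    refine Summable.tsum_le_of_sum_le (summable_sum fun i _ => hfS i) (fun F => ?_)
    exact (Finset.sum_le_sum fun m _ => hfg J m).trans (hgS F)
  -- positions on the line
  set D : ℕ → ℝ := fun n => (1 + ε) * d n with hD
  have hDpos : ∀ n ∈ P, 0 < D n := fun n hn => mul_pos (by linarith) (hd0 n hn)
  have hDd : ∀ n ∈ P, d n < D n := by
    intro n hn
    have := hd0 n hn
    simp only [hD]
    nlinarith
  set T : ℕ → ℕ → ℝ := fun j n => ∑ m ∈ Finset.range n, if m ∈ P ∧ jj m = j then D m else 0 with hT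
  have hTterm : ∀ j m, 0 ≤ (if m ∈ P ∧ jj m = j then D m else 0) := by
    intro j m
    split_ifs with h1
    · exact (hDpos m h1.1).le
    · exact le_rfl
  have hTmono : ∀ j k n, k ≤ n → T j k ≤ T j n := by
    intro j k n hkn
    exact Finset.sum_le_sum_of_subset_of_nonneg (Finset.range_mono hkn) fun m _ _ => hTterm j m
  have hTsucc : ∀ n ∈ P, T (jj n) (n + 1) = T (jj n) n + D n := by
    intro n hn
    simp only [hT]
    rw [Finset.sum_range_succ, if_pos ⟨hn, rfl⟩]
  have hT0 : ∀ j n, 0 ≤ T j n := fun j n => Finset.sum_nonneg fun m _ => hTterm j m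
  have hTb : ∀ j n, T j n * h j ≤ (1 + ε) * (2 * Sj j) := by
    intro j n
    have h1 : T j n * h j ≤ (1 + ε) * (2 * ∑ m ∈ Finset.range n, f j m) := by
      simp only [hT]
      rw [Finset.sum_mul, Finset.mul_sum, Finset.mul_sum]
      refine Finset.sum_le_sum fun m _ => ?_
      simp only [hf]
      split_ifs with h2
      · have h3 := (hjj m h2.1).1
        rw [h2.2] at h3
        have h4 := hDpos m h2.1
        simp only [hD] at h4 ⊢
        nlinarith
      · simp
    have h2 : ∑ m ∈ Finset.range n, f j m ≤ Sj j :=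
      (hfS j).sum_le_tsum _ (fun m _ => hf0 j m)
    nlinarith
  set L : ℝ := (1 + ε) * a with hL
  have hLpos : 0 < L := mul_pos (by linarith) ha
  set t : ℕ → ℝ := fun n => T (jj n) n with ht
  set q : ℕ → ℕ := fun n => ⌊t n / L⌋₊ with hq
  have hq1 : ∀ n, (q n : ℝ) * L ≤ t n := by
    intro n
    have h1 : (q n : ℝ) ≤ t n / L := Nat.floor_le (div_nonneg (hT0 _ _) hLpos.le)
    rwa [le_div_iff₀ hLpos] at h1
  have hq2 : ∀ n, t n < ((q n : ℝ) + 1) * L := by
    intro n
    have h1 : t n / L < (q n : ℝ) + 1 := Nat.lt_floor_add_one _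
    rwa [div_lt_iff₀ hLpos] at h1
  set β : ℕ → ℕ := fun n => if t n + D n ≤ ((q n : ℝ) + 1) * L then 2 * q n else 2 * q n + 1 with hβ
  have hβle : ∀ n, (β n : ℝ) + 1 ≤ 2 * ((q n : ℝ) + 1) := by
    intro n
    have h1 : β n + 1 ≤ 2 * (q n + 1) := by
      simp only [hβ]
      split_ifs <;> omega
    exact_mod_cast h1
  set b : ℕ → ℝ := fun j => 2 * h j + 4 * Sj j / a with hb
  have hb0 : ∀ j, 0 ≤ b j := by
    intro j
    have h1 := hpos j
    have h2 := hSj0 j
    simp only [hb]
    positivity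
  set Y : ℕ → ℝ := fun j => ∑ i ∈ Finset.range j, b i with hY
  have hYmono : ∀ i j, i ≤ j → Y i ≤ Y j := fun i j hij =>
    Finset.sum_le_sum_of_subset_of_nonneg (Finset.range_mono hij) fun m _ _ => hb0 m
  have hY0 : ∀ j, 0 ≤ Y j := fun j => Finset.sum_nonneg fun i _ => hb0 i
  have hYsucc : ∀ j, Y (j + 1) = Y j + b j := fun j => Finset.sum_range_succ _ _
  have hYtop : ∀ j, Y j ≤ 4 * W + 4 * S / a := by
    intro j
    have h1 : Y j = 2 * W * ∑ i ∈ Finset.range j, (1 / 2 : ℝ) ^ i +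
        4 / a * ∑ i ∈ Finset.range j, Sj i := by
      simp only [hY, hb, hh]
      rw [Finset.sum_add_distrib, Finset.mul_sum, Finset.mul_sum]
      congr 1
      · exact Finset.sum_congr rfl fun i _ => by ring
      · exact Finset.sum_congr rfl fun i _ => by ring
    have h2 : ∑ i ∈ Finset.range j, (1 / 2 : ℝ) ^ i ≤ 2 := by
      rw [geom_sum_eq (by norm_num : (1 / 2 : ℝ) ≠ 1)]
      have : (0 : ℝ) < (1 / 2) ^ j := by positivity
      rw [div_le_iff_of_neg (by norm_num)]
      linarith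
    have h3 := hSjS j
    have h4 : 4 / a * ∑ i ∈ Finset.range j, Sj i ≤ 4 / a * S :=
      mul_le_mul_of_nonneg_left h3 (by positivity)
    have h5 : 4 / a * S = 4 * S / a := by ring
    rw [h1, ← h5]
    nlinarith
  have hC : ∀ n ∈ P, ((β n : ℝ) + 1) * h (jj n) ≤ b (jj n) := by
    intro n hn
    have h1 : ((β n : ℝ) + 1) * h (jj n) ≤ 2 * ((q n : ℝ) + 1) * h (jj n) :=
      mul_le_mul_of_nonneg_right (hβle n) (hpos _).le
    have h2 : (q n : ℝ) * L * h (jj n) ≤ (1 + ε) * (2 * Sj (jj n)) :=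
      (mul_le_mul_of_nonneg_right (hq1 n) (hpos _).le).trans (hTb _ _)
    have h3 : (q n : ℝ) * h (jj n) * a ≤ 2 * Sj (jj n) := by
      have h4 : (1 + ε) * ((q n : ℝ) * h (jj n) * a) ≤ (1 + ε) * (2 * Sj (jj n)) := by
        calc (1 + ε) * ((q n : ℝ) * h (jj n) * a) = (q n : ℝ) * L * h (jj n) := by
              simp only [hL]; ring
          _ ≤ _ := h2
      exact le_of_mul_le_mul_left h4 (by linarith)
    have h5 : (q n : ℝ) * h (jj n) ≤ 2 * Sj (jj n) / a := (le_div_iff₀ ha).2 h3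
    have h6 : 4 * Sj (jj n) / a = 2 * (2 * Sj (jj n) / a) := by ring
    simp only [hb]
    rw [h6]
    linarith
  set x : ℕ → ℝ := fun n => if t n + D n ≤ ((q n : ℝ) + 1) * L then t n - q n * L else 0 with hx
  set y : ℕ → ℝ := fun n => (1 + ε) * (Y (jj n) + β n * h (jj n)) with hy
  have hE : ∀ n ∈ P, y n + w n < (1 + ε) * (Y (jj n) + ((β n : ℝ) + 1) * h (jj n)) := by
    intro n hn
    have h1 := (hjj n hn).2
    have h2 := hpos (jj n)
    simp only [hy]
    nlinarith
  have hEb : ∀ n ∈ P, y n + w n < (1 + ε) * Y (jj n + 1) := by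
    intro n hn
    refine (hE n hn).trans_le ?_
    rw [hYsucc]
    exact mul_le_mul_of_nonneg_left (by linarith [hC n hn]) (by linarith)
  have hyY : ∀ n, (1 + ε) * Y (jj n) ≤ y n := by
    intro n
    have h2 := hpos (jj n)
    have h3 : (0 : ℝ) ≤ β n * h (jj n) := by positivity
    simp only [hy]
    exact mul_le_mul_of_nonneg_left (by linarith) (by linarith)
  have sep : ∀ m ∈ P, ∀ n ∈ P, m < n →
      (x m + d m < x n ∨ x n + d n < x m ∨ y m + w m < y n ∨ y n + w n < y m) := by
    intro m hm n hn hmn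
    rcases lt_trichotomy (jj m) (jj n) with hj | hj | hj
    · right; right; left
      refine (hEb m hm).trans_le (le_trans ?_ (hyY n))
      exact mul_le_mul_of_nonneg_left (hYmono _ _ hj) (by linarith)
    · have htmn : t m + D m ≤ t n := by
        have h1 := hTmono (jj n) (m + 1) n hmn
        rw [← hj, hTsucc m hm] at h1
        simp only [ht]
        rw [← hj]
        exact h1
      rcases lt_trichotomy (β m) (β n) with hβ' | hβ' | hβ'
      · right; right; left
        refine (hE m hm).trans_le ?_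
        simp only [hy]
        rw [← hj]
        have h1 : ((β m : ℝ) + 1) ≤ β n := by exact_mod_cast hβ'
        have h2 := mul_le_mul_of_nonneg_right h1 (hpos (jj m)).le
        exact mul_le_mul_of_nonneg_left (by linarith) (by linarith)
      · left
        by_cases c1 : t m + D m ≤ ((q m : ℝ) + 1) * L
        · by_cases c2 : t n + D n ≤ ((q n : ℝ) + 1) * L
          · have hqq : q m = q n := by
              simp only [hβ] at hβ'
              rw [if_pos c1, if_pos c2] at hβ'
              omega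
            have e1 : x m = t m - q m * L := if_pos c1
            have e2 : x n = t n - q n * L := if_pos c2
            rw [e1, e2, hqq]
            have := hDd m hm
            linarith
          · exfalso
            simp only [hβ] at hβ'
            rw [if_pos c1, if_neg c2] at hβ'
            omega
        · by_cases c2 : t n + D n ≤ ((q n : ℝ) + 1) * L
          · exfalso
            simp only [hβ] at hβ'
            rw [if_neg c1, if_pos c2] at hβ'
            omega
          · exfalso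
            have hqq : q m = q n := by
              simp only [hβ] at hβ'
              rw [if_neg c1, if_neg c2] at hβ'
              omega
            push Not at c1
            rw [hqq] at c1
            have := hq2 n
            linarith
      · right; right; right
        refine (hE n hn).trans_le ?_
        simp only [hy]
        rw [← hj]
        have h1 : ((β n : ℝ) + 1) ≤ β m := by exact_mod_cast hβ'
        have h2 := mul_le_mul_of_nonneg_right h1 (hpos (jj m)).le
        exact mul_le_mul_of_nonneg_left (by linarith) (by linarith)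
    · right; right; right
      refine (hEb n hn).trans_le (le_trans ?_ (hyY m))
      exact mul_le_mul_of_nonneg_left (hYmono _ _ hj) (by linarith)
  refine ⟨x, y, ?_, ?_⟩
  · intro n hn
    refine ⟨?_, ?_, ?_, ?_⟩
    · simp only [hx]
      split_ifs
      · linarith [hq1 n]
      · exact le_rfl
    · show x n + d n ≤ L
      by_cases c : t n + D n ≤ ((q n : ℝ) + 1) * L
      · have e1 : x n = t n - q n * L := if_pos c
        rw [e1]
        have := hDd n hn
        linarith
      · have e1 : x n = 0 := if_neg c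
        rw [e1, zero_add]
        have h1 := (hd n hn).2.2
        simp only [hL]
        nlinarith
    · exact (mul_nonneg (by linarith) (hY0 _)).trans (hyY n)
    · refine (hEb n hn).le.trans ?_
      exact mul_le_mul_of_nonneg_left (hYtop _) (by linarith)
  · intro m hm n hn hmn
    rcases lt_or_gt_of_ne hmn with h1 | h1
    · exact sep m hm n hn h1
    · rcases sep n hn m hm h1 with h2 | h2 | h2 | h2
      · exact Or.inr (Or.inl h2)
      · exact Or.inl h2
      · exact Or.inr (Or.inr (Or.inr h2))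
      · exact Or.inr (Or.inr (Or.inl h2))



/-- long rectangles along the diagonal of the diamond `|X|+|Y| ≤ c/2`, short ones beside them -/
theorem ps_pack2 (a S η ε : ℝ) (ha : 0 < a) (hS : 0 < S) (hη : 0 < η) (hη1 : η < 1) (hε : 0 < ε)
    (P : Set ℕ) (d w : ℕ → ℝ)
    (hd : ∀ n ∈ P, 0 < w n ∧ w n ≤ d n ∧ d n ≤ a)
    (hsum : ∀ F : Finset ℕ, (∀ n ∈ F, n ∈ P) → ∑ n ∈ F, d n * w n ≤ S)
    (hfit : (1 + ε) * ((1 - η) * a) +
      2 * ((1 + ε) * (4 * Real.sqrt S + 4 * S / ((1 - η) * a))) < a) :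
    ∃ x y : ℕ → ℝ,
      (∀ n ∈ P, ∀ X Y : ℝ, x n ≤ X → X ≤ x n + d n → y n ≤ Y → Y ≤ y n + w n →
        |X| + |Y| ≤ (a + (1 + ε) * (S / ((1 - η) * a))) / 2) ∧
      ∀ m ∈ P, ∀ n ∈ P, m ≠ n →
        (x m + d m < x n ∨ x n + d n < x m ∨ y m + w m < y n ∨ y n + w n < y m) := by
  classical
  obtain ⟨a', ha'⟩ : ∃ a' : ℝ, a' = (1 - η) * a := ⟨_, rfl⟩
  rw [← ha'] at hfit ⊢
  have ha'0 : 0 < a' := by rw [ha']; exact mul_pos (by linarith) ha
  obtain ⟨x', y', hxy, hsep⟩ := ps_pack a' S ε ha'0 hS hε {n | n ∈ P ∧ d n ≤ a'} d w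
    (fun n hn => ⟨(hd n hn.1).1, (hd n hn.1).2.1, hn.2⟩)
    (fun F hF => hsum F (fun n hn => (hF n hn).1))
  obtain ⟨H', hH'⟩ : ∃ H' : ℝ, H' = (1 + ε) * (4 * Real.sqrt S + 4 * S / a') := ⟨_, rfl⟩
  obtain ⟨L', hL'⟩ : ∃ L' : ℝ, L' = (1 + ε) * a' := ⟨_, rfl⟩
  obtain ⟨H1, hH1⟩ : ∃ H1 : ℝ, H1 = (1 + ε) * (S / a') := ⟨_, rfl⟩
  rw [← hH', ← hL'] at hxy
  rw [← hH', ← hL'] at hfit
  rw [← hH1]
  obtain ⟨g, hg⟩ : ∃ g : ℝ, g = (a - L' - 2 * H') / 2 := ⟨_, rfl⟩
  have hg0 : 0 < g := by rw [hg]; linarith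
  have hH10 : 0 ≤ H1 := by rw [hH1]; positivity
  have hH'0 : 0 ≤ H' := by rw [hH']; positivity
  have hL'0 : 0 ≤ L' := by rw [hL']; positivity
  obtain ⟨t, ht⟩ : ∃ t : ℕ → ℝ, t = fun n => ∑ m ∈ (Finset.range n).filter
    (fun m => m ∈ P ∧ a' < d m), (1 + ε) * w m := ⟨_, rfl⟩
  have hterm : ∀ m ∈ P, 0 < (1 + ε) * w m := fun m hm => mul_pos (by linarith) (hd m hm).1
  have ht0 : ∀ n, 0 ≤ t n := by
    intro n
    rw [ht]
    apply Finset.sum_nonneg
    intro m hm
    rw [Finset.mem_filter] at hm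
    exact (hterm m hm.2.1).le
  have htsucc : ∀ n, n ∈ P → a' < d n → t n + (1 + ε) * w n = t (n + 1) := by
    intro n hn hn2
    rw [ht]
    simp only
    rw [Finset.range_add_one, Finset.filter_insert, if_pos ⟨hn, hn2⟩, Finset.sum_insert (by simp)]
    ring
  have htle : ∀ n, t n ≤ H1 := by
    intro n
    rw [ht, hH1]
    simp only
    rw [← Finset.mul_sum]
    apply mul_le_mul_of_nonneg_left _ (by linarith)
    rw [le_div_iff₀ ha'0]
    have h1 := hsum ((Finset.range n).filter (fun m => m ∈ P ∧ a' < d m)) (by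
      intro m hm
      rw [Finset.mem_filter] at hm
      exact hm.2.1)
    refine le_trans ?_ h1
    rw [Finset.sum_mul]
    apply Finset.sum_le_sum
    intro m hm
    rw [Finset.mem_filter] at hm
    rw [mul_comm]
    exact mul_le_mul_of_nonneg_right hm.2.2.le (hd m hm.2.1).1.le
  have htmono : ∀ m n, m ≤ n → t m ≤ t n := by
    intro m n hmn
    rw [ht]
    simp only
    apply Finset.sum_le_sum_of_subset_of_nonneg
    · intro i hi
      rw [Finset.mem_filter, Finset.mem_range] at hi ⊢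
      exact ⟨by omega, hi.2⟩
    · intro i hi _
      rw [Finset.mem_filter] at hi
      exact (hterm i hi.2.1).le
  have hlongtop : ∀ n ∈ P, a' < d n → t n + w n ≤ H1 := by
    intro n hn hn2
    have h1 := htsucc n hn hn2
    have h2 := htle (n + 1)
    have h3 := (hd n hn).1
    nlinarith
  have hlonglt : ∀ m ∈ P, a' < d m → ∀ n, m < n → t m + w m < t n := by
    intro m hm hm2 n hmn
    have h1 := htsucc m hm hm2
    have h2 := htmono (m + 1) n hmn
    have h3 := (hd m hm).1
    nlinarith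
  refine ⟨fun n => if d n ≤ a' then -L' / 2 + x' n else -d n / 2,
    fun n => if d n ≤ a' then H1 / 2 + g + y' n else -H1 / 2 + t n, ?_, ?_⟩
  · intro n hn X Y
    simp only
    by_cases hs : d n ≤ a'
    · rw [if_pos hs, if_pos hs]
      intro h1 h2 h3 h4
      obtain ⟨q1, q2, q3, q4⟩ := hxy n ⟨hn, hs⟩
      have hX : |X| ≤ L' / 2 := by
        rw [abs_le]; constructor <;> linarith
      have hY : |Y| ≤ H1 / 2 + g + H' := by
        rw [abs_le]; constructor <;> linarith
      have : L' / 2 + (H1 / 2 + g + H') = (a + H1) / 2 := by rw [hg]; ring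
      linarith
    · rw [if_neg hs, if_neg hs]
      push Not at hs
      intro h1 h2 h3 h4
      have q1 := hlongtop n hn hs
      have q2 := ht0 n
      have q3 := (hd n hn).2.2
      have hX : |X| ≤ a / 2 := by
        rw [abs_le]; constructor <;> linarith
      have hY : |Y| ≤ H1 / 2 := by
        rw [abs_le]; constructor <;> linarith
      linarith
  · intro m hm n hn hmn
    simp only
    by_cases hsm : d m ≤ a'
    · by_cases hsn : d n ≤ a'
      · rw [if_pos hsm, if_pos hsn, if_pos hsm, if_pos hsn]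
        rcases hsep m ⟨hm, hsm⟩ n ⟨hn, hsn⟩ hmn with h | h | h | h
        · left; linarith
        · right; left; linarith
        · right; right; left; linarith
        · right; right; right; linarith
      · rw [if_pos hsm, if_neg hsn, if_pos hsm, if_neg hsn]
        push Not at hsn
        have q1 := hlongtop n hn hsn
        have q2 := (hxy m ⟨hm, hsm⟩).2.2.1
        right; right; right; linarith
    · by_cases hsn : d n ≤ a'
      · rw [if_neg hsm, if_pos hsn, if_neg hsm, if_pos hsn]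
        push Not at hsm
        have q1 := hlongtop m hm hsm
        have q2 := (hxy n ⟨hn, hsn⟩).2.2.1
        right; right; left; linarith
      · rw [if_neg hsm, if_neg hsn, if_neg hsm, if_neg hsn]
        push Not at hsm hsn
        rcases lt_or_gt_of_ne hmn with h | h
        · have := hlonglt m hm hsm n h
          right; right; left; linarith
        · have := hlonglt n hn hsn m h
          right; right; right; linarith

theorem ps_params (a b y : ℝ) (ha : 0 < a) (hb : 0 < b) (hba : b ≤ a ^ 2 / 10000)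
    (hy : a + 2 * b / a + 200 * b * Real.sqrt b / a ^ 2 < y) :
    ∃ η ε : ℝ, 0 < η ∧ η < 1 ∧ 0 < ε ∧
      (1 + ε) * ((1 - η) * a) +
        2 * ((1 + ε) * (4 * Real.sqrt (2 * b) + 4 * (2 * b) / ((1 - η) * a))) < a ∧
      a + (1 + ε) * (2 * b / ((1 - η) * a)) ≤ y := by
  obtain ⟨r, hr⟩ : ∃ r, r = Real.sqrt b / a := ⟨_, rfl⟩
  have hsb : Real.sqrt b = a * r := by rw [hr]; field_simp
  have hsb0 : 0 < Real.sqrt b := Real.sqrt_pos.2 hb
  have hr0 : 0 < r := by rw [hr]; positivity
  have hbr : b = a ^ 2 * r ^ 2 := by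
    have h := Real.sq_sqrt hb.le
    rw [hsb] at h
    nlinarith [h]
  have hr1 : r ≤ 1 / 100 := by
    have ha2 : 0 < a ^ 2 := by positivity
    have h1 : r ^ 2 ≤ 1 / 10000 := by
      rw [hbr] at hba
      have : a ^ 2 * r ^ 2 ≤ a ^ 2 * (1 / 10000) := by linarith
      exact le_of_mul_le_mul_left this ha2
    nlinarith
  have har : 0 < a * r := by positivity
  have hs : Real.sqrt (2 * b) ≤ 1.4143 * (a * r) := by
    rw [Real.sqrt_le_iff]
    refine ⟨by positivity, ?_⟩
    rw [hbr]
    have : 0 < a ^ 2 * r ^ 2 := by positivity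
    nlinarith
  have hs0 : 0 ≤ Real.sqrt (2 * b) := Real.sqrt_nonneg _
  obtain ⟨D, hD⟩ : ∃ D, D = (1 - 50 * r) * a := ⟨_, rfl⟩
  have hDa : a / 2 ≤ D := by rw [hD]; nlinarith
  have hD0 : 0 < D := by linarith
  obtain ⟨Q, hQ⟩ : ∃ Q, Q = 2 * b / D := ⟨_, rfl⟩
  have hQ0 : 0 < Q := by rw [hQ]; positivity
  have hQ1 : Q ≤ 2 * b / a + 200 * b * Real.sqrt b / a ^ 2 := by
    rw [hQ, div_le_iff₀ hD0, hsb, hD]
    have e : (2 * b / a + 200 * b * (a * r) / a ^ 2) * ((1 - 50 * r) * a)
        = 2 * b + 100 * b * r * (1 - 100 * r) := by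
      field_simp
      ring
    rw [e]
    have : 0 ≤ 100 * b * r * (1 - 100 * r) := by
      apply mul_nonneg (by positivity)
      linarith
    linarith
  have hQ2 : Q ≤ 4 / 100 * (a * r) := by
    rw [hQ, div_le_iff₀ hD0]
    have h1 : 4 / 100 * (a * r) * (a / 2) ≤ 4 / 100 * (a * r) * D :=
      mul_le_mul_of_nonneg_left hDa (by positivity)
    have h2 : 2 * b ≤ 4 / 100 * (a * r) * (a / 2) := by
      rw [hbr]
      have : a ^ 2 * r * r ≤ a ^ 2 * r * (1 / 100) :=
        mul_le_mul_of_nonneg_left hr1 (by positivity)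
      nlinarith
    linarith
  obtain ⟨δ, hδ⟩ : ∃ δ, δ = y - (a + 2 * b / a + 200 * b * Real.sqrt b / a ^ 2) := ⟨_, rfl⟩
  have hδ0 : 0 < δ := by rw [hδ]; linarith
  obtain ⟨ε, hε⟩ : ∃ ε, ε = min r (δ / Q) := ⟨_, rfl⟩
  have hε0 : 0 < ε := by rw [hε]; exact lt_min hr0 (by positivity)
  have hεr : ε ≤ r := by rw [hε]; exact min_le_left _ _
  have hεQ : ε * Q ≤ δ := by
    have : ε ≤ δ / Q := by rw [hε]; exact min_le_right _ _
    rwa [le_div_iff₀ hQ0] at this
  refine ⟨50 * r, ε, by positivity, by linarith, hε0, ?_, ?_⟩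
  · rw [← hD]
    have e : 4 * (2 * b) / D = 4 * Q := by rw [hQ]; ring
    rw [e]
    obtain ⟨X, hX⟩ : ∃ X, X = D + 8 * Real.sqrt (2 * b) + 8 * Q := ⟨_, rfl⟩
    have hX1 : X ≤ a - 38 * (a * r) := by
      have : D = a - 50 * (a * r) := by rw [hD]; ring
      rw [hX, this]
      linarith
    have hX0 : 0 < X := by rw [hX]; linarith
    have hXa : X ≤ a := by linarith
    have h1 : ε * X ≤ r * a := mul_le_mul hεr hXa hX0.le hr0.le
    have e2 : (1 + ε) * D + 2 * ((1 + ε) * (4 * Real.sqrt (2 * b) + 4 * Q)) = X + ε * X := by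
      rw [hX]; ring
    rw [e2]
    nlinarith
  · rw [← hD, ← hQ]
    have : (1 + ε) * Q = Q + ε * Q := by ring
    rw [this]
    linarith


/-- the square of diameter `c` is a diamond -/
theorem ps_diamond (c : ℝ) (hc : 0 < c) :
    (∃ ρ : EuclideanSpace ℝ (Fin 2) → EuclideanSpace ℝ (Fin 2), Isometry ρ ∧
      ∀ x, (∀ i, 0 ≤ x i ∧ x i ≤ c / Real.sqrt 2) → |ρ x 0| + |ρ x 1| ≤ c / 2) ∧
    (∃ σ : EuclideanSpace ℝ (Fin 2) → EuclideanSpace ℝ (Fin 2), Isometry σ ∧
      ∀ z, |z 0| + |z 1| ≤ c / 2 → ∀ i, 0 ≤ σ z i ∧ σ z i ≤ c / Real.sqrt 2) := by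
  obtain ⟨r, hr0, hr2, hrdef⟩ : ∃ r : ℝ, 0 < r ∧ r * r = 2 ∧ Real.sqrt 2 = r :=
    ⟨Real.sqrt 2, by positivity, Real.mul_self_sqrt (by norm_num), rfl⟩
  rw [hrdef]
  have hinv : (1 : ℝ) / r = r / 2 := by
    field_simp
    nlinarith
  have hdiv : ∀ a : ℝ, a / r = a * (r / 2) := by
    intro a
    rw [← hinv]; ring
  refine ⟨⟨fun x => !₂[(x 0 + x 1) / r - c / 2, (x 0 - x 1) / r], ?_, ?_⟩,
    ⟨fun z => !₂[(z 0 + z 1) / r + (c / r) / 2, (z 0 - z 1) / r + (c / r) / 2], ?_, ?_⟩⟩
  · refine Isometry.of_dist_eq ?_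
    intro x y
    rw [EuclideanSpace.dist_eq, EuclideanSpace.dist_eq]
    congr 1
    simp only [Fin.sum_univ_two, Real.dist_eq, sq_abs]
    simp only [PiLp.toLp_apply, Matrix.cons_val_zero, Matrix.cons_val_one, hdiv]
    linear_combination (((x 0 - y 0)^2 + (x 1 - y 1)^2) / 2) * hr2
  · intro x hx
    obtain ⟨h00, h01⟩ := hx 0
    obtain ⟨h10, h11⟩ := hx 1
    simp only [PiLp.toLp_apply, Matrix.cons_val_zero, Matrix.cons_val_one, hdiv] at *
    have e0 : r * (x 0) ≤ c := by nlinarith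
    have e1 : r * (x 1) ≤ c := by nlinarith
    have f0 : 0 ≤ r * (x 0) := by positivity
    have f1 : 0 ≤ r * (x 1) := by positivity
    rcases abs_cases ((x 0 + x 1) * (r / 2) - c / 2) with ⟨h, _⟩ | ⟨h, _⟩ <;>
    rcases abs_cases ((x 0 - x 1) * (r / 2)) with ⟨h', _⟩ | ⟨h', _⟩ <;>
    rw [h, h'] <;> nlinarith
  · refine Isometry.of_dist_eq ?_
    intro x y
    rw [EuclideanSpace.dist_eq, EuclideanSpace.dist_eq]
    congr 1
    simp only [Fin.sum_univ_two, Real.dist_eq, sq_abs]
    simp only [PiLp.toLp_apply, Matrix.cons_val_zero, Matrix.cons_val_one, hdiv]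
    linear_combination (((x 0 - y 0)^2 + (x 1 - y 1)^2) / 2) * hr2
  · intro z hz
    have a0 := neg_abs_le (z 0)
    have a1 := neg_abs_le (z 1)
    have b0 := le_abs_self (z 0)
    have b1 := le_abs_self (z 1)
    have k1 : z 0 + z 1 ≤ c / 2 := by linarith
    have k2 : -(c / 2) ≤ z 0 + z 1 := by linarith
    have k3 : z 0 - z 1 ≤ c / 2 := by linarith
    have k4 : -(c / 2) ≤ z 0 - z 1 := by linarith
    intro i
    fin_cases i
    · simp only [PiLp.toLp_apply, Fin.zero_eta, Matrix.cons_val_zero, hdiv]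
      constructor <;> nlinarith
    · simp only [Fin.mk_one, Matrix.cons_val_one, Matrix.cons_val_fin_one, hdiv]
      constructor <;> nlinarith


end Pool.Agent.Helper839.PS
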