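import Mathlib

set_option linter.all false

open MeasureTheory Set

namespace Pool.Agent.Helper839.PS

theorem ps_rhombus_vol_aux (a w : ℝ) (hw : 0 < w) (ha : 0 < a) :
    (∫⁻ x : ℝ, ENNReal.ofReal (w * (1 - |x| * (2 / a)))) ≤ ENNReal.ofReal (a * w / 2) := by
  have h1 : (∫⁻ x : ℝ, ENNReal.ofReal (w * (1 - |x| * (2 / a)))) =
      ∫⁻ x in Ioc (-(a / 2)) (a / 2), ENNReal.ofReal (w * (1 - |x| * (2 / a))) := by
    rw [← lintegral_indicator measurableSet_Ioc]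
    apply lintegral_congr_ae
    have hne : ∀ᵐ x : ℝ, x ≠ -(a / 2) := by
      simp [ae_iff, measure_singleton]
    filter_upwards [hne] with x hx
    by_cases hm : x ∈ Ioc (-(a / 2)) (a / 2)
    · rw [indicator_of_mem hm]
    · rw [indicator_of_notMem hm]
      apply ENNReal.ofReal_of_nonpos
      have h2 : a / 2 ≤ |x| := by
        simp only [mem_Ioc, not_and_or, not_lt, not_le] at hm
        rcases hm with hm | hm
        · rw [le_abs]; right; linarith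
        · rw [le_abs]; left; linarith
      have h3 : 1 ≤ |x| * (2 / a) := by
        calc (1 : ℝ) = a / 2 * (2 / a) := by field_simp
          _ ≤ |x| * (2 / a) := by gcongr
      nlinarith
  rw [h1]
  have hint : IntegrableOn (fun x : ℝ => w * (1 - |x| * (2 / a))) (Ioc (-(a / 2)) (a / 2)) := by
    have : Continuous fun x : ℝ => w * (1 - |x| * (2 / a)) := by fun_prop
    exact (this.integrableOn_Icc).mono_set Ioc_subset_Icc_self
  rw [← ofReal_integral_eq_lintegral_ofReal hint]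
  · apply ENNReal.ofReal_le_ofReal
    rw [← intervalIntegral.integral_of_le (by linarith)]
    have hc : Continuous fun x : ℝ => w * (1 - |x| * (2 / a)) := by fun_prop
    rw [← intervalIntegral.integral_add_adjacent_intervals (b := 0)
      (hc.intervalIntegrable _ _) (hc.intervalIntegrable _ _)]
    have e1 : ∫ x in (-(a / 2))..0, w * (1 - |x| * (2 / a)) =
        ∫ x in (-(a / 2))..0, (w + (2 * w / a) * x) := by
      apply intervalIntegral.integral_congr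
      intro x hx
      rw [uIcc_of_le (by linarith)] at hx
      simp only
      rw [abs_of_nonpos hx.2]
      ring
    have e2 : ∫ x in (0 : ℝ)..(a / 2), w * (1 - |x| * (2 / a)) =
        ∫ x in (0 : ℝ)..(a / 2), (w - (2 * w / a) * x) := by
      apply intervalIntegral.integral_congr
      intro x hx
      rw [uIcc_of_le (by linarith)] at hx
      simp only
      rw [abs_of_nonneg hx.1]
      ring
    rw [e1, e2, intervalIntegral.integral_add (by simp) (Continuous.intervalIntegrable (by fun_prop) _ _),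
      intervalIntegral.integral_sub (by simp) (Continuous.intervalIntegrable (by fun_prop) _ _),
      intervalIntegral.integral_const_mul, intervalIntegral.integral_const_mul]
    simp only [intervalIntegral.integral_const, integral_id, smul_eq_mul]
    apply le_of_eq
    field_simp
    ring
  · rw [Filter.EventuallyLE, ae_restrict_iff' measurableSet_Ioc]
    refine Filter.Eventually.of_forall fun x hx => ?_
    have h2 : |x| ≤ a / 2 := abs_le.2 ⟨hx.1.le, hx.2⟩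
    have h3 : |x| * (2 / a) ≤ 1 := by
      calc |x| * (2 / a) ≤ a / 2 * (2 / a) := by gcongr
        _ = 1 := by field_simp
    simp only [Pi.zero_apply]
    apply mul_nonneg hw.le
    linarith

theorem ps_rhombus_vol_aux2 (a w : ℝ) (hw : 0 < w) (ha : 0 < a) :
    volume {p : ℝ × ℝ | |p.1| * (2 / a) + |p.2| * (2 / w) ≤ 1} ≤ ENNReal.ofReal (a * w / 2) := by
  have hm : MeasurableSet {p : ℝ × ℝ | |p.1| * (2 / a) + |p.2| * (2 / w) ≤ 1} :=
    (isClosed_le (by fun_prop) (by fun_prop)).measurableSet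
  rw [Measure.volume_eq_prod, Measure.prod_apply hm]
  refine le_trans (lintegral_mono fun x => ?_) (ps_rhombus_vol_aux a w hw ha)
  have hsub : Prod.mk x ⁻¹' {p : ℝ × ℝ | |p.1| * (2 / a) + |p.2| * (2 / w) ≤ 1} ⊆
      Icc (-(w / 2 * (1 - |x| * (2 / a)))) (w / 2 * (1 - |x| * (2 / a))) := by
    intro y hy
    replace hy : |x| * (2 / a) + |y| * (2 / w) ≤ 1 := hy
    have h1 : |y| ≤ w / 2 * (1 - |x| * (2 / a)) := by
      have h2 : |y| * (2 / w) ≤ 1 - |x| * (2 / a) := by linarith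
      calc |y| = w / 2 * (|y| * (2 / w)) := by field_simp
        _ ≤ w / 2 * (1 - |x| * (2 / a)) := by gcongr
    exact abs_le.1 h1
  calc volume (Prod.mk x ⁻¹' {p : ℝ × ℝ | |p.1| * (2 / a) + |p.2| * (2 / w) ≤ 1})
      ≤ volume (Icc (-(w / 2 * (1 - |x| * (2 / a)))) (w / 2 * (1 - |x| * (2 / a)))) :=
        measure_mono hsub
    _ = ENNReal.ofReal (w * (1 - |x| * (2 / a))) := by
        rw [Real.volume_Icc]
        congr 1
        ring

/-- the rhombus with diagonals `a ≥ w` -/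
theorem ps_rhombus (a w : ℝ) (hw : 0 < w) (hwa : w ≤ a) :
    let K : Set (EuclideanSpace ℝ (Fin 2)) := {x | |x 0| * (2 / a) + |x 1| * (2 / w) ≤ 1}
    IsCompact K ∧ Convex ℝ K ∧ (interior K).Nonempty ∧ Metric.diam K ≤ a ∧
      volume K ≤ ENNReal.ofReal (a * w / 2) := by
  intro K
  have ha : 0 < a := lt_of_lt_of_le hw hwa
  have hcont : Continuous fun x : EuclideanSpace ℝ (Fin 2) => |x 0| * (2 / a) + |x 1| * (2 / w) := by
    fun_prop
  have hclosed : IsClosed K := isClosed_le hcont continuous_const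
  have hnorm : ∀ x ∈ K, ‖x‖ ≤ a / 2 := by
    intro x hx
    have hx' : |x 0| * (2 / a) + |x 1| * (2 / w) ≤ 1 := hx
    have h1 : |x 0| + |x 1| ≤ a / 2 := by
      have h2 : a / 2 * (|x 0| * (2 / a) + |x 1| * (2 / w)) ≤ a / 2 * 1 := by gcongr
      have h3 : a / 2 * (|x 0| * (2 / a) + |x 1| * (2 / w)) = |x 0| + |x 1| * (a / w) := by
        field_simp
      have h4 : 1 ≤ a / w := by rw [le_div_iff₀ hw]; linarith
      have h5 : |x 1| * 1 ≤ |x 1| * (a / w) := by gcongr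
      linarith
    rw [EuclideanSpace.norm_eq, Fin.sum_univ_two]
    rw [Real.sqrt_le_left (by linarith)]
    simp only [Real.norm_eq_abs]
    have h6 := abs_nonneg (x 0)
    have h7 := abs_nonneg (x 1)
    nlinarith
  refine ⟨?_, ?_, ?_, ?_, ?_⟩
  · apply Metric.isCompact_of_isClosed_isBounded hclosed
    refine (Metric.isBounded_closedBall (x := (0 : EuclideanSpace ℝ (Fin 2))) (r := a / 2)).subset ?_
    intro x hx
    rw [Metric.mem_closedBall, dist_zero_right]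
    exact hnorm x hx
  · intro x hx y hy s t hs ht hst
    have hx' : |x 0| * (2 / a) + |x 1| * (2 / w) ≤ 1 := hx
    have hy' : |y 0| * (2 / a) + |y 1| * (2 / w) ≤ 1 := hy
    show |(s • x + t • y) 0| * (2 / a) + |(s • x + t • y) 1| * (2 / w) ≤ 1
    have hc : ∀ i : Fin 2, |(s • x + t • y) i| ≤ s * |x i| + t * |y i| := by
      intro i
      simp only [PiLp.add_apply, PiLp.smul_apply, smul_eq_mul]
      calc |s * x i + t * y i| ≤ |s * x i| + |t * y i| := abs_add_le _ _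
        _ = s * |x i| + t * |y i| := by rw [abs_mul, abs_mul, abs_of_nonneg hs, abs_of_nonneg ht]
    calc |(s • x + t • y) 0| * (2 / a) + |(s • x + t • y) 1| * (2 / w)
        ≤ (s * |x 0| + t * |y 0|) * (2 / a) + (s * |x 1| + t * |y 1|) * (2 / w) := by
          gcongr
          · exact hc 0
          · exact hc 1
      _ = s * (|x 0| * (2 / a) + |x 1| * (2 / w)) + t * (|y 0| * (2 / a) + |y 1| * (2 / w)) := by
          ring
      _ ≤ s * 1 + t * 1 := by gcongr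
      _ = 1 := by linarith
  · refine ⟨0, mem_interior.2 ⟨{x : EuclideanSpace ℝ (Fin 2) | |x 0| * (2 / a) + |x 1| * (2 / w) < 1},
      fun x hx => ?_, isOpen_lt hcont continuous_const, ?_⟩⟩
    · have hx' : |x 0| * (2 / a) + |x 1| * (2 / w) < 1 := hx
      show |x 0| * (2 / a) + |x 1| * (2 / w) ≤ 1
      exact hx'.le
    · simp
  · apply Metric.diam_le_of_forall_dist_le ha.le
    intro x hx y hy
    calc dist x y = ‖x - y‖ := dist_eq_norm _ _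
      _ ≤ ‖x‖ + ‖y‖ := norm_sub_le _ _
      _ ≤ a / 2 + a / 2 := add_le_add (hnorm x hx) (hnorm y hy)
      _ = a := by ring
  · have hK : K = (fun x : EuclideanSpace ℝ (Fin 2) => (WithLp.ofLp x : Fin 2 → ℝ)) ⁻¹'
        ((MeasurableEquiv.finTwoArrow : (Fin 2 → ℝ) ≃ᵐ ℝ × ℝ) ⁻¹'
          {p : ℝ × ℝ | |p.1| * (2 / a) + |p.2| * (2 / w) ≤ 1}) := by
      ext x
      rfl
    have hm : MeasurableSet {p : ℝ × ℝ | |p.1| * (2 / a) + |p.2| * (2 / w) ≤ 1} :=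
      (isClosed_le (by fun_prop) (by fun_prop)).measurableSet
    rw [hK, (PiLp.volume_preserving_ofLp (Fin 2)).measure_preimage
      ((MeasurableEquiv.measurable _) hm).nullMeasurableSet,
      (volume_preserving_finTwoArrow ℝ).measure_preimage hm.nullMeasurableSet]
    exact ps_rhombus_vol_aux2 a w hw ha

theorem ps_core_pos (a w c X0 G0 G1 e0 e1 : ℝ) (ha : 0 < a) (hc1 : a ≤ c)
    (hc2 : c ≤ 1.01 * a) (hX0 : 0 < X0) (hX : X0 ^ 2 ≤ a ^ 2 - (c ^ 2 - a ^ 2) ^ 2 / (2 * a ^ 2))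
    (h1 : e0 ^ 2 + e1 ^ 2 = 1) (he0 : 0 < e0) (hle : |e1| ≤ e0)
    (hP : |G0 - a / 2 * e0| + |G1 - a / 2 * e1| ≤ c / 2)
    (hQ : |G0 + a / 2 * e0| + |G1 + a / 2 * e1| ≤ c / 2) :
    ∃ u0 : ℝ, G0 + u0 * e0 = 0 ∧ |u0| * (2 / a) ≤ (c - X0) / X0 ∧
      |G1 + u0 * e1| ≤ c * (c - X0) / (2 * X0) ∧ 1 / 2 ≤ e0 := by
  obtain ⟨X, hXd⟩ : ∃ X, X = a * e0 := ⟨_, rfl⟩
  obtain ⟨Y, hYd⟩ : ∃ Y, Y = a * |e1| := ⟨_, rfl⟩
  have hXpos : 0 < X := by rw [hXd]; positivity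
  have hYpos : 0 ≤ Y := by rw [hYd]; positivity
  have hXY : X ^ 2 + Y ^ 2 = a ^ 2 := by
    rw [hXd, hYd, mul_pow, mul_pow, sq_abs]; linear_combination a ^ 2 * h1
  have hYX : Y ≤ X := by
    rw [hXd, hYd]; exact mul_le_mul_of_nonneg_left hle ha.le
  obtain ⟨P0, hP0⟩ : ∃ P0, P0 = G0 - a / 2 * e0 := ⟨_, rfl⟩
  obtain ⟨P1, hP1⟩ : ∃ P1, P1 = G1 - a / 2 * e1 := ⟨_, rfl⟩
  obtain ⟨Q0, hQ0⟩ : ∃ Q0, Q0 = G0 + a / 2 * e0 := ⟨_, rfl⟩
  obtain ⟨Q1, hQ1⟩ : ∃ Q1, Q1 = G1 + a / 2 * e1 := ⟨_, rfl⟩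
  rw [← hP0, ← hP1] at hP
  rw [← hQ0, ← hQ1] at hQ
  have hXQ : X = Q0 - P0 := by rw [hXd, hQ0, hP0]; ring
  have hYQ : Y = |Q1 - P1| := by
    rw [hYd, hQ1, hP1]
    rw [show G1 + a / 2 * e1 - (G1 - a / 2 * e1) = a * e1 by ring, abs_mul, abs_of_pos ha]
  have hsum : X + Y ≤ c := by
    have t1 : Q0 - P0 ≤ |Q0| + |P0| := by
      have := le_abs_self Q0
      have := neg_abs_le P0
      linarith
    have t2 : |Q1 - P1| ≤ |Q1| + |P1| := abs_sub _ _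
    rw [hXQ, hYQ]
    linarith
  have hD0 : 0 ≤ c ^ 2 - a ^ 2 := by
    rw [show c ^ 2 - a ^ 2 = (c - a) * (c + a) by ring]
    exact mul_nonneg (by linarith) (by linarith)
  have h2XY : 2 * (X * Y) ≤ c ^ 2 - a ^ 2 := by
    have t := pow_le_pow_left₀ (by positivity : 0 ≤ X + Y) hsum 2
    have e : (X + Y) ^ 2 = X ^ 2 + Y ^ 2 + 2 * (X * Y) := by ring
    linarith
  have h2X : a ^ 2 ≤ 2 * X ^ 2 := by
    have t := pow_le_pow_left₀ hYpos hYX 2
    linarith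
  have hY2 : 2 * a ^ 2 * Y ^ 2 ≤ (c ^ 2 - a ^ 2) ^ 2 := by
    have t1 : (2 * (X * Y)) ^ 2 ≤ (c ^ 2 - a ^ 2) ^ 2 := by
      apply pow_le_pow_left₀ (by positivity) h2XY
    have t2 : 2 * a ^ 2 * Y ^ 2 ≤ 4 * X ^ 2 * Y ^ 2 := by
      have : 0 ≤ Y ^ 2 := by positivity
      exact mul_le_mul_of_nonneg_right (by linarith) this
    have e : (2 * (X * Y)) ^ 2 = 4 * X ^ 2 * Y ^ 2 := by ring
    linarith
  have ha2 : 0 < 2 * a ^ 2 := by positivity
  have hY2' : Y ^ 2 ≤ (c ^ 2 - a ^ 2) ^ 2 / (2 * a ^ 2) := by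
    rw [le_div_iff₀ ha2]; linarith
  have hX2 : X0 ^ 2 ≤ X ^ 2 := by linarith
  have hX0X : X0 ≤ X := by
    by_contra hcon
    push Not at hcon
    have t := pow_lt_pow_left₀ hcon hXpos.le two_ne_zero
    linarith
  have hc2' : c ≤ 101 / 100 * a := by norm_num at hc2 ⊢; linarith
  have hDle : c ^ 2 - a ^ 2 ≤ 201 / 10000 * a ^ 2 := by
    have t := pow_le_pow_left₀ (by linarith : 0 ≤ c) hc2' 2
    have e : (101 / 100 * a) ^ 2 = 10201 / 10000 * a ^ 2 := by ring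
    linarith
  have hD2 : (c ^ 2 - a ^ 2) ^ 2 ≤ (201 / 10000 * a ^ 2) ^ 2 := pow_le_pow_left₀ hD0 hDle 2
  have hY3 : Y ^ 2 ≤ 1 / 1000 * a ^ 2 := by
    have e1 : (201 / 10000 * a ^ 2) ^ 2 = 40401 / 100000000 * (a ^ 2 * a ^ 2) := by ring
    have e2 : 2 * a ^ 2 * (1 / 1000 * a ^ 2) = 1 / 500 * (a ^ 2 * a ^ 2) := by ring
    have e3 : 0 ≤ a ^ 2 * a ^ 2 := by positivity
    have t : 2 * a ^ 2 * Y ^ 2 ≤ 2 * a ^ 2 * (1 / 1000 * a ^ 2) := by
      rw [e2]; rw [e1] at hD2; linarith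
    exact le_of_mul_le_mul_left t ha2
  have hX99 : 99 / 100 * a ≤ X := by
    by_contra hcon
    push Not at hcon
    have t := pow_lt_pow_left₀ hcon hXpos.le two_ne_zero
    have e : (99 / 100 * a) ^ 2 = 9801 / 10000 * a ^ 2 := by ring
    linarith
  have hq0 : |Q0| ≤ c / 2 := by linarith [abs_nonneg Q1]
  have hp0 : |P0| ≤ c / 2 := by linarith [abs_nonneg P1]
  rw [abs_le] at hq0 hp0
  have hQpos : 0 < Q0 := by linarith [hp0.1]
  have hPneg : P0 < 0 := by linarith [hq0.2]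
  have hG0 : 2 * G0 = P0 + Q0 := by rw [hP0, hQ0]; ring
  have hG0le : |G0| ≤ (c - X) / 2 := by
    rw [abs_le]
    constructor <;> linarith [hp0.1, hq0.2]
  have hdiv : (c - X) / X ≤ (c - X0) / X0 := by
    rw [div_le_div_iff₀ hXpos hX0]
    have t : c * X0 ≤ c * X := mul_le_mul_of_nonneg_left hX0X (by linarith)
    linarith
  refine ⟨-G0 / e0, ?_, ?_, ?_, ?_⟩
  · field_simp; ring
  · refine le_trans ?_ hdiv
    rw [abs_div, abs_neg, abs_of_pos he0, le_div_iff₀ hXpos, hXd]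
    have : |G0| / e0 * (2 / a) * (a * e0) = 2 * |G0| := by field_simp
    rw [this, ← hXd]; linarith
  · have hy0 : X * (G1 + -G0 / e0 * e1) = Q0 * P1 - P0 * Q1 := by
      rw [hQ0, hP1, hP0, hQ1, hXd]; field_simp; ring
    have hP1le : |P1| ≤ c / 2 + P0 := by rw [abs_of_neg hPneg] at hP; linarith
    have hQ1le : |Q1| ≤ c / 2 - Q0 := by rw [abs_of_pos hQpos] at hQ; linarith
    have habs : |X * (G1 + -G0 / e0 * e1)| ≤ c / 2 * (c - X) := by
      rw [hy0]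
      have t1 : |Q0 * P1 - P0 * Q1| ≤ Q0 * |P1| + (-P0) * |Q1| := by
        refine (abs_sub _ _).trans ?_
        rw [abs_mul, abs_mul, abs_of_pos hQpos, abs_of_neg hPneg]
      have t2 : Q0 * |P1| ≤ Q0 * (c / 2 + P0) := mul_le_mul_of_nonneg_left hP1le hQpos.le
      have t3 : (-P0) * |Q1| ≤ (-P0) * (c / 2 - Q0) := mul_le_mul_of_nonneg_left hQ1le (by linarith)
      have t4 : 0 ≤ (c / 2 + P0) * (c / 2 - Q0) :=
        mul_nonneg (le_trans (abs_nonneg _) hP1le) (le_trans (abs_nonneg _) hQ1le)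
      rw [hXQ]
      linarith
    rw [abs_mul, abs_of_pos hXpos] at habs
    have h3 : |G1 + -G0 / e0 * e1| ≤ c / 2 * ((c - X) / X) := by
      rw [← mul_div_assoc, le_div_iff₀ hXpos]; linarith
    calc |G1 + -G0 / e0 * e1| ≤ c / 2 * ((c - X) / X) := h3
      _ ≤ c / 2 * ((c - X0) / X0) := mul_le_mul_of_nonneg_left hdiv (by linarith)
      _ = c * (c - X0) / (2 * X0) := by field_simp
  · have h4 : a * (99 / 100) ≤ a * e0 := by rw [← hXd]; linarith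
    have := le_of_mul_le_mul_left h4 ha
    linarith

theorem ps_core (a w c X0 G0 G1 e0 e1 : ℝ) (ha : 0 < a) (hc1 : a ≤ c)
    (hc2 : c ≤ 1.01 * a) (hX0 : 0 < X0) (hX : X0 ^ 2 ≤ a ^ 2 - (c ^ 2 - a ^ 2) ^ 2 / (2 * a ^ 2))
    (h1 : e0 ^ 2 + e1 ^ 2 = 1) (hle : |e1| ≤ |e0|)
    (hP : |G0 - a / 2 * e0| + |G1 - a / 2 * e1| ≤ c / 2)
    (hQ : |G0 + a / 2 * e0| + |G1 + a / 2 * e1| ≤ c / 2) :
    ∃ u0 : ℝ, G0 + u0 * e0 = 0 ∧ |u0| * (2 / a) ≤ (c - X0) / X0 ∧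
      |G1 + u0 * e1| ≤ c * (c - X0) / (2 * X0) ∧ 1 / 2 ≤ |e0| := by
  rcases lt_trichotomy e0 0 with h | h | h
  · obtain ⟨u, k1, k2, k3, k4⟩ := ps_core_pos a w c X0 G0 G1 (-e0) (-e1) ha hc1 hc2 hX0 hX
      (by rw [neg_sq, neg_sq]; exact h1) (by linarith) (by rw [abs_neg, ← abs_of_neg h]; exact hle)
      (by rw [mul_neg, mul_neg, sub_neg_eq_add, sub_neg_eq_add]; exact hQ)
      (by rw [mul_neg, mul_neg, ← sub_eq_add_neg, ← sub_eq_add_neg]; exact hP)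
    refine ⟨-u, by linarith, by rw [abs_neg]; exact k2, ?_, ?_⟩
    · rw [show -u * e1 = u * -e1 by ring]; exact k3
    · rw [abs_of_neg h]; exact k4
  · exfalso
    rw [h, abs_zero] at hle
    have : e1 = 0 := abs_eq_zero.mp (le_antisymm hle (abs_nonneg _))
    rw [h, this] at h1
    norm_num at h1
  · obtain ⟨u, k1, k2, k3, k4⟩ := ps_core_pos a w c X0 G0 G1 e0 e1 ha hc1 hc2 hX0 hX
      h1 h (by rw [← abs_of_pos h]; exact hle) hP hQ
    exact ⟨u, k1, k2, k3, by rw [abs_of_pos h]; exact k4⟩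

theorem ps_affine (g : EuclideanSpace ℝ (Fin 2) → EuclideanSpace ℝ (Fin 2)) (hg : Isometry g) :
    ∃ G0 G1 e0 e1 n0 n1 : ℝ, (∀ x, g x 0 = G0 + x 0 * e0 + x 1 * n0) ∧
      (∀ x, g x 1 = G1 + x 0 * e1 + x 1 * n1) ∧ e0 ^ 2 + e1 ^ 2 = 1 ∧ n0 ^ 2 + n1 ^ 2 = 1 ∧
      e0 * n0 + e1 * n1 = 0 := by
  obtain ⟨L, hL⟩ : ∃ L : EuclideanSpace ℝ (Fin 2) →ₗᵢ[ℝ] EuclideanSpace ℝ (Fin 2),
      ∀ x, g x = L x + g 0 := by
    refine ⟨hg.affineIsometryOfStrictConvexSpace.linearIsometry, fun x => ?_⟩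
    have := hg.affineIsometryOfStrictConvexSpace.map_vadd 0 x
    simpa using this
  have hx : ∀ x : EuclideanSpace ℝ (Fin 2), x = x 0 • !₂[1, 0] + x 1 • !₂[0, 1] := by
    intro x
    ext i
    fin_cases i <;> simp
  have hLx : ∀ x, L x = x 0 • L !₂[1, 0] + x 1 • L !₂[0, 1] := by
    intro x
    conv_lhs => rw [hx x]
    rw [map_add, map_smul, map_smul]
  have hnorm : ∀ x : EuclideanSpace ℝ (Fin 2), (L x 0) ^ 2 + (L x 1) ^ 2 = x 0 ^ 2 + x 1 ^ 2 := by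
    intro x
    have h := L.norm_map x
    have h2 : ‖L x‖ ^ 2 = ‖x‖ ^ 2 := by rw [h]
    rw [EuclideanSpace.norm_sq_eq, EuclideanSpace.norm_sq_eq] at h2
    simpa [Fin.sum_univ_two] using h2
  refine ⟨g 0 0, g 0 1, L !₂[1, 0] 0, L !₂[1, 0] 1, L !₂[0, 1] 0, L !₂[0, 1] 1, ?_, ?_, ?_, ?_, ?_⟩
  · intro x
    rw [hL x, hLx x]
    simp
    ring
  · intro x
    rw [hL x, hLx x]
    simp
    ring
  · have := hnorm !₂[1, 0]
    simpa using this
  · have := hnorm !₂[0, 1]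
    simpa using this
  · have h1 := hnorm !₂[1, 0]
    have h2 := hnorm !₂[0, 1]
    have h3 := hnorm !₂[1, 1]
    rw [hLx !₂[1, 1]] at h3
    simp at h1 h2 h3
    linarith

/-- section of a thin rhombus lying in the diamond `|x|+|y| ≤ c/2` along its horizontal diagonal -/
theorem ps_section (a w c X0 : ℝ) (ha : 0 < a) (hw : 0 < w) (hwa : w ≤ a) (hc1 : a ≤ c)
    (hc2 : c ≤ 1.01 * a) (hX0 : 0 < X0) (hX : X0 ^ 2 ≤ a ^ 2 - (c ^ 2 - a ^ 2) ^ 2 / (2 * a ^ 2))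
    (g : EuclideanSpace ℝ (Fin 2) → EuclideanSpace ℝ (Fin 2)) (hg : Isometry g)
    (hin : ∀ x : EuclideanSpace ℝ (Fin 2), |x 0| * (2 / a) + |x 1| * (2 / w) ≤ 1 →
      |g x 0| + |g x 1| ≤ c / 2)
    (htype : |g !₂[-a / 2, 0] 1 - g !₂[a / 2, 0] 1| ≤ |g !₂[-a / 2, 0] 0 - g !₂[a / 2, 0] 0|) :
    let I : Set ℝ := {y : ℝ | ∃ x : EuclideanSpace ℝ (Fin 2),
      |x 0| * (2 / a) + |x 1| * (2 / w) ≤ 1 ∧ g x = !₂[0, y]}
    MeasurableSet I ∧ ENNReal.ofReal (w * (1 - (c - X0) / X0) / (1 + w / a)) ≤ volume I ∧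
      I ⊆ Icc (-(c * (c - X0) / (2 * X0) + w)) (c * (c - X0) / (2 * X0) + w) := by
  intro I
  obtain ⟨G0, G1, e0, e1, n0, n1, hg0, hg1, h1, h2, h3⟩ := ps_affine g hg
  have hP := hin !₂[-a / 2, 0] (by
    simp only [PiLp.toLp_apply, Matrix.cons_val_zero, Matrix.cons_val_one, abs_zero, zero_mul, add_zero]
    rw [abs_of_neg (by linarith : -a / 2 < 0)]
    apply le_of_eq; field_simp)
  have hQ := hin !₂[a / 2, 0] (by
    simp only [PiLp.toLp_apply, Matrix.cons_val_zero, Matrix.cons_val_one, abs_zero, zero_mul, add_zero]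
    rw [abs_of_pos (by linarith : 0 < a / 2)]
    apply le_of_eq; field_simp)
  rw [hg0, hg1] at hP hQ
  rw [hg0, hg1, hg0, hg1] at htype
  simp only [PiLp.toLp_apply, Matrix.cons_val_zero, Matrix.cons_val_one, zero_mul, add_zero] at hP hQ htype
  have hle : |e1| ≤ |e0| := by
    rw [show G1 + -a / 2 * e1 - (G1 + a / 2 * e1) = -(a * e1) by ring,
      show G0 + -a / 2 * e0 - (G0 + a / 2 * e0) = -(a * e0) by ring, abs_neg, abs_neg, abs_mul,
      abs_mul, abs_of_pos ha] at htype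
    exact le_of_mul_le_mul_left htype ha
  obtain ⟨u0, k1, k2, k3, k4⟩ := ps_core a w c X0 G0 G1 e0 e1 ha hc1 hc2 hX0 hX h1 hle
    (by rw [show G0 - a / 2 * e0 = G0 + -a / 2 * e0 by ring,
          show G1 - a / 2 * e1 = G1 + -a / 2 * e1 by ring]; exact hP) hQ
  obtain ⟨y0, hy0⟩ : ∃ y0, y0 = G1 + u0 * e1 := ⟨_, rfl⟩
  rw [← hy0] at k3
  obtain ⟨δ, hδ⟩ : ∃ δ, δ = e0 * n1 - e1 * n0 := ⟨_, rfl⟩
  have hn1 : n1 = δ * e0 := by rw [hδ]; linear_combination (-n1) * h1 + e1 * h3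
  have hn0 : n0 = -(δ * e1) := by rw [hδ]; linear_combination (-n0) * h1 + e0 * h3
  have hδ2 : δ ^ 2 = 1 := by
    rw [hδ]; linear_combination (n0 ^ 2 + n1 ^ 2) * h1 + h2 - (e0 * n0 + e1 * n1) * h3
  have r2 : e1 ^ 2 + n1 ^ 2 = 1 := by rw [hn1]; linear_combination e0 ^ 2 * hδ2 + h1
  have r3 : e0 * e1 + n0 * n1 = 0 := by rw [hn1, hn0]; linear_combination (-(e0 * e1)) * hδ2
  have habsδ : |δ| = 1 := by
    have : (δ - 1) * (δ + 1) = 0 := by linear_combination hδ2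
    rcases mul_eq_zero.mp this with h | h
    · rw [show δ = 1 by linarith]; simp
    · rw [show δ = -1 by linarith]; simp
  have habsn1 : 1 / 2 ≤ |n1| := by rw [hn1, abs_mul, habsδ, one_mul]; exact k4
  have hn1le : |n1| ≤ 1 := by
    rw [← sq_le_one_iff_abs_le_one]; linarith [sq_nonneg e1]
  have he1le : |e1| ≤ 1 := by
    rw [← sq_le_one_iff_abs_le_one]; linarith [sq_nonneg e0]
  have hmem : ∀ y, y ∈ I ↔ |u0 + (y - y0) * e1| * (2 / a) + |(y - y0) * n1| * (2 / w) ≤ 1 := by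
    intro y
    constructor
    · rintro ⟨x, hx1, hx2⟩
      have q0 := hg0 x
      have q1 := hg1 x
      rw [hx2] at q0 q1
      simp only [PiLp.toLp_apply, Matrix.cons_val_zero, Matrix.cons_val_one] at q0 q1
      have s0 : x 0 = u0 + (y - y0) * e1 := by
        rw [hy0]
        linear_combination (-e0) * q0 - e1 * q1 - e0 * k1 + (-(x 0) + u0) * h1 - x 1 * h3
      have s1 : x 1 = (y - y0) * n1 := by
        rw [hy0]
        linear_combination (-n0) * q0 - n1 * q1 - n0 * k1 - x 1 * h2 + (-(x 0) + u0) * h3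
      rw [s0, s1] at hx1
      exact hx1
    · intro h
      refine ⟨!₂[u0 + (y - y0) * e1, (y - y0) * n1], ?_, ?_⟩
      · simpa using h
      · ext i
        fin_cases i
        · show g _ 0 = _
          rw [hg0]
          simp only [PiLp.toLp_apply, Matrix.cons_val_zero, Matrix.cons_val_one]
          show _ = (0 : ℝ)
          linear_combination k1 + (y - y0) * r3
        · show g _ 1 = _
          rw [hg1]
          simp only [PiLp.toLp_apply, Matrix.cons_val_zero, Matrix.cons_val_one]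
          show _ = y
          linear_combination (y - y0) * r2 - hy0
  refine ⟨?_, ?_, ?_⟩
  · have hI : I = {y | |u0 + (y - y0) * e1| * (2 / a) + |(y - y0) * n1| * (2 / w) ≤ 1} := by
      ext y; exact hmem y
    rw [hI]
    apply IsClosed.measurableSet
    apply isClosed_le <;> fun_prop
  · obtain ⟨ρ, hρ⟩ : ∃ ρ, ρ = (c - X0) / X0 := ⟨_, rfl⟩
    rw [← hρ] at k2 ⊢
    obtain ⟨τ, hτ⟩ : ∃ τ, τ = (1 - ρ) * w / (2 * (1 + w / a)) := ⟨_, rfl⟩
    have hpos : 0 < 1 + w / a := by positivity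
    have hsub : Icc (y0 - τ) (y0 + τ) ⊆ I := by
      intro y hy
      rw [hmem]
      have hyt : |y - y0| ≤ τ := by rw [abs_le]; constructor <;> linarith [hy.1, hy.2]
      have b1 : |u0 + (y - y0) * e1| ≤ |u0| + τ := by
        refine (abs_add_le _ _).trans ?_
        rw [abs_mul]
        have : |y - y0| * |e1| ≤ |y - y0| * 1 := mul_le_mul_of_nonneg_left he1le (abs_nonneg _)
        linarith
      have b2 : |(y - y0) * n1| ≤ τ := by
        rw [abs_mul]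
        have : |y - y0| * |n1| ≤ |y - y0| * 1 := mul_le_mul_of_nonneg_left hn1le (abs_nonneg _)
        linarith
      have b3 : τ * (2 / a) + τ * (2 / w) = 1 - ρ := by
        rw [hτ]; field_simp; ring
      have b4 : |u0 + (y - y0) * e1| * (2 / a) ≤ (|u0| + τ) * (2 / a) :=
        mul_le_mul_of_nonneg_right b1 (by positivity)
      have b5 : |(y - y0) * n1| * (2 / w) ≤ τ * (2 / w) :=
        mul_le_mul_of_nonneg_right b2 (by positivity)
      linarith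
    calc ENNReal.ofReal (w * (1 - ρ) / (1 + w / a)) = volume (Icc (y0 - τ) (y0 + τ)) := by
          rw [Real.volume_Icc]
          congr 1
          rw [hτ]; field_simp; ring
      _ ≤ volume I := measure_mono hsub
  · intro y hy
    rw [hmem] at hy
    have hb : |(y - y0) * n1| * (2 / w) ≤ 1 := by
      have : 0 ≤ |u0 + (y - y0) * e1| * (2 / a) := by positivity
      linarith
    have hb2 : |(y - y0) * n1| ≤ w / 2 := by
      have := mul_le_mul_of_nonneg_right hb (show 0 ≤ w / 2 by positivity)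
      have e : |(y - y0) * n1| * (2 / w) * (w / 2) = |(y - y0) * n1| := by field_simp
      rw [e] at this
      linarith
    rw [abs_mul] at hb2
    have hb3 : |y - y0| ≤ w := by
      have : |y - y0| * (1 / 2) ≤ |y - y0| * |n1| := mul_le_mul_of_nonneg_left habsn1 (abs_nonneg _)
      linarith
    rw [abs_le] at hb3 k3
    constructor <;> linarith [hb3.1, hb3.2, k3.1, k3.2]

lemma ps_cross_aux1 (a c p0 p1 q0 q1 : ℝ) (ha : 0 < a) (hc2 : c ≤ 1.01 * a)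
    (hP : |p0| + |p1| ≤ c / 2) (hQ : |q0| + |q1| ≤ c / 2)
    (hd : (p0 - q0) ^ 2 + (p1 - q1) ^ 2 = a ^ 2) (h1 : |p1 - q1| ≤ |p0 - q0|) :
    ((p0 ≤ -(0.485 * a) ∧ 0.485 * a ≤ q0) ∨ (q0 ≤ -(0.485 * a) ∧ 0.485 * a ≤ p0)) ∧
      |p1| ≤ 0.02 * a ∧ |q1| ≤ 0.02 * a ∧ |p0| ≤ 0.505 * a ∧ |q0| ≤ 0.505 * a := by
  have hX : |p0 - q0| ≤ |p0| + |q0| := by
    rw [abs_le]
    constructor <;> linarith [neg_abs_le p0, neg_abs_le q0, le_abs_self p0, le_abs_self q0]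
  have hY : |p1 - q1| ≤ |p1| + |q1| := by
    rw [abs_le]
    constructor <;> linarith [neg_abs_le p1, neg_abs_le q1, le_abs_self p1, le_abs_self q1]
  have hX0 := abs_nonneg (p0 - q0)
  have hY0 := abs_nonneg (p1 - q1)
  rw [← sq_abs (p0 - q0), ← sq_abs (p1 - q1)] at hd
  have hX99 : 0.99 * a ≤ |p0 - q0| := by
    generalize |p0 - q0| = X at *
    generalize |p1 - q1| = Y at *
    have h3 : X + Y ≤ 1.01 * a := by linarith
    have h4 : (X + Y) ^ 2 ≤ (1.01 * a) ^ 2 := pow_le_pow_left₀ (by linarith) h3 2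
    have h5 : 2 * (X * Y) ≤ 0.0201 * a ^ 2 := by nlinarith
    have h6 : a ^ 2 ≤ 2 * X ^ 2 := by nlinarith
    by_contra hcon
    push Not at hcon
    have h7 : X ^ 2 ≤ (0.99 * a) ^ 2 := pow_le_pow_left₀ hX0 hcon.le 2
    have h8 : 0.0199 * a ^ 2 ≤ Y ^ 2 := by nlinarith
    have h9 : 0.7 * a ≤ X := by
      by_contra h10
      push Not at h10
      nlinarith [pow_le_pow_left₀ hX0 h10.le 2]
    have h10 : 0.14 * a ≤ Y := by
      by_contra h10
      push Not at h10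
      nlinarith [pow_le_pow_left₀ hY0 h10.le 2, mul_pos ha ha]
    have h11 : (0.7 * a) * (0.14 * a) ≤ X * Y := mul_le_mul h9 h10 (by positivity) hX0
    nlinarith [mul_pos ha ha]
  have hp0 : |p0| ≤ 0.505 * a := by linarith [abs_nonneg p1]
  have hq0 : |q0| ≤ 0.505 * a := by linarith [abs_nonneg q1]
  have hp0' := abs_le.1 hp0
  have hq0' := abs_le.1 hq0
  refine ⟨?_, by linarith, by linarith, hp0, hq0⟩
  rcases abs_cases (p0 - q0) with ⟨h3, _⟩ | ⟨h3, _⟩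
  · right
    constructor <;> linarith
  · left
    constructor <;> linarith

lemma ps_cross_aux2 (a A B C E : ℝ) (ha : 0 < a) (hA : 0.465 * a ≤ A) (hB : 0.97 * a ≤ B)
    (hC : |C| ≤ 0.525 * a) (hE : |E| ≤ 0.04 * a) : 0 < A * B - C * E := by
  have h1 : (0.465 * a) * (0.97 * a) ≤ A * B := mul_le_mul hA hB (by positivity) (by linarith)
  have h2 : |C * E| ≤ (0.525 * a) * (0.04 * a) := by
    rw [abs_mul]
    exact mul_le_mul hC hE (abs_nonneg _) (by positivity)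
  have h3 := (abs_le.1 h2).2
  nlinarith [mul_pos ha ha]

lemma ps_cross_sol (p0 p1 q0 q1 r0 r1 s0 s1 : ℝ)
    (hD : 0 < (q0 - p0) * (s1 - r1) - (q1 - p1) * (s0 - r0))
    (ht0 : 0 < (r0 - p0) * (s1 - r1) - (r1 - p1) * (s0 - r0))
    (ht1 : 0 < (q0 - r0) * (s1 - r1) - (q1 - r1) * (s0 - r0))
    (hs0 : 0 < (p1 - r1) * (q0 - p0) - (p0 - r0) * (q1 - p1))
    (hs1 : 0 < (s1 - p1) * (q0 - p0) - (s0 - p0) * (q1 - p1)) :
    ∃ t s : ℝ, 0 ≤ t ∧ t ≤ 1 ∧ 0 ≤ s ∧ s ≤ 1 ∧ (1 - s) * r0 + s * s0 = (1 - t) * p0 + t * q0 ∧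
      (1 - s) * r1 + s * s1 = (1 - t) * p1 + t * q1 := by
  refine ⟨((r0 - p0) * (s1 - r1) - (r1 - p1) * (s0 - r0)) /
      ((q0 - p0) * (s1 - r1) - (q1 - p1) * (s0 - r0)),
    ((p1 - r1) * (q0 - p0) - (p0 - r0) * (q1 - p1)) /
      ((q0 - p0) * (s1 - r1) - (q1 - p1) * (s0 - r0)), (div_pos ht0 hD).le, ?_,
      (div_pos hs0 hD).le, ?_, ?_, ?_⟩
  · rw [div_le_one hD]; linarith
  · rw [div_le_one hD]; linarith
  · have hD' := hD.ne'
    field_simp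
    ring
  · have hD' := hD.ne'
    field_simp
    ring

lemma ps_cross_aux3 (a : ℝ) (ha : 0 < a) (P Q R S : EuclideanSpace ℝ (Fin 2))
    (hP0 : P 0 ≤ -(0.485 * a)) (hQ0 : 0.485 * a ≤ Q 0) (hP1 : |P 1| ≤ 0.02 * a)
    (hQ1 : |Q 1| ≤ 0.02 * a) (hP0' : |P 0| ≤ 0.505 * a) (hQ0' : |Q 0| ≤ 0.505 * a)
    (hR1 : R 1 ≤ -(0.485 * a)) (hS1 : 0.485 * a ≤ S 1) (hR0 : |R 0| ≤ 0.02 * a)
    (hS0 : |S 0| ≤ 0.02 * a) (hR1' : |R 1| ≤ 0.505 * a) (hS1' : |S 1| ≤ 0.505 * a) :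
    ∃ z, z ∈ segment ℝ P Q ∧ z ∈ segment ℝ R S := by
  have hP1a := abs_le.1 hP1
  have hQ1a := abs_le.1 hQ1
  have hP0a := abs_le.1 hP0'
  have hQ0a := abs_le.1 hQ0'
  have hR0a := abs_le.1 hR0
  have hS0a := abs_le.1 hS0
  have hR1a := abs_le.1 hR1'
  have hS1a := abs_le.1 hS1'
  have hD : 0 < (Q 0 - P 0) * (S 1 - R 1) - (Q 1 - P 1) * (S 0 - R 0) :=
    ps_cross_aux2 a _ _ _ _ ha (by linarith) (by linarith)
      (abs_le.2 ⟨by linarith, by linarith⟩) (abs_le.2 ⟨by linarith, by linarith⟩)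
  have ht0 : 0 < (R 0 - P 0) * (S 1 - R 1) - (R 1 - P 1) * (S 0 - R 0) :=
    ps_cross_aux2 a _ _ _ _ ha (by linarith) (by linarith)
      (abs_le.2 ⟨by linarith, by linarith⟩) (abs_le.2 ⟨by linarith, by linarith⟩)
  have ht1 : 0 < (Q 0 - R 0) * (S 1 - R 1) - (Q 1 - R 1) * (S 0 - R 0) :=
    ps_cross_aux2 a _ _ _ _ ha (by linarith) (by linarith)
      (abs_le.2 ⟨by linarith, by linarith⟩) (abs_le.2 ⟨by linarith, by linarith⟩)
  have hs0 : 0 < (P 1 - R 1) * (Q 0 - P 0) - (P 0 - R 0) * (Q 1 - P 1) :=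
    ps_cross_aux2 a _ _ _ _ ha (by linarith) (by linarith)
      (abs_le.2 ⟨by linarith, by linarith⟩) (abs_le.2 ⟨by linarith, by linarith⟩)
  have hs1 : 0 < (S 1 - P 1) * (Q 0 - P 0) - (S 0 - P 0) * (Q 1 - P 1) :=
    ps_cross_aux2 a _ _ _ _ ha (by linarith) (by linarith)
      (abs_le.2 ⟨by linarith, by linarith⟩) (abs_le.2 ⟨by linarith, by linarith⟩)
  obtain ⟨t, s, t0, t1, s0, s1, e0, e1⟩ := ps_cross_sol (P 0) (P 1) (Q 0) (Q 1) (R 0) (R 1)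
    (S 0) (S 1) hD ht0 ht1 hs0 hs1
  refine ⟨(1 - t) • P + t • Q, ⟨1 - t, t, by linarith, t0, by ring, rfl⟩,
    ⟨1 - s, s, by linarith, s0, by ring, ?_⟩⟩
  ext i
  fin_cases i
  · simpa using e0
  · simpa using e1

/-- a nearly horizontal and a nearly vertical long segment in the diamond `|x|+|y| ≤ c/2` meet -/
theorem ps_cross (a c : ℝ) (ha : 0 < a) (hc2 : c ≤ 1.01 * a)
    (P Q R S : EuclideanSpace ℝ (Fin 2))
    (hP : |P 0| + |P 1| ≤ c / 2) (hQ : |Q 0| + |Q 1| ≤ c / 2)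
    (hR : |R 0| + |R 1| ≤ c / 2) (hS : |S 0| + |S 1| ≤ c / 2)
    (hPQ : dist P Q = a) (hRS : dist R S = a)
    (h1 : |P 1 - Q 1| ≤ |P 0 - Q 0|) (h2 : |R 0 - S 0| ≤ |R 1 - S 1|) :
    ∃ z, z ∈ segment ℝ P Q ∧ z ∈ segment ℝ R S := by
  have hd : ∀ U V : EuclideanSpace ℝ (Fin 2), dist U V = a →
      (U 0 - V 0) ^ 2 + (U 1 - V 1) ^ 2 = a ^ 2 := by
    intro U V h
    rw [← h, EuclideanSpace.dist_eq, Real.sq_sqrt (Finset.sum_nonneg fun i _ => sq_nonneg _),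
      Fin.sum_univ_two, Real.dist_eq, Real.dist_eq, sq_abs, sq_abs]
  obtain ⟨hA, hP1, hQ1, hP0, hQ0⟩ := ps_cross_aux1 a c (P 0) (P 1) (Q 0) (Q 1) ha hc2 hP hQ
    (hd P Q hPQ) h1
  obtain ⟨hB, hR0, hS0, hR1, hS1⟩ := ps_cross_aux1 a c (R 1) (R 0) (S 1) (S 0) ha hc2
    (by linarith) (by linarith) (by linarith [hd R S hRS]) h2
  rcases hA with ⟨a1, a2⟩ | ⟨a1, a2⟩ <;> rcases hB with ⟨b1, b2⟩ | ⟨b1, b2⟩
  · exact ps_cross_aux3 a ha P Q R S a1 a2 hP1 hQ1 hP0 hQ0 b1 b2 hR0 hS0 hR1 hS1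
  · rw [segment_symm ℝ R S]
    exact ps_cross_aux3 a ha P Q S R a1 a2 hP1 hQ1 hP0 hQ0 b1 b2 hS0 hR0 hS1 hR1
  · rw [segment_symm ℝ P Q]
    exact ps_cross_aux3 a ha Q P R S a1 a2 hQ1 hP1 hQ0 hP0 b1 b2 hR0 hS0 hR1 hS1
  · rw [segment_symm ℝ P Q, segment_symm ℝ R S]
    exact ps_cross_aux3 a ha Q P S R a1 a2 hQ1 hP1 hQ0 hP0 b1 b2 hS0 hR0 hS1 hR1





/-- all of the same type -/
theorem ps_count (a w c X0 : ℝ) (ha : 0 < a) (hw : 0 < w) (hwa : w ≤ a) (hc1 : a ≤ c)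
    (hc2 : c ≤ 1.01 * a) (hX0 : 0 < X0) (hX : X0 ^ 2 ≤ a ^ 2 - (c ^ 2 - a ^ 2) ^ 2 / (2 * a ^ 2))
    (N : ℕ) (g : Fin N → EuclideanSpace ℝ (Fin 2) → EuclideanSpace ℝ (Fin 2))
    (hg : ∀ n, Isometry (g n))
    (hin : ∀ n, ∀ x : EuclideanSpace ℝ (Fin 2), |x 0| * (2 / a) + |x 1| * (2 / w) ≤ 1 →
      |g n x 0| + |g n x 1| ≤ c / 2)
    (hdisj : ∀ m n, m ≠ n → ∀ x y : EuclideanSpace ℝ (Fin 2),
      |x 0| * (2 / a) + |x 1| * (2 / w) ≤ 1 → |y 0| * (2 / a) + |y 1| * (2 / w) ≤ 1 →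
        g m x ≠ g n y)
    (htype : ∀ n, |g n !₂[-a / 2, 0] 1 - g n !₂[a / 2, 0] 1| ≤
      |g n !₂[-a / 2, 0] 0 - g n !₂[a / 2, 0] 0|) :
    N * (w * (1 - (c - X0) / X0) / (1 + w / a)) ≤ c * (c - X0) / X0 + 2 * w := by
  have hXa : X0 ≤ a := by
    have h1 : 0 ≤ (c ^ 2 - a ^ 2) ^ 2 / (2 * a ^ 2) := by positivity
    exact abs_le_of_sq_le_sq' (by linarith) ha.le |>.2
  have hL : 0 ≤ c * (c - X0) / (2 * X0) + w := by
    have : 0 ≤ c - X0 := by linarith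
    have : 0 < c := by linarith
    positivity
  set I : Fin N → Set ℝ := fun n => {y : ℝ | ∃ x : EuclideanSpace ℝ (Fin 2),
      |x 0| * (2 / a) + |x 1| * (2 / w) ≤ 1 ∧ g n x = !₂[0, y]} with hI
  have hsec : ∀ n, MeasurableSet (I n) ∧
      ENNReal.ofReal (w * (1 - (c - X0) / X0) / (1 + w / a)) ≤ volume (I n) ∧
      I n ⊆ Icc (-(c * (c - X0) / (2 * X0) + w)) (c * (c - X0) / (2 * X0) + w) := fun n =>
    ps_section a w c X0 ha hw hwa hc1 hc2 hX0 hX (g n) (hg n) (hin n) (htype n)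
  have hpd : Pairwise (Function.onFun Disjoint I) := by
    intro m n hmn
    show Disjoint (I m) (I n)
    rw [Set.disjoint_left]
    rintro y ⟨x, hx, hx2⟩ ⟨x', hx', hx2'⟩
    exact hdisj m n hmn x x' hx hx' (by rw [hx2, hx2'])
  have h1 : volume (⋃ n, I n) = ∑ n, volume (I n) := by
    rw [measure_iUnion hpd (fun n => (hsec n).1), tsum_fintype]
  have h2 : volume (⋃ n, I n) ≤ ENNReal.ofReal (2 * (c * (c - X0) / (2 * X0) + w)) := by
    calc volume (⋃ n, I n) ≤ volume (Icc (-(c * (c - X0) / (2 * X0) + w)) (c * (c - X0) / (2 * X0) + w)) :=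
          measure_mono (iUnion_subset fun n => (hsec n).2.2)
      _ = ENNReal.ofReal (2 * (c * (c - X0) / (2 * X0) + w)) := by
          rw [Real.volume_Icc]; congr 1; ring
  have h3 : ENNReal.ofReal (N * (w * (1 - (c - X0) / X0) / (1 + w / a))) ≤ ∑ n, volume (I n) := by
    rw [ENNReal.ofReal_mul (by positivity), ENNReal.ofReal_natCast]
    calc (N : ENNReal) * ENNReal.ofReal (w * (1 - (c - X0) / X0) / (1 + w / a))
        = ∑ _n : Fin N, ENNReal.ofReal (w * (1 - (c - X0) / X0) / (1 + w / a)) := by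
          rw [Finset.sum_const, Finset.card_univ, Fintype.card_fin, nsmul_eq_mul]
      _ ≤ ∑ n, volume (I n) := Finset.sum_le_sum fun n _ => (hsec n).2.1
  rw [← h1] at h3
  have h4 := (ENNReal.ofReal_le_ofReal_iff (by linarith)).1 (h3.trans h2)
  refine h4.trans (le_of_eq ?_)
  field_simp

/-- the swap of the two coordinates -/
noncomputable def ps_sw (x : EuclideanSpace ℝ (Fin 2)) : EuclideanSpace ℝ (Fin 2) := !₂[x 1, x 0]

theorem ps_sw0 (x : EuclideanSpace ℝ (Fin 2)) : ps_sw x 0 = x 1 := rfl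
theorem ps_sw1 (x : EuclideanSpace ℝ (Fin 2)) : ps_sw x 1 = x 0 := rfl

theorem ps_sw_isom : Isometry ps_sw := by
  apply Isometry.of_dist_eq
  intro x y
  rw [EuclideanSpace.dist_eq, EuclideanSpace.dist_eq, Fin.sum_univ_two, Fin.sum_univ_two, ps_sw0, ps_sw0,
    ps_sw1, ps_sw1, add_comm]

theorem ps_seg (a w : ℝ) (ha : 0 < a) (x : EuclideanSpace ℝ (Fin 2))
    (hx : x ∈ segment ℝ (!₂[-a / 2, 0] : EuclideanSpace ℝ (Fin 2)) !₂[a / 2, 0]) :
    |x 0| * (2 / a) + |x 1| * (2 / w) ≤ 1 := by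
  obtain ⟨α, β, hα, hβ, hαβ, rfl⟩ := hx
  have e0 : (α • (!₂[-a / 2, 0] : EuclideanSpace ℝ (Fin 2)) + β • !₂[a / 2, 0]) 0 = α * (-a / 2) + β * (a / 2) := by
    simp
  have e1 : (α • (!₂[-a / 2, 0] : EuclideanSpace ℝ (Fin 2)) + β • !₂[a / 2, 0]) 1 = 0 := by
    simp
  rw [e0, e1, abs_zero, zero_mul, add_zero]
  have h1 : |α * (-a / 2) + β * (a / 2)| ≤ a / 2 := by
    rw [abs_le]
    constructor
    · nlinarith [mul_nonneg hα ha.le, mul_nonneg hβ ha.le]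
    · nlinarith [mul_nonneg hα ha.le, mul_nonneg hβ ha.le]
  calc |α * (-a / 2) + β * (a / 2)| * (2 / a) ≤ a / 2 * (2 / a) := mul_le_mul_of_nonneg_right h1 (by positivity)
    _ = 1 := by field_simp

/-- `N` disjoint thin rhombi in the diamond -/
theorem ps_many (a w c X0 : ℝ) (ha : 0 < a) (hw : 0 < w) (hwa : w ≤ a) (hc1 : a ≤ c)
    (hc2 : c ≤ 1.01 * a) (hX0 : 0 < X0) (hX : X0 ^ 2 ≤ a ^ 2 - (c ^ 2 - a ^ 2) ^ 2 / (2 * a ^ 2))
    (N : ℕ) (g : Fin N → EuclideanSpace ℝ (Fin 2) → EuclideanSpace ℝ (Fin 2))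
    (hg : ∀ n, Isometry (g n))
    (hin : ∀ n, ∀ x : EuclideanSpace ℝ (Fin 2), |x 0| * (2 / a) + |x 1| * (2 / w) ≤ 1 →
      |g n x 0| + |g n x 1| ≤ c / 2)
    (hdisj : ∀ m n, m ≠ n → ∀ x y : EuclideanSpace ℝ (Fin 2),
      |x 0| * (2 / a) + |x 1| * (2 / w) ≤ 1 → |y 0| * (2 / a) + |y 1| * (2 / w) ≤ 1 →
        g m x ≠ g n y) :
    N * (w * (1 - (c - X0) / X0) / (1 + w / a)) ≤ c * (c - X0) / X0 + 2 * w := by
  by_cases hall : ∀ n, |g n !₂[-a / 2, 0] 1 - g n !₂[a / 2, 0] 1| ≤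
      |g n !₂[-a / 2, 0] 0 - g n !₂[a / 2, 0] 0|
  · exact ps_count a w c X0 ha hw hwa hc1 hc2 hX0 hX N g hg hin hdisj hall
  push Not at hall
  obtain ⟨n0, hn0⟩ := hall
  by_cases hex : ∃ n, |g n !₂[-a / 2, 0] 1 - g n !₂[a / 2, 0] 1| ≤
      |g n !₂[-a / 2, 0] 0 - g n !₂[a / 2, 0] 0|
  · exfalso
    obtain ⟨n1, hn1⟩ := hex
    have hne : n1 ≠ n0 := by
      rintro rfl
      exact absurd hn1 (not_le.2 hn0)
    have hA : (!₂[-a / 2, 0] : EuclideanSpace ℝ (Fin 2)) ∈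
        segment ℝ (!₂[-a / 2, 0] : EuclideanSpace ℝ (Fin 2)) !₂[a / 2, 0] := left_mem_segment _ _ _
    have hB : (!₂[a / 2, 0] : EuclideanSpace ℝ (Fin 2)) ∈
        segment ℝ (!₂[-a / 2, 0] : EuclideanSpace ℝ (Fin 2)) !₂[a / 2, 0] := right_mem_segment _ _ _
    have hd : dist (!₂[-a / 2, 0] : EuclideanSpace ℝ (Fin 2)) !₂[a / 2, 0] = a := by
      rw [EuclideanSpace.dist_eq, Fin.sum_univ_two]
      have e1 : dist ((!₂[-a / 2, 0] : EuclideanSpace ℝ (Fin 2)) 0) ((!₂[a / 2, 0] : EuclideanSpace ℝ (Fin 2)) 0) = a := by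
        rw [Real.dist_eq]
        simp
        rw [abs_of_neg (by linarith)]
        ring
      have e2 : dist ((!₂[-a / 2, 0] : EuclideanSpace ℝ (Fin 2)) 1) ((!₂[a / 2, 0] : EuclideanSpace ℝ (Fin 2)) 1) = 0 := by
        rw [Real.dist_eq]
        simp
      rw [e1, e2]
      rw [show a ^ 2 + 0 ^ 2 = a ^ 2 by ring, Real.sqrt_sq ha.le]
    obtain ⟨z, hz1, hz2⟩ := ps_cross a c ha hc2 (g n1 !₂[-a / 2, 0]) (g n1 !₂[a / 2, 0])
      (g n0 !₂[-a / 2, 0]) (g n0 !₂[a / 2, 0])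
      (hin n1 _ (ps_seg a w ha _ hA)) (hin n1 _ (ps_seg a w ha _ hB))
      (hin n0 _ (ps_seg a w ha _ hA)) (hin n0 _ (ps_seg a w ha _ hB))
      (by rw [(hg n1).dist_eq, hd]) (by rw [(hg n0).dist_eq, hd]) hn1 hn0.le
    have haff : ∀ n, g n '' segment ℝ (!₂[-a / 2, 0] : EuclideanSpace ℝ (Fin 2)) !₂[a / 2, 0] =
        segment ℝ (g n !₂[-a / 2, 0]) (g n !₂[a / 2, 0]) := by
      intro n
      have h := image_segment ℝ ((hg n).affineIsometryOfStrictConvexSpace.toAffineMap)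
        (!₂[-a / 2, 0] : EuclideanSpace ℝ (Fin 2)) !₂[a / 2, 0]
      exact h
    rw [← haff n1] at hz1
    rw [← haff n0] at hz2
    obtain ⟨x, hx, hx2⟩ := hz1
    obtain ⟨y, hy, hy2⟩ := hz2
    exact hdisj n1 n0 hne x y (ps_seg a w ha _ hx) (ps_seg a w ha _ hy) (by rw [hx2, hy2])
  · push Not at hex
    refine ps_count a w c X0 ha hw hwa hc1 hc2 hX0 hX N (fun n x => ps_sw (g n x))
      (fun n => ps_sw_isom.comp (hg n)) ?_ ?_ ?_
    · intro n x hx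
      rw [ps_sw0, ps_sw1, add_comm]
      exact hin n x hx
    · intro m n hmn x y hx hy h
      exact hdisj m n hmn x y hx hy (ps_sw_isom.injective h)
    · intro n
      rw [ps_sw0, ps_sw0, ps_sw1, ps_sw1]
      exact (hex n).le

theorem ps_X0 (a c : ℝ) (ha : 0 < a) (hc1 : a ≤ c) (hc2 : c ≤ 1.01 * a) :
    0 < a * (1 - 1.1 * ((c - a) / a) ^ 2) ∧
    (a * (1 - 1.1 * ((c - a) / a) ^ 2)) ^ 2 ≤ a ^ 2 - (c ^ 2 - a ^ 2) ^ 2 / (2 * a ^ 2) := by
  obtain ⟨g, hg⟩ : ∃ g, g = (c - a) / a := ⟨_, rfl⟩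
  have hc : c = a * (1 + g) := by rw [hg]; field_simp; ring
  have hg0 : 0 ≤ g := by rw [hg]; exact div_nonneg (by linarith) ha.le
  have hg1 : g ≤ 0.01 := by
    rw [hg, div_le_iff₀ ha]; linarith
  rw [← hg]
  have hgg : g ^ 2 ≤ 0.0001 := by nlinarith
  refine ⟨mul_pos ha (by linarith), ?_⟩
  have e1 : (c ^ 2 - a ^ 2) ^ 2 / (2 * a ^ 2) = a ^ 2 * ((2 * g + g ^ 2) ^ 2 / 2) := by
    rw [hc]; field_simp; ring
  rw [e1]
  have e2 : 0 ≤ 0.2 * g ^ 2 - 2 * g ^ 3 - 1.71 * g ^ 4 := by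
    have : 0.2 * g ^ 2 - 2 * g ^ 3 - 1.71 * g ^ 4 = g ^ 2 * (0.2 - 2 * g - 1.71 * g ^ 2) := by ring
    rw [this]
    exact mul_nonneg (sq_nonneg g) (by linarith)
  have e3 : a ^ 2 - a ^ 2 * ((2 * g + g ^ 2) ^ 2 / 2) - (a * (1 - 1.1 * g ^ 2)) ^ 2 =
      a ^ 2 * (0.2 * g ^ 2 - 2 * g ^ 3 - 1.71 * g ^ 4) := by ring
  have e4 := mul_nonneg (sq_nonneg a) e2
  linarith

theorem ps_alg (a b c X0 : ℝ) (ha : 0 < a) (hb : 0 < b) (hba : b ≤ a ^ 2 / 200) (hc1 : a ≤ c)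
    (hc2 : c < a + 2 * b / a - 13 * b ^ 2 / a ^ 3)
    (hX0 : X0 = a * (1 - 1.1 * ((c - a) / a) ^ 2))
    (hineq : 2 * b / a * (1 - (c - X0) / X0) ≤ c * (c - X0) / X0) : False := by
  obtain ⟨g, hg⟩ : ∃ g, g = (c - a) / a := ⟨_, rfl⟩
  obtain ⟨β, hβ⟩ : ∃ β, β = b / a ^ 2 := ⟨_, rfl⟩
  have hc : c = a * (1 + g) := by rw [hg]; field_simp; ring
  have hb' : b = β * a ^ 2 := by rw [hβ]; field_simp
  have hg0 : 0 ≤ g := by rw [hg]; exact div_nonneg (by linarith) ha.le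
  have hβ0 : 0 < β := by rw [hβ]; positivity
  have hβ1 : β ≤ 1 / 200 := by
    rw [hβ, div_le_iff₀ (by positivity)]; linarith
  have hg2 : g < 2 * β - 13 * β ^ 2 := by
    have e1 : a + 2 * b / a - 13 * b ^ 2 / a ^ 3 = a * (1 + (2 * β - 13 * β ^ 2)) := by
      rw [hb']; field_simp; ring
    rw [hc, e1] at hc2
    have := lt_of_mul_lt_mul_left hc2 ha.le
    linarith
  have hg3 : g ≤ 2 * β := by nlinarith
  have hgs : g ^ 2 ≤ 4 * β ^ 2 := by nlinarith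
  have hgc : g ^ 3 ≤ 8 * β ^ 3 := by
    have := pow_le_pow_left₀ hg0 hg3 3
    calc g ^ 3 ≤ (2 * β) ^ 3 := this
      _ = 8 * β ^ 3 := by ring
  have hβg : β * g ≤ 2 * β ^ 2 := by nlinarith
  have hβgs : β * g ^ 2 ≤ 4 * β ^ 3 := by
    have := mul_le_mul_of_nonneg_left hgs hβ0.le
    calc β * g ^ 2 ≤ β * (4 * β ^ 2) := this
      _ = 4 * β ^ 3 := by ring
  rw [← hg] at hX0
  have hgsmall : g ^ 2 ≤ 0.0001 := by nlinarith
  have hX0pos : 0 < X0 := by rw [hX0]; exact mul_pos ha (by linarith)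
  have h1 : 2 * b / a * (2 * X0 - c) ≤ c * (c - X0) := by
    have e1 : 2 * b / a * (1 - (c - X0) / X0) = (2 * b / a * (2 * X0 - c)) / X0 := by
      field_simp; ring
    rw [e1] at hineq
    exact (div_le_div_iff_of_pos_right hX0pos).1 hineq
  have h2 : a ^ 2 * (2 * β * (2 * (1 - 1.1 * g ^ 2) - (1 + g))) ≤
      a ^ 2 * ((1 + g) * ((1 + g) - (1 - 1.1 * g ^ 2))) := by
    have e1 : 2 * b / a * (2 * X0 - c) = a ^ 2 * (2 * β * (2 * (1 - 1.1 * g ^ 2) - (1 + g))) := by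
      rw [hX0, hc, hb']; field_simp
    have e2 : c * (c - X0) = a ^ 2 * ((1 + g) * ((1 + g) - (1 - 1.1 * g ^ 2))) := by
      rw [hX0, hc]; ring
    rw [e1, e2] at h1
    exact h1
  have h3 : 2 * β * (2 * (1 - 1.1 * g ^ 2) - (1 + g)) ≤ (1 + g) * ((1 + g) - (1 - 1.1 * g ^ 2)) :=
    le_of_mul_le_mul_left h2 (by positivity)
  have h4 : 2 * β ≤ g + 2.1 * g ^ 2 + 1.1 * g ^ 3 + 2 * (β * g) + 4.4 * (β * g ^ 2) := by
    nlinarith [h3]
  have h5 : β ^ 3 ≤ β ^ 2 / 200 := by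
    have := mul_le_mul_of_nonneg_left hβ1 (sq_nonneg β)
    calc β ^ 3 = β ^ 2 * β := by ring
      _ ≤ β ^ 2 * (1 / 200) := this
      _ = β ^ 2 / 200 := by ring
  have h6 : 0 < β ^ 2 := by positivity
  nlinarith


end Pool.Agent.Helper839.PS
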