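import Mathlib

set_option linter.all false

open MeasureTheory Set

namespace Pool.Agent.Helper839.PS

theorem ps_le {a b : ℝ} (h : a ^ 2 ≤ b ^ 2) (hb : 0 ≤ b) : a ≤ b :=
  le_of_abs_le (abs_le_of_sq_le_sq h hb)

theorem ps_F (a b t x y : ℝ) (ha : 0 < a) (hb : 0 ≤ b) (ht : 0 < t) (hab : a ^ 2 = b ^ 2 + t ^ 2)
    (hx : t / a ≤ x) (hxy : x ≤ y) (hy : y < 1) :
    t * y + b * Real.sqrt (1 - y ^ 2) ≤ t * x + b * Real.sqrt (1 - x ^ 2) := by
  have hx0 : 0 < x := lt_of_lt_of_le (by positivity) hx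
  have hax : t ≤ a * x := by rw [div_le_iff₀ ha] at hx; linarith
  have hay : t ≤ a * y := hax.trans (mul_le_mul_of_nonneg_left hxy ha.le)
  have hy0 : 0 < y := lt_of_lt_of_le hx0 hxy
  have hc2 : Real.sqrt (1 - x ^ 2) ^ 2 = 1 - x ^ 2 := Real.sq_sqrt (by nlinarith)
  have hd2 : Real.sqrt (1 - y ^ 2) ^ 2 = 1 - y ^ 2 := Real.sq_sqrt (by nlinarith)
  have hc : 0 < Real.sqrt (1 - x ^ 2) := Real.sqrt_pos.2 (by nlinarith)
  have hd : 0 < Real.sqrt (1 - y ^ 2) := Real.sqrt_pos.2 (by nlinarith)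
  generalize Real.sqrt (1 - x ^ 2) = c at *
  generalize Real.sqrt (1 - y ^ 2) = d at *
  have h1 : t * c ≤ b * x := by
    apply ps_le
    · have e : (t * c) ^ 2 = t ^ 2 * (1 - x ^ 2) := by rw [mul_pow, hc2]
      have e2 : (b * x) ^ 2 = (a ^ 2 - t ^ 2) * x ^ 2 := by rw [mul_pow, hab]; ring
      rw [e, e2]
      have : t ^ 2 ≤ (a * x) ^ 2 := by
        apply pow_le_pow_left₀ ht.le hax
      nlinarith
    · positivity
  have h2 : t * d ≤ b * y := by
    apply ps_le
    · have e : (t * d) ^ 2 = t ^ 2 * (1 - y ^ 2) := by rw [mul_pow, hd2]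
      have e2 : (b * y) ^ 2 = (a ^ 2 - t ^ 2) * y ^ 2 := by rw [mul_pow, hab]; ring
      rw [e, e2]
      have : t ^ 2 ≤ (a * y) ^ 2 := by
        apply pow_le_pow_left₀ ht.le hay
      nlinarith
    · positivity
  have h3 : t * (y - x) * (c + d) ≤ b * (c - d) * (c + d) := by
    have e1 : b * (c - d) * (c + d) = b * (y - x) * (y + x) := by
      have : (c - d) * (c + d) = (y - x) * (y + x) := by nlinarith
      calc b * (c - d) * (c + d) = b * ((c - d) * (c + d)) := by ring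
        _ = b * ((y - x) * (y + x)) := by rw [this]
        _ = _ := by ring
    rw [e1]
    have h4 : t * (c + d) ≤ b * (y + x) := by linarith
    have h5 := mul_le_mul_of_nonneg_right h4 (by linarith : 0 ≤ y - x)
    linarith
  have h6 : t * (y - x) ≤ b * (c - d) := le_of_mul_le_mul_right h3 (by linarith)
  linarith

theorem ps_G (a b t y : ℝ) (ha : 0 < a) (hab : a ^ 2 = b ^ 2 + t ^ 2) (hy0 : 0 ≤ y) (hy : y < 1) :
    t * y + b * Real.sqrt (1 - y ^ 2) ≤ a := by
  have hd2 : Real.sqrt (1 - y ^ 2) ^ 2 = 1 - y ^ 2 := Real.sq_sqrt (by nlinarith)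
  generalize Real.sqrt (1 - y ^ 2) = d at *
  apply ps_le _ ha.le
  rw [hab]
  nlinarith [sq_nonneg (t * d - b * y)]

theorem ps_H (k : ℕ) (hk : 2 ≤ k) (a t : ℝ) (hta : t ^ 2 ≤ a ^ 2) :
    Real.sqrt k * (t * (1 / Real.sqrt k)
      + Real.sqrt (a ^ 2 - t ^ 2) * Real.sqrt (1 - (1 / Real.sqrt k) ^ 2))
      = t + Real.sqrt ((k - 1) * (a ^ 2 - t ^ 2)) := by
  have hk' : (2 : ℝ) ≤ k := by exact_mod_cast hk
  have hs : 0 < Real.sqrt k := Real.sqrt_pos.2 (by linarith)
  have hs2 : Real.sqrt k ^ 2 = k := Real.sq_sqrt (by linarith)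
  have e1 : Real.sqrt k * Real.sqrt (1 - (1 / Real.sqrt k) ^ 2) = Real.sqrt (k - 1) := by
    rw [← Real.sqrt_mul (by linarith : (0 : ℝ) ≤ k)]
    congr 1
    rw [div_pow, hs2]
    field_simp
  rw [Real.sqrt_mul (by linarith : (0 : ℝ) ≤ (k : ℝ) - 1), ← e1]
  field_simp

/-- a slab of a ball, moved by an isometry, inside a cube of side `s` -/
theorem ps_lower (k : ℕ) (hk : 2 ≤ k) (a t s : ℝ) (ha : 0 < a) (ht : 0 < t)
    (hta : t ≤ a / Real.sqrt k)
    (g : EuclideanSpace ℝ (Fin k) → EuclideanSpace ℝ (Fin k)) (hg : Isometry g) (i0 : Fin k)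
    (h : ∀ x : EuclideanSpace ℝ (Fin k), ‖x‖ ≤ a / 2 → |x i0| ≤ t / 2 →
      ∀ i, 0 ≤ g x i ∧ g x i ≤ s) :
    t + Real.sqrt ((k - 1) * (a ^ 2 - t ^ 2)) ≤ Real.sqrt k * s := by
  have hk' : (2 : ℝ) ≤ k := by exact_mod_cast hk
  have hs0 : 0 < Real.sqrt k := Real.sqrt_pos.2 (by linarith)
  have hs2 : Real.sqrt k ^ 2 = k := Real.sq_sqrt (by linarith)
  have hs1 : 1 < Real.sqrt k := by
    rw [Real.lt_sqrt (by norm_num)]; linarith
  obtain ⟨y, hy⟩ : ∃ y : ℝ, y = 1 / Real.sqrt k := ⟨_, rfl⟩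
  have hy0 : 0 < y := by rw [hy]; positivity
  have hy1 : y < 1 := by rw [hy, div_lt_one hs0]; exact hs1
  have hy2 : y ^ 2 = 1 / k := by rw [hy, div_pow, hs2, one_pow]
  have hay : t ≤ a * y := by rw [hy, mul_one_div]; exact hta
  have hta' : t ≤ a := hay.trans (by nlinarith)
  have hta2 : t ^ 2 ≤ a ^ 2 := pow_le_pow_left₀ ht.le hta' 2
  obtain ⟨b, hb⟩ : ∃ b : ℝ, b = Real.sqrt (a ^ 2 - t ^ 2) := ⟨_, rfl⟩
  have hb0 : 0 ≤ b := by rw [hb]; exact Real.sqrt_nonneg _
  have hb2 : b ^ 2 = a ^ 2 - t ^ 2 := by rw [hb]; exact Real.sq_sqrt (by linarith)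
  have hab : a ^ 2 = b ^ 2 + t ^ 2 := by linarith
  rw [← ps_H k hk a t hta2, ← hb, ← hy]
  apply mul_le_mul_of_nonneg_left _ hs0.le
  -- the isometry
  set G := hg.affineIsometryOfStrictConvexSpace with hG
  set A : EuclideanSpace ℝ (Fin k) ≃ₗᵢ[ℝ] EuclideanSpace ℝ (Fin k) :=
    G.linearIsometry.toLinearIsometryEquiv rfl with hA
  have hAg : ∀ p q, g p - g q = A (p - q) := by
    intro p q
    have := G.map_vsub p q
    rw [vsub_eq_sub, vsub_eq_sub] at this
    exact this.symm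
  set e0 : EuclideanSpace ℝ (Fin k) := EuclideanSpace.single i0 1 with he0
  have hne0 : ‖e0‖ = 1 := by rw [he0]; simp
  have hsum : ∑ i, ((A e0) i) ^ 2 = 1 := by
    have h1 : ‖A e0‖ ^ 2 = 1 := by rw [A.norm_map, hne0]; norm_num
    rw [EuclideanSpace.norm_sq_eq] at h1
    rw [← h1]
    apply Finset.sum_congr rfl
    intro i _
    rw [Real.norm_eq_abs, sq_abs]
  obtain ⟨i, hi⟩ : ∃ i, ((A e0) i) ^ 2 ≤ 1 / k := by
    by_contra hcon
    push Not at hcon
    have h1 : ∑ _i : Fin k, (1 / (k : ℝ)) < ∑ i, ((A e0) i) ^ 2 :=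
      Finset.sum_lt_sum_of_nonempty ⟨i0, Finset.mem_univ _⟩ (fun i _ => hcon i)
    rw [hsum, Finset.sum_const, Finset.card_univ, Fintype.card_fin, nsmul_eq_mul,
      mul_one_div_cancel (by linarith)] at h1
    exact lt_irrefl _ h1
  set f : EuclideanSpace ℝ (Fin k) := EuclideanSpace.single i 1 with hf
  set v : EuclideanSpace ℝ (Fin k) := A.symm f with hv
  have hAv : A v = f := A.apply_symm_apply f
  have hnv : ‖v‖ = 1 := by rw [hv, A.symm.norm_map, hf]; simp
  obtain ⟨v0, hv0⟩ : ∃ v0 : ℝ, v0 = (A e0) i := ⟨_, rfl⟩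
  have hinner : inner ℝ e0 v = v0 := by
    rw [← A.inner_map_map, hAv, hf, EuclideanSpace.inner_single_right, hv0]
    simp
  have hvi0 : v i0 = v0 := by
    rw [← hinner, he0, EuclideanSpace.inner_single_left]
    simp
  have hv02 : v0 ^ 2 ≤ y ^ 2 := by rw [hy2, hv0]; exact hi
  have hkey : ∀ α β : ℝ, α ^ 2 + 2 * (α * β * v0) + β ^ 2 ≤ (a / 2) ^ 2 → |α + β * v0| ≤ t / 2 →
      2 * (α * v0 + β) ≤ s := by
    intro α β h1 h2
    have hp1 : ‖α • e0 + β • v‖ ≤ a / 2 := by
      apply ps_le _ (by positivity)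
      rw [norm_add_sq_real, norm_smul, norm_smul, hne0, hnv, inner_smul_left, inner_smul_right,
        hinner]
      simp only [Real.norm_eq_abs, mul_one, sq_abs, conj_trivial]
      linarith
    have hp2 : |(α • e0 + β • v) i0| ≤ t / 2 := by
      have : (α • e0 + β • v) i0 = α + β * v0 := by
        simp [he0, hvi0]
      rw [this]; exact h2
    have q1 := (h _ hp1 hp2 i).2
    have q2 := (h (-(α • e0 + β • v)) (by rw [norm_neg]; exact hp1) (by
      have : (-(α • e0 + β • v)) i0 = -((α • e0 + β • v) i0) := rfl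
      rw [this, abs_neg]; exact hp2) i).1
    have q3 := congrArg (fun z : EuclideanSpace ℝ (Fin k) => z i)
      (hAg (α • e0 + β • v) (-(α • e0 + β • v)))
    have q4 : A ((α • e0 + β • v) - (-(α • e0 + β • v))) = (2 * α) • A e0 + (2 * β) • f := by
      have : (α • e0 + β • v) - (-(α • e0 + β • v)) = (2 * α) • e0 + (2 * β) • v := by
        rw [sub_neg_eq_add, mul_smul, mul_smul, two_smul, two_smul]
        abel
      rw [this, map_add, map_smul, map_smul, hAv]
    rw [q4] at q3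
    have q5 : ((2 * α) • A e0 + (2 * β) • f) i = 2 * α * v0 + 2 * β := by
      simp [hf, hv0]
    have q6 : (g (α • e0 + β • v) - g (-(α • e0 + β • v))) i
        = g (α • e0 + β • v) i - g (-(α • e0 + β • v)) i := rfl
    simp only [q5, q6] at q3
    linarith
  have habs : |v0| ≤ y := abs_le_of_sq_le_sq hv02 hy0.le
  by_cases hc : |v0| ≤ t / a
  · have h1 := hkey 0 (a / 2) (by simp) (by
      rw [zero_add, abs_mul, abs_of_pos (by positivity : 0 < a / 2)]
      rw [le_div_iff₀ ha] at hc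
      linarith)
    have h2 := ps_G a b t y ha hab hy0.le hy1
    linarith
  · push Not at hc
    have hF := ps_F a b t |v0| y ha hb0 ht hab hc.le habs hy1
    refine hF.trans ?_
    rw [sq_abs]
    have hv1 : v0 ^ 2 < 1 := lt_of_le_of_lt hv02 (by nlinarith)
    obtain ⟨c, hcdef⟩ : ∃ c : ℝ, c = Real.sqrt (1 - v0 ^ 2) := ⟨_, rfl⟩
    have hc0 : 0 < c := by rw [hcdef]; exact Real.sqrt_pos.2 (by linarith)
    have hc2 : c ^ 2 = 1 - v0 ^ 2 := by rw [hcdef]; exact Real.sq_sqrt (by linarith)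
    rw [← hcdef]
    obtain ⟨σ, hσ1, hσ2⟩ : ∃ σ : ℝ, σ ^ 2 = 1 ∧ σ * v0 = |v0| := by
      rcases le_total 0 v0 with h0 | h0
      · exact ⟨1, by norm_num, by rw [abs_of_nonneg h0, one_mul]⟩
      · exact ⟨-1, by norm_num, by rw [abs_of_nonpos h0]; ring⟩
    obtain ⟨β, hβ⟩ : ∃ β : ℝ, β = b / (2 * c) := ⟨_, rfl⟩
    have hβc : β * c = b / 2 := by rw [hβ]; field_simp
    have h1 := hkey (t * σ / 2 - β * v0) β (by
      have e1 : (t * σ / 2 - β * v0) ^ 2 + 2 * ((t * σ / 2 - β * v0) * β * v0) + β ^ 2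
          = t ^ 2 * σ ^ 2 / 4 + β ^ 2 * (1 - v0 ^ 2) := by ring
      rw [e1, ← hc2, hσ1, ← mul_pow, hβc]
      nlinarith) (by
      have e2 : t * σ / 2 - β * v0 + β * v0 = t / 2 * σ := by ring
      rw [e2, abs_mul, abs_of_pos (by positivity : 0 < t / 2)]
      have : |σ| = 1 := by
        rw [← sq_eq_sq₀ (abs_nonneg _) (by norm_num), sq_abs, hσ1]; norm_num
      rw [this, mul_one])
    have e3 : 2 * ((t * σ / 2 - β * v0) * v0 + β) = t * (σ * v0) + 2 * (β * (1 - v0 ^ 2)) := by ring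
    rw [e3, hσ2, ← hc2] at h1
    have e4 : 2 * (β * c ^ 2) = b * c := by
      calc 2 * (β * c ^ 2) = 2 * (β * c) * c := by ring
        _ = _ := by rw [hβc]; ring
    rw [e4] at h1
    exact h1

/-- the slab of a ball is a convex body of small volume -/
theorem ps_body (k : ℕ) (hk : 2 ≤ k) (a t : ℝ) (ha : 0 < a) (ht : 0 < t) (i0 : Fin k) :
    let K : Set (EuclideanSpace ℝ (Fin k)) := {x | ‖x‖ ≤ a / 2 ∧ |x i0| ≤ t / 2}
    IsCompact K ∧ Convex ℝ K ∧ (interior K).Nonempty ∧ Metric.diam K ≤ a ∧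
      volume K ≤ ENNReal.ofReal (t * a ^ (k - 1)) := by
  intro K
  have hKdef : ∀ x : EuclideanSpace ℝ (Fin k), x ∈ K ↔ ‖x‖ ≤ a / 2 ∧ |x i0| ≤ t / 2 :=
    fun x => Iff.rfl
  have hcoord : ∀ (x : EuclideanSpace ℝ (Fin k)) (i : Fin k), |x i| ≤ ‖x‖ := by
    intro x i
    have := PiLp.norm_apply_le x i
    rwa [Real.norm_eq_abs] at this
  have hcont : Continuous fun x : EuclideanSpace ℝ (Fin k) => |x i0| := by fun_prop
  refine ⟨?_, ?_, ?_, ?_, ?_⟩
  · have h1 : K = Metric.closedBall 0 (a / 2) ∩ {x | |x i0| ≤ t / 2} := by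
      ext x
      rw [hKdef, Set.mem_inter_iff, mem_closedBall_zero_iff]
      rfl
    rw [h1]
    exact (isCompact_closedBall _ _).inter_right (isClosed_le hcont continuous_const)
  · intro x hx y hy u v hu hv huv
    rw [hKdef] at hx hy ⊢
    constructor
    · calc ‖u • x + v • y‖ ≤ ‖u • x‖ + ‖v • y‖ := norm_add_le _ _
        _ = u * ‖x‖ + v * ‖y‖ := by
            rw [norm_smul, norm_smul, Real.norm_eq_abs, Real.norm_eq_abs, abs_of_nonneg hu,
              abs_of_nonneg hv]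
        _ ≤ u * (a / 2) + v * (a / 2) :=
            add_le_add (mul_le_mul_of_nonneg_left hx.1 hu) (mul_le_mul_of_nonneg_left hy.1 hv)
        _ = a / 2 := by rw [← add_mul, huv, one_mul]
    · have e : (u • x + v • y) i0 = u * x i0 + v * y i0 := by simp
      rw [e]
      calc |u * x i0 + v * y i0| ≤ |u * x i0| + |v * y i0| := abs_add_le _ _
        _ = u * |x i0| + v * |y i0| := by
            rw [abs_mul, abs_mul, abs_of_nonneg hu, abs_of_nonneg hv]
        _ ≤ u * (t / 2) + v * (t / 2) :=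
            add_le_add (mul_le_mul_of_nonneg_left hx.2 hu) (mul_le_mul_of_nonneg_left hy.2 hv)
        _ = t / 2 := by rw [← add_mul, huv, one_mul]
  · refine ⟨0, ?_⟩
    have hsub : Metric.ball (0 : EuclideanSpace ℝ (Fin k)) (min (a / 2) (t / 2)) ⊆ K := by
      intro x hx
      rw [mem_ball_zero_iff] at hx
      rw [hKdef]
      exact ⟨hx.le.trans (min_le_left _ _), (hcoord x i0).trans (hx.le.trans (min_le_right _ _))⟩
    exact interior_maximal hsub Metric.isOpen_ball
      (Metric.mem_ball_self (lt_min (by positivity) (by positivity)))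
  · refine Metric.diam_le_of_forall_dist_le ha.le ?_
    intro x hx y hy
    rw [hKdef] at hx hy
    calc dist x y = ‖x - y‖ := dist_eq_norm _ _
      _ ≤ ‖x‖ + ‖y‖ := norm_sub_le _ _
      _ ≤ a / 2 + a / 2 := add_le_add hx.1 hy.1
      _ = a := by ring
  · set r : Fin k → ℝ := fun i => if i = i0 then t / 2 else a / 2 with hr
    have hsub : K ⊆ (@WithLp.ofLp 2 (Fin k → ℝ)) ⁻¹' (Set.Icc (fun i => - r i) r) := by
      intro x hx
      rw [hKdef] at hx
      refine ⟨fun i => ?_, fun i => ?_⟩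
      · by_cases h : i = i0
        · subst h
          have := (abs_le.1 hx.2).1
          simp only [hr, if_true]
          exact this
        · have := (abs_le.1 ((hcoord x i).trans hx.1)).1
          simp only [hr, if_neg h]
          exact this
      · by_cases h : i = i0
        · subst h
          have := (abs_le.1 hx.2).2
          simp only [hr, if_true]
          exact this
        · have := (abs_le.1 ((hcoord x i).trans hx.1)).2
          simp only [hr, if_neg h]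
          exact this
    refine (measure_mono hsub).trans ?_
    rw [(PiLp.volume_preserving_ofLp (Fin k)).measure_preimage
      measurableSet_Icc.nullMeasurableSet, Real.volume_Icc_pi]
    have h2 : ∀ i, ENNReal.ofReal (r i - - r i) = ENNReal.ofReal (if i = i0 then t else a) := by
      intro i
      congr 1
      simp only [hr]
      split_ifs <;> ring
    simp only [h2]
    rw [← ENNReal.ofReal_prod_of_nonneg (fun i _ => by split_ifs <;> positivity)]
    apply le_of_eq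
    congr 1
    rw [← Finset.mul_prod_erase _ _ (Finset.mem_univ i0), if_pos rfl,
      Finset.prod_congr rfl (fun i hi => if_neg (Finset.ne_of_mem_erase hi)),
      Finset.prod_const, Finset.card_erase_of_mem (Finset.mem_univ _), Finset.card_univ,
      Fintype.card_fin]


end Pool.Agent.Helper839.PS
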