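import Mathlib

set_option linter.all false

open MeasureTheory Set

namespace Pool.Agent.Helper839.PS

/-- layer packing of countably many boxes of small total volume, in all dimensions -/
theorem ps_packk (m : ℕ) : ∀ h : ℝ, 0 < h → ∃ V : ℝ, 0 < V ∧
    ∀ (P : Set ℕ) (s : ℕ → Fin (m + 1) → ℝ),
      (∀ n ∈ P, (∀ i, 0 < s n i ∧ s n i ≤ 1) ∧ Antitone (s n)) →
      (∀ F : Finset ℕ, (∀ n ∈ F, n ∈ P) → ∑ n ∈ F, ∏ i, s n i ≤ V) →
      ∃ x : ℕ → Fin (m + 1) → ℝ,
        (∀ n ∈ P, ∀ i, 0 ≤ x n i ∧ x n i + s n i ≤ 1 + h) ∧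
        (∀ n ∈ P, x n (Fin.last m) + s n (Fin.last m) ≤ h) ∧
        ∀ p ∈ P, ∀ q ∈ P, p ≠ q → ∃ i, x p i + s p i < x q i ∨ x q i + s q i < x p i := by
  classical
  induction m with
  | zero =>
    intro h hh
    refine ⟨h / 4, by linarith, ?_⟩
    intro P s hs hsum
    set a : ℕ → ℝ := fun n => s n 0 with ha
    have ha0 : ∀ n ∈ P, 0 < a n := fun n hn => ((hs n hn).1 0).1
    have hsum' : ∀ F : Finset ℕ, (∀ n ∈ F, n ∈ P) → ∑ n ∈ F, a n ≤ h / 4 := by
      intro F hF
      have := hsum F hF
      simpa [ha] using this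
    set X : ℕ → ℝ := fun n => 2 * ∑ k ∈ (Finset.range n).filter (fun k => k ∈ P), a k with hX
    have hX0 : ∀ n, 0 ≤ X n := by
      intro n
      have : 0 ≤ ∑ k ∈ (Finset.range n).filter (fun k => k ∈ P), a k :=
        Finset.sum_nonneg fun k hk => (ha0 k (Finset.mem_filter.1 hk).2).le
      simp only [hX]; linarith
    have hXs : ∀ n ∈ P, X (n + 1) = X n + 2 * a n := by
      intro n hn
      simp only [hX]
      rw [Finset.range_add_one, Finset.filter_insert, if_pos hn, Finset.sum_insert (by simp)]
      ring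
    have hXm : ∀ k n, k ≤ n → X k ≤ X n := by
      intro k n hkn
      have : ∑ k ∈ (Finset.range k).filter (fun k => k ∈ P), a k ≤
          ∑ k ∈ (Finset.range n).filter (fun k => k ∈ P), a k := by
        apply Finset.sum_le_sum_of_subset_of_nonneg
        · exact Finset.filter_subset_filter _ (Finset.range_mono hkn)
        · intro i hi _
          exact (ha0 i (Finset.mem_filter.1 hi).2).le
      simp only [hX]; linarith
    have hXt : ∀ n, X n ≤ h / 2 := by
      intro n
      have := hsum' ((Finset.range n).filter (fun k => k ∈ P))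
        (fun k hk => (Finset.mem_filter.1 hk).2)
      simp only [hX]; linarith
    have hb : ∀ n ∈ P, X n + a n ≤ h / 2 := by
      intro n hn
      have h1 := hXs n hn
      have h2 := hXt (n + 1)
      have h3 := ha0 n hn
      linarith
    have sep : ∀ p ∈ P, ∀ q, p < q → X p + a p < X q := by
      intro p hp q hpq
      have h1 := hXs p hp
      have h2 := hXm (p + 1) q hpq
      have h3 := ha0 p hp
      linarith
    refine ⟨fun n _ => X n, ?_, ?_, ?_⟩
    · intro n hn i
      have hi : i = 0 := by have h9 := i.isLt; ext; simp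
      subst hi
      exact ⟨hX0 n, by have := hb n hn; simp only [ha] at this; linarith⟩
    · intro n hn
      have := hb n hn
      have hl : (Fin.last 0 : Fin 1) = 0 := rfl
      rw [hl]
      simp only [ha] at this; linarith
    · intro p hp q hq hpq
      refine ⟨0, ?_⟩
      rcases lt_or_gt_of_ne hpq with h1 | h1
      · left; exact sep p hp q h1
      · right; exact sep q hq p h1
  | succ m IH =>
    intro h hh
    obtain ⟨V', hV', hIH⟩ := IH h hh
    set h0 : ℝ := h / 16 with hh0
    have hh0pos : 0 < h0 := by simp only [hh0]; linarith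
    set V : ℝ := min (h0 ^ (m + 2)) (h * V' / 16) with hV
    have hVpos : 0 < V := lt_min (by positivity) (by positivity)
    refine ⟨V, hVpos, ?_⟩
    intro P s hs hsum
    set τ : ℕ → ℝ := fun n => s n (Fin.last (m + 1)) with hτ
    set s' : ℕ → Fin (m + 1) → ℝ := fun n i => s n i.castSucc with hs'
    set A : ℕ → ℝ := fun n => ∏ i, s' n i with hA
    have hprod : ∀ n, ∏ i, s n i = A n * τ n := by
      intro n
      rw [Fin.prod_univ_castSucc]
    have hA0 : ∀ n ∈ P, 0 < A n := fun n hn => Finset.prod_pos fun i _ => ((hs n hn).1 _).1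
    have hτ0 : ∀ n ∈ P, 0 < τ n := fun n hn => ((hs n hn).1 _).1
    have hAτ : ∀ n ∈ P, τ n ^ (m + 1) ≤ A n := by
      intro n hn
      have : ∏ _i : Fin (m + 1), τ n ≤ ∏ i, s' n i := by
        apply Finset.prod_le_prod
        · intro i _; exact (hτ0 n hn).le
        · intro i _
          exact (hs n hn).2 (Fin.le_last _)
      simpa using this
    have hsum' : ∀ F : Finset ℕ, (∀ n ∈ F, n ∈ P) → ∑ n ∈ F, A n * τ n ≤ V := by
      intro F hF
      have h1 := hsum F hF
      rwa [Finset.sum_congr rfl fun n _ => hprod n] at h1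
    have hτh : ∀ n ∈ P, τ n ≤ h0 := by
      intro n hn
      have h1 := hsum' {n} (by simpa using hn)
      rw [Finset.sum_singleton] at h1
      have h2 : τ n ^ (m + 2) ≤ h0 ^ (m + 2) := by
        calc τ n ^ (m + 2) = τ n ^ (m + 1) * τ n := pow_succ _ _
          _ ≤ A n * τ n := mul_le_mul_of_nonneg_right (hAτ n hn) (hτ0 n hn).le
          _ ≤ V := h1
          _ ≤ _ := min_le_left _ _
      exact le_of_pow_le_pow_left₀ (by omega) hh0pos.le h2
    set H : ℕ → ℝ := fun j => h0 * (1 / 2) ^ j with hH
    have hpos : ∀ j, 0 < H j := fun j => by simp only [hH]; positivity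
    have hcl : ∀ n, ∃ j : ℕ, n ∈ P → H j < 2 * τ n ∧ τ n ≤ H j := by
      intro n
      by_cases hn : n ∈ P
      · obtain ⟨j, h1, h2⟩ := exists_nat_pow_near_of_lt_one (x := τ n / h0) (y := (1 / 2 : ℝ))
          (div_pos (hτ0 n hn) hh0pos) ((div_le_one hh0pos).2 (hτh n hn)) (by norm_num) (by norm_num)
        refine ⟨j, fun _ => ⟨?_, ?_⟩⟩
        · rw [lt_div_iff₀ hh0pos, pow_succ] at h1
          simp only [hH]
          linarith
        · rw [div_le_iff₀ hh0pos] at h2
          simp only [hH]
          linarith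
      · exact ⟨0, fun h => absurd h hn⟩
    choose jj hjj using hcl
    -- the class sums
    set f : ℕ → ℕ → ℝ := fun j l => if l ∈ P ∧ jj l = j then A l * τ l else 0 with hf
    set g : ℕ → ℝ := fun l => if l ∈ P then A l * τ l else 0 with hg
    have hf0 : ∀ j l, 0 ≤ f j l := by
      intro j l
      simp only [hf]
      split_ifs with h1
      · exact mul_nonneg (hA0 l h1.1).le (hτ0 l h1.1).le
      · exact le_rfl
    have hgS : ∀ F : Finset ℕ, ∑ l ∈ F, g l ≤ V := by
      intro F
      simp only [hg]
      rw [← Finset.sum_filter]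
      exact hsum' _ (fun n hn => (Finset.mem_filter.1 hn).2)
    have hfg : ∀ J l, ∑ i ∈ Finset.range J, f i l ≤ g l := by
      intro J l
      by_cases hl : l ∈ P
      · have h1 : ∀ i ∈ Finset.range J, f i l = if i = jj l then A l * τ l else 0 := by
          intro i _
          simp only [hf, hl, true_and]
          by_cases hi : jj l = i
          · rw [if_pos hi, if_pos hi.symm]
          · rw [if_neg hi, if_neg (fun h => hi h.symm)]
        rw [Finset.sum_congr rfl h1, Finset.sum_ite_eq']
        simp only [hg, hl, if_true]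
        split_ifs
        · exact le_rfl
        · exact mul_nonneg (hA0 l hl).le (hτ0 l hl).le
      · have h1 : ∀ i ∈ Finset.range J, f i l = 0 := by
          intro i _
          simp only [hf, hl, false_and, if_false]
        rw [Finset.sum_congr rfl h1]
        simp [hg, hl]
    have hfS : ∀ j, Summable (f j) := by
      intro j
      refine summable_of_sum_le (c := V) (hf0 j) (fun F => ?_)
      refine (Finset.sum_le_sum fun l _ => ?_).trans (hgS F)
      have h1 := hfg (j + 1) l
      rw [Finset.sum_range_succ] at h1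
      have h2 : 0 ≤ ∑ i ∈ Finset.range j, f i l := Finset.sum_nonneg fun i _ => hf0 i l
      linarith
    set Sj : ℕ → ℝ := fun j => ∑' l, f j l with hSj
    have hSj0 : ∀ j, 0 ≤ Sj j := fun j => tsum_nonneg (hf0 j)
    have hSjS : ∀ J, ∑ i ∈ Finset.range J, Sj i ≤ V := by
      intro J
      simp only [hSj]
      rw [← Summable.tsum_finsetSum (fun i _ => hfS i)]
      refine Summable.tsum_le_of_sum_le (summable_sum fun i _ => hfS i) (fun F => ?_)
      exact (Finset.sum_le_sum fun l _ => hfg J l).trans (hgS F)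
    -- positions on the line
    set T : ℕ → ℕ → ℝ := fun j n => ∑ l ∈ Finset.range n, if l ∈ P ∧ jj l = j then A l else 0 with hT
    have hTterm : ∀ j l, 0 ≤ (if l ∈ P ∧ jj l = j then A l else 0) := by
      intro j l
      split_ifs with h1
      · exact (hA0 l h1.1).le
      · exact le_rfl
    have hTmono : ∀ j k n, k ≤ n → T j k ≤ T j n := by
      intro j k n hkn
      exact Finset.sum_le_sum_of_subset_of_nonneg (Finset.range_mono hkn) fun l _ _ => hTterm j l
    have hTsucc : ∀ n ∈ P, T (jj n) (n + 1) = T (jj n) n + A n := by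
      intro n hn
      simp only [hT]
      rw [Finset.sum_range_succ, if_pos ⟨hn, rfl⟩]
    have hT0 : ∀ j n, 0 ≤ T j n := fun j n => Finset.sum_nonneg fun l _ => hTterm j l
    have hTb : ∀ j n, T j n * H j ≤ 2 * Sj j := by
      intro j n
      have h1 : T j n * H j ≤ 2 * ∑ l ∈ Finset.range n, f j l := by
        simp only [hT]
        rw [Finset.sum_mul, Finset.mul_sum]
        refine Finset.sum_le_sum fun l _ => ?_
        simp only [hf]
        split_ifs with h2
        · have h3 := (hjj l h2.1).1
          rw [h2.2] at h3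
          have h4 := hA0 l h2.1
          nlinarith
        · simp
      have h2 : ∑ l ∈ Finset.range n, f j l ≤ Sj j :=
        (hfS j).sum_le_tsum _ (fun l _ => hf0 j l)
      nlinarith
    set t : ℕ → ℝ := fun n => T (jj n) n with ht
    set q : ℕ → ℕ := fun n => ⌊t n / V'⌋₊ with hq
    have hq1 : ∀ n, (q n : ℝ) * V' ≤ t n := by
      intro n
      have h1 : (q n : ℝ) ≤ t n / V' := Nat.floor_le (div_nonneg (hT0 _ _) hV'.le)
      rwa [le_div_iff₀ hV'] at h1
    have hq2 : ∀ n, t n < ((q n : ℝ) + 1) * V' := by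
      intro n
      have h1 : t n / V' < (q n : ℝ) + 1 := Nat.lt_floor_add_one _
      rwa [div_lt_iff₀ hV'] at h1
    set β : ℕ → ℕ := fun n => if t n + A n ≤ ((q n : ℝ) + 1) * V' then 2 * q n else 2 * q n + 1 with hβ
    have hβle : ∀ n, (β n : ℝ) + 1 ≤ 2 * ((q n : ℝ) + 1) := by
      intro n
      have h1 : β n + 1 ≤ 2 * (q n + 1) := by
        simp only [hβ]
        split_ifs <;> omega
      exact_mod_cast h1
    set b : ℕ → ℝ := fun j => 2 * H j + 4 * Sj j / V' with hb
    have hb0 : ∀ j, 0 ≤ b j := by
      intro j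
      have h1 := hpos j
      have h2 := hSj0 j
      simp only [hb]
      positivity
    set Y : ℕ → ℝ := fun j => ∑ i ∈ Finset.range j, b i with hY
    have hYmono : ∀ i j, i ≤ j → Y i ≤ Y j := fun i j hij =>
      Finset.sum_le_sum_of_subset_of_nonneg (Finset.range_mono hij) fun l _ _ => hb0 l
    have hY0 : ∀ j, 0 ≤ Y j := fun j => Finset.sum_nonneg fun i _ => hb0 i
    have hYsucc : ∀ j, Y (j + 1) = Y j + b j := fun j => Finset.sum_range_succ _ _
    have hYtop : ∀ j, 2 * Y j ≤ h := by
      intro j
      have h1 : Y j = 2 * h0 * ∑ i ∈ Finset.range j, (1 / 2 : ℝ) ^ i +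
          4 / V' * ∑ i ∈ Finset.range j, Sj i := by
        simp only [hY, hb, hH]
        rw [Finset.sum_add_distrib, Finset.mul_sum, Finset.mul_sum]
        congr 1
        · exact Finset.sum_congr rfl fun i _ => by ring
        · exact Finset.sum_congr rfl fun i _ => by ring
      have h2 : ∑ i ∈ Finset.range j, (1 / 2 : ℝ) ^ i ≤ 2 := by
        rw [geom_sum_eq (by norm_num : (1 / 2 : ℝ) ≠ 1)]
        have : (0 : ℝ) < (1 / 2) ^ j := by positivity
        rw [div_le_iff_of_neg (by norm_num)]
        linarith
      have h3 := hSjS j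
      have h4 : 4 / V' * ∑ i ∈ Finset.range j, Sj i ≤ 4 / V' * (h * V' / 16) :=
        mul_le_mul_of_nonneg_left (h3.trans (min_le_right _ _)) (by positivity)
      have h5 : 4 / V' * (h * V' / 16) = h / 4 := by field_simp; norm_num
      have h6 : 2 * h0 * ∑ i ∈ Finset.range j, (1 / 2 : ℝ) ^ i ≤ 2 * h0 * 2 :=
        mul_le_mul_of_nonneg_left h2 (by linarith)
      rw [h1]
      simp only [hh0] at h6 ⊢
      linarith
    have hC : ∀ n ∈ P, ((β n : ℝ) + 1) * H (jj n) ≤ b (jj n) := by
      intro n hn
      have h1 : ((β n : ℝ) + 1) * H (jj n) ≤ 2 * ((q n : ℝ) + 1) * H (jj n) :=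
        mul_le_mul_of_nonneg_right (hβle n) (hpos _).le
      have h2 : (q n : ℝ) * V' * H (jj n) ≤ 2 * Sj (jj n) :=
        (mul_le_mul_of_nonneg_right (hq1 n) (hpos _).le).trans (hTb _ _)
      have h3 : (q n : ℝ) * H (jj n) * V' ≤ 2 * Sj (jj n) := by
        calc (q n : ℝ) * H (jj n) * V' = (q n : ℝ) * V' * H (jj n) := by ring
          _ ≤ _ := h2
      have h5 : (q n : ℝ) * H (jj n) ≤ 2 * Sj (jj n) / V' := (le_div_iff₀ hV').2 h3
      have h6 : 4 * Sj (jj n) / V' = 2 * (2 * Sj (jj n) / V') := by ring
      simp only [hb]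
      rw [h6]
      linarith
    set y : ℕ → ℝ := fun n => 2 * (Y (jj n) + β n * H (jj n)) with hy
    have hE : ∀ n ∈ P, y n + τ n < 2 * (Y (jj n) + ((β n : ℝ) + 1) * H (jj n)) := by
      intro n hn
      have h1 := (hjj n hn).2
      have h2 := hpos (jj n)
      simp only [hy]
      nlinarith
    have hEb : ∀ n ∈ P, y n + τ n < 2 * Y (jj n + 1) := by
      intro n hn
      refine (hE n hn).trans_le ?_
      rw [hYsucc]
      linarith [hC n hn]
    have hyY : ∀ n, 2 * Y (jj n) ≤ y n := by
      intro n
      have h2 := hpos (jj n)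
      have h3 : (0 : ℝ) ≤ β n * H (jj n) := by positivity
      simp only [hy]
      linarith
    -- the normal bins
    set N : ℕ → Prop := fun n => t n + A n ≤ ((q n : ℝ) + 1) * V' with hN
    have hbin : ∀ j k : ℕ, ∃ x : ℕ → Fin (m + 1) → ℝ,
        (∀ n ∈ {n | n ∈ P ∧ jj n = j ∧ N n ∧ q n = k}, ∀ i, 0 ≤ x n i ∧ x n i + s' n i ≤ 1 + h) ∧
        (∀ n ∈ {n | n ∈ P ∧ jj n = j ∧ N n ∧ q n = k},
          x n (Fin.last m) + s' n (Fin.last m) ≤ h) ∧
        ∀ p ∈ {n | n ∈ P ∧ jj n = j ∧ N n ∧ q n = k},
          ∀ r ∈ {n | n ∈ P ∧ jj n = j ∧ N n ∧ q n = k}, p ≠ r →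
          ∃ i, x p i + s' p i < x r i ∨ x r i + s' r i < x p i := by
      intro j k
      apply hIH
      · intro n hn
        refine ⟨fun i => (hs n hn.1).1 _, ?_⟩
        intro i i' hii
        exact (hs n hn.1).2 (Fin.castSucc_le_castSucc_iff.2 hii)
      · intro F hF
        rcases F.eq_empty_or_nonempty with hFe | hFne
        · subst hFe
          simpa using hV'.le
        · have hM := hF _ (F.max'_mem hFne)
          have hm := hF _ (F.min'_mem hFne)
          set M := F.max' hFne with hMdef
          set μ := F.min' hFne with hμdef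
          have h1 : ∑ n ∈ F, A n ≤ T j (M + 1) - T j μ := by
            have e1 : T j (M + 1) = T j μ +
                ∑ l ∈ Finset.Ico μ (M + 1), (if l ∈ P ∧ jj l = j then A l else 0) := by
              simp only [hT]
              rw [Finset.range_eq_Ico, Finset.range_eq_Ico]
              exact (Finset.sum_Ico_consecutive _ (Nat.zero_le _)
                ((F.min'_le _ (F.max'_mem hFne)).trans (Nat.le_succ _))).symm
            rw [e1, add_sub_cancel_left]
            have e2 : ∑ n ∈ F, A n = ∑ n ∈ F, (if n ∈ P ∧ jj n = j then A n else 0) := by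
              refine Finset.sum_congr rfl fun n hn => ?_
              have := hF n hn
              rw [if_pos ⟨this.1, this.2.1⟩]
            rw [e2]
            apply Finset.sum_le_sum_of_subset_of_nonneg
            · intro n hn
              rw [Finset.mem_Ico]
              exact ⟨F.min'_le _ hn, Nat.lt_succ_of_le (F.le_max' _ hn)⟩
            · intro i _ _
              exact hTterm j i
          have h2 : T j (M + 1) = t M + A M := by
            have := hTsucc M hM.1
            rw [hM.2.1] at this
            rw [this]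
            simp only [ht]
            rw [hM.2.1]
          have h3 : T j μ = t μ := by
            simp only [ht]
            rw [hm.2.1]
          have h4 : t M + A M ≤ ((k : ℝ) + 1) * V' := by
            have := hM.2.2.1
            simp only [hN] at this
            rwa [hM.2.2.2] at this
          have h5 : (k : ℝ) * V' ≤ t μ := by
            have := hq1 μ
            rwa [hm.2.2.2] at this
          calc ∑ n ∈ F, ∏ i, s' n i = ∑ n ∈ F, A n := rfl
            _ ≤ T j (M + 1) - T j μ := h1
            _ ≤ V' := by rw [h2, h3]; linarith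
    choose X hX1 hX2 hX3 using hbin
    set x' : ℕ → Fin (m + 1) → ℝ := fun n => if N n then X (jj n) (q n) n else 0 with hx'
    set x : ℕ → Fin (m + 2) → ℝ := fun n => Fin.snoc (α := fun _ => ℝ) (x' n) (y n) with hx
    have hxl : ∀ n, x n (Fin.last (m + 1)) = y n := by
      intro n
      simp only [hx]
      exact Fin.snoc_last _ _
    have hxc : ∀ n i, x n (Fin.castSucc i) = x' n i := by
      intro n i
      simp only [hx]
      exact Fin.snoc_castSucc (α := fun _ => ℝ) _ _ _
    have sep : ∀ p ∈ P, ∀ n ∈ P, p < n → ∃ i, x p i + s p i < x n i ∨ x n i + s n i < x p i := by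
      intro p hp n hn hpn
      rcases lt_trichotomy (jj p) (jj n) with hj | hj | hj
      · refine ⟨Fin.last _, Or.inl ?_⟩
        rw [hxl, hxl]
        refine (hEb p hp).trans_le (le_trans ?_ (hyY n))
        linarith [hYmono _ _ (Nat.succ_le_of_lt hj)]
      · have htmn : t p + A p ≤ t n := by
          have h1 := hTmono (jj n) (p + 1) n hpn
          rw [← hj, hTsucc p hp] at h1
          simp only [ht]
          rw [← hj]
          exact h1
        rcases lt_trichotomy (β p) (β n) with hβ' | hβ' | hβ'
        · refine ⟨Fin.last _, Or.inl ?_⟩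
          rw [hxl, hxl]
          refine (hE p hp).trans_le ?_
          simp only [hy]
          rw [← hj]
          have h1 : ((β p : ℝ) + 1) ≤ β n := by exact_mod_cast hβ'
          have h2 := mul_le_mul_of_nonneg_right h1 (hpos (jj p)).le
          linarith
        · by_cases c1 : t p + A p ≤ ((q p : ℝ) + 1) * V'
          · by_cases c2 : t n + A n ≤ ((q n : ℝ) + 1) * V'
            · have hqq : q p = q n := by
                simp only [hβ] at hβ'
                rw [if_pos c1, if_pos c2] at hβ'
                omega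
              have m1 : p ∈ {l | l ∈ P ∧ jj l = jj n ∧ N l ∧ q l = q n} := ⟨hp, hj, c1, hqq⟩
              have m2 : n ∈ {l | l ∈ P ∧ jj l = jj n ∧ N l ∧ q l = q n} := ⟨hn, rfl, c2, rfl⟩
              obtain ⟨i, hi⟩ := hX3 (jj n) (q n) p m1 n m2 (ne_of_lt hpn)
              refine ⟨i.castSucc, ?_⟩
              rw [hxc, hxc]
              have e1 : x' p = X (jj n) (q n) p := by
                simp only [hx']
                rw [if_pos (show N p from c1), hj, hqq]
              have e2 : x' n = X (jj n) (q n) n := by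
                simp only [hx']
                rw [if_pos (show N n from c2)]
              rw [e1, e2]
              exact hi
            · exfalso
              simp only [hβ] at hβ'
              rw [if_pos c1, if_neg c2] at hβ'
              omega
          · by_cases c2 : t n + A n ≤ ((q n : ℝ) + 1) * V'
            · exfalso
              simp only [hβ] at hβ'
              rw [if_neg c1, if_pos c2] at hβ'
              omega
            · exfalso
              have hqq : q p = q n := by
                simp only [hβ] at hβ'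
                rw [if_neg c1, if_neg c2] at hβ'
                omega
              push Not at c1
              rw [hqq] at c1
              have := hq2 n
              linarith
        · refine ⟨Fin.last _, Or.inr ?_⟩
          rw [hxl, hxl]
          refine (hE n hn).trans_le ?_
          simp only [hy]
          rw [← hj]
          have h1 : ((β n : ℝ) + 1) ≤ β p := by exact_mod_cast hβ'
          have h2 := mul_le_mul_of_nonneg_right h1 (hpos (jj p)).le
          linarith
      · refine ⟨Fin.last _, Or.inr ?_⟩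
        rw [hxl, hxl]
        refine (hEb n hn).trans_le (le_trans ?_ (hyY p))
        linarith [hYmono _ _ (Nat.succ_le_of_lt hj)]
    have hlast : ∀ n ∈ P, y n + τ n ≤ h := fun n hn => (hEb n hn).le.trans (hYtop _)
    refine ⟨x, ?_, ?_, ?_⟩
    · intro n hn i
      refine Fin.lastCases ?_ (fun i => ?_) i
      · rw [hxl]
        refine ⟨?_, ?_⟩
        · have h1 := hyY n
          have h2 := hY0 (jj n)
          linarith
        · have h1 := hlast n hn
          simp only [hτ] at h1
          linarith
      · rw [hxc]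
        by_cases c : N n
        · have e1 : x' n = X (jj n) (q n) n := by
            simp only [hx']
            rw [if_pos c]
          rw [e1]
          exact hX1 (jj n) (q n) n ⟨hn, rfl, c, rfl⟩ i
        · have e1 : x' n = 0 := by
            simp only [hx']
            rw [if_neg c]
          rw [e1]
          refine ⟨le_rfl, ?_⟩
          have h1 := ((hs n hn).1 i.castSucc).2
          have h2 : (0 : Fin (m + 1) → ℝ) i = 0 := rfl
          rw [h2]
          linarith
    · intro n hn
      rw [hxl]
      exact hlast n hn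
    · intro p hp r hr hpr
      rcases lt_or_gt_of_ne hpr with h1 | h1
      · exact sep p hp r hr h1
      · obtain ⟨i, hi⟩ := sep r hr p hp h1
        exact ⟨i, hi.symm⟩

theorem ps_greedy (k : ℕ) (D : Set (EuclideanSpace ℝ (Fin k))) (hc : IsCompact D)
    (h0 : (0 : EuclideanSpace ℝ (Fin k)) ∈ D)
    (hint : (interior D).Nonempty) (j : ℕ) (hj : j ≤ k) :
    ∃ e v : ℕ → EuclideanSpace ℝ (Fin k),
      (∀ i < j, ‖e i‖ = 1 ∧ v i ∈ D ∧ 0 < (inner ℝ (e i) (v i) : ℝ) ∧
        (∀ x ∈ D, |(inner ℝ (e i) x : ℝ)| ≤ inner ℝ (e i) (v i)) ∧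
        ∀ l < i, (inner ℝ (e i) (e l) : ℝ) = 0 ∧ (inner ℝ (e i) (v l) : ℝ) = 0) ∧
      ∀ i < j, v i ∈ Submodule.span ℝ (Set.range fun i : Fin j => e i) := by
  induction j with
  | zero => exact ⟨fun _ => 0, fun _ => 0, fun i hi => absurd hi (by omega), fun i hi => absurd hi (by omega)⟩
  | succ j ih =>
    obtain ⟨e, v, h1, h2⟩ := ih (by omega)
    obtain ⟨W, hW⟩ : ∃ W : Submodule ℝ (EuclideanSpace ℝ (Fin k)),
      W = Submodule.span ℝ (Set.range fun i : Fin j => e i) := ⟨_, rfl⟩
    rw [← hW] at h2
    have hWt : W ≠ ⊤ := by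
      intro h
      have h3 : Module.finrank ℝ W ≤ j := by
        rw [hW]
        have h4 := finrank_range_le_card (R := ℝ) (fun i : Fin j => e i)
        rw [Fintype.card_fin] at h4
        exact h4
      rw [h, finrank_top, finrank_euclideanSpace_fin] at h3
      omega
    have hDW : ∃ x ∈ D, x ∉ W := by
      by_contra hcon
      push Not at hcon
      apply hWt
      apply Submodule.eq_top_of_nonempty_interior'
      exact hint.mono (interior_mono hcon)
    obtain ⟨x0, hx0, hx0W⟩ := hDW
    obtain ⟨x, hx, hmax⟩ := hc.exists_isMaxOn (f := fun x => ‖(Wᗮ.starProjection x)‖)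
      ⟨0, h0⟩ (by fun_prop)
    obtain ⟨w, hw⟩ : ∃ w : EuclideanSpace ℝ (Fin k), w = (Wᗮ.starProjection x) := ⟨_, rfl⟩
    have hwW : w ∈ Wᗮ := by rw [hw]; exact Submodule.starProjection_apply_mem _ _
    have hle : ∀ y ∈ D, ‖(Wᗮ.starProjection y)‖ ≤ ‖w‖ := by
      intro y hy
      rw [hw]
      exact hmax hy
    have hdec : ∀ y : EuclideanSpace ℝ (Fin k), y - (Wᗮ.starProjection y) ∈ W := by
      intro y
      have := Submodule.sub_starProjection_mem_orthogonal (K := Wᗮ) y
      rwa [Submodule.orthogonal_orthogonal] at this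
    have hwpos : 0 < ‖w‖ := by
      rcases (norm_nonneg w).lt_or_eq with h | h
      · exact h
      · exfalso
        have h3 := hle x0 hx0
        rw [← h] at h3
        have h4 : (Wᗮ.starProjection x0) = 0 := by
          rw [← norm_eq_zero]; exact le_antisymm h3 (norm_nonneg _)
        have h5 := hdec x0
        rw [h4, sub_zero] at h5
        exact hx0W h5
    have hinner : ∀ y : EuclideanSpace ℝ (Fin k), (inner ℝ w y : ℝ) = inner ℝ w (Wᗮ.starProjection y) := by
      intro y
      have : (inner ℝ w (y - (Wᗮ.starProjection y)) : ℝ) = 0 :=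
        Submodule.inner_left_of_mem_orthogonal (hdec y) hwW
      rw [inner_sub_right] at this
      linarith
    have hwx : (inner ℝ w x : ℝ) = ‖w‖ * ‖w‖ := by
      rw [hinner, ← hw, real_inner_self_eq_norm_mul_norm]
    obtain ⟨en, hen⟩ : ∃ en : EuclideanSpace ℝ (Fin k), en = ‖w‖⁻¹ • w := ⟨_, rfl⟩
    have henW : en ∈ Wᗮ := by rw [hen]; exact Submodule.smul_mem _ _ hwW
    have hen1 : ‖en‖ = 1 := by
      rw [hen, norm_smul, norm_inv, norm_norm, inv_mul_cancel₀ hwpos.ne']
    have henx : (inner ℝ en x : ℝ) = ‖w‖ := by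
      rw [hen, real_inner_smul_left, hwx, ← mul_assoc, inv_mul_cancel₀ hwpos.ne', one_mul]
    have heny : ∀ y ∈ D, |(inner ℝ en y : ℝ)| ≤ ‖w‖ := by
      intro y hy
      rw [hen, real_inner_smul_left, hinner, abs_mul, abs_of_nonneg (inv_nonneg.2 hwpos.le)]
      have h3 := abs_real_inner_le_norm w (Wᗮ.starProjection y)
      have h4 := hle y hy
      calc _ ≤ ‖w‖⁻¹ * (‖w‖ * ‖w‖) := by
            apply mul_le_mul_of_nonneg_left _ (inv_nonneg.2 hwpos.le)
            exact h3.trans (mul_le_mul_of_nonneg_left h4 hwpos.le)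
        _ = ‖w‖ := by rw [← mul_assoc, inv_mul_cancel₀ hwpos.ne', one_mul]
    have hperp : ∀ y ∈ W, (inner ℝ en y : ℝ) = 0 := fun y hy =>
      Submodule.inner_left_of_mem_orthogonal hy henW
    have heW : ∀ l < j, e l ∈ W := by
      intro l hl
      rw [hW]
      exact Submodule.subset_span ⟨⟨l, hl⟩, rfl⟩
    refine ⟨Function.update e j en, Function.update v j x, ?_, ?_⟩
    · intro i hi
      rcases Nat.lt_succ_iff_lt_or_eq.1 hi with hij | hij
      · have e1 : Function.update e j en i = e i := Function.update_of_ne hij.ne _ _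
        have e2 : Function.update v j x i = v i := Function.update_of_ne hij.ne _ _
        rw [e1, e2]
        obtain ⟨a1, a2, a3, a4, a5⟩ := h1 i hij
        refine ⟨a1, a2, a3, a4, fun l hl => ?_⟩
        rw [Function.update_of_ne (by omega), Function.update_of_ne (by omega)]
        exact a5 l hl
      · subst hij
        rw [Function.update_self, Function.update_self]
        refine ⟨hen1, hx, by rw [henx]; exact hwpos, fun y hy => by rw [henx]; exact heny y hy, fun l hl => ?_⟩
        rw [Function.update_of_ne hl.ne, Function.update_of_ne hl.ne]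
        exact ⟨hperp _ (heW l hl), hperp _ (h2 l hl)⟩
    · have hsub : W ≤ Submodule.span ℝ (Set.range fun i : Fin (j + 1) => Function.update e j en i) := by
        rw [hW, Submodule.span_le]
        rintro _ ⟨i, rfl⟩
        apply Submodule.subset_span
        refine ⟨⟨i, by omega⟩, ?_⟩
        simp only
        rw [Function.update_of_ne (by have := i.2; omega)]
      have hlast : en ∈ Submodule.span ℝ (Set.range fun i : Fin (j + 1) => Function.update e j en i) := by
        apply Submodule.subset_span
        refine ⟨⟨j, by omega⟩, ?_⟩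
        simp
      intro i hi
      rcases Nat.lt_succ_iff_lt_or_eq.1 hi with hij | hij
      · rw [Function.update_of_ne hij.ne]
        exact hsub (h2 i hij)
      · subst hij
        rw [Function.update_self]
        have hxd : x = (x - w) + ‖w‖ • en := by
          rw [hen, smul_smul, mul_inv_cancel₀ hwpos.ne', one_smul, sub_add_cancel]
        rw [hxd]
        apply Submodule.add_mem
        · apply hsub
          have := hdec x
          rwa [← hw] at this
        · exact Submodule.smul_mem _ _ hlast

open Pointwise in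
theorem ps_vol_scale (k : ℕ) (r : ℝ) (hr : 0 ≤ r) (S : Set (EuclideanSpace ℝ (Fin k))) :
    volume ((fun x => r • x) '' S) = ENNReal.ofReal (r ^ k) * volume S := by
  have := Measure.addHaar_smul_of_nonneg (volume : Measure (EuclideanSpace ℝ (Fin k))) hr S
  rw [finrank_euclideanSpace_fin] at this
  exact this

/-- greedy frame of a convex body -/
theorem ps_frame (k : ℕ) (K : Set (EuclideanSpace ℝ (Fin k))) (hc : IsCompact K)
    (hconv : Convex ℝ K) (hint : (interior K).Nonempty) :
    ∃ (e : OrthonormalBasis (Fin k) ℝ (EuclideanSpace ℝ (Fin k))) (h : Fin k → ℝ)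
      (p : EuclideanSpace ℝ (Fin k)), p ∈ K ∧ (∀ i, 0 < h i) ∧
      (∀ x ∈ K, ∀ i, |inner ℝ (e i) (x - p)| ≤ h i) ∧
      ∏ i, h i ≤ (k : ℝ) ^ k * (volume K).toReal := by
  obtain ⟨p, hp⟩ : K.Nonempty := hint.mono interior_subset
  obtain ⟨D, hD⟩ : ∃ D : Set (EuclideanSpace ℝ (Fin k)), D = (fun x => -p + x) '' K := ⟨_, rfl⟩
  have hDc : IsCompact D := by
    rw [hD]; exact hc.image (by fun_prop)
  have hD0 : (0 : EuclideanSpace ℝ (Fin k)) ∈ D := by
    rw [hD]; exact ⟨p, hp, by simp⟩
  have hDconv : Convex ℝ D := by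
    rw [hD]
    exact hconv.translate (-p)
  have hDint : (interior D).Nonempty := by
    obtain ⟨q, hq⟩ := hint
    refine ⟨-p + q, ?_⟩
    have h1 : IsOpen ((fun x => -p + x) '' interior K) :=
      (Homeomorph.addLeft (-p)).isOpenMap _ isOpen_interior
    have h2 : (fun x => -p + x) '' interior K ⊆ D := by
      rw [hD]; exact Set.image_mono interior_subset
    exact interior_maximal h2 h1 ⟨q, hq, rfl⟩
  have hvol : volume D = volume K := by
    rw [hD, Set.image_add_left]
    exact measure_preimage_add _ _ _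
  obtain ⟨e, v, h1, -⟩ := ps_greedy k D hDc hD0 hDint k le_rfl
  have hon : Orthonormal ℝ (fun i : Fin k => e i) := by
    constructor
    · intro i; exact (h1 i i.2).1
    · intro i j hij
      rcases lt_or_gt_of_ne hij with h | h
      · show (inner ℝ (e i) (e j) : ℝ) = 0
        rw [real_inner_comm]
        exact ((h1 j j.2).2.2.2.2 i h).1
      · exact ((h1 i i.2).2.2.2.2 j h).1
  have hsp : ⊤ ≤ Submodule.span ℝ (Set.range fun i : Fin k => e i) := by
    refine le_of_eq (Eq.symm (Submodule.eq_top_of_finrank_eq ?_))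
    rw [finrank_span_eq_card hon.linearIndependent]
    simp
  let b := OrthonormalBasis.mk hon hsp
  have hb : ∀ i, b i = e i := fun i => by
    show (OrthonormalBasis.mk hon hsp) i = e i
    rw [OrthonormalBasis.coe_mk]
  refine ⟨b, fun i => inner ℝ (e i) (v i), p, hp, fun i => (h1 i i.2).2.2.1, ?_, ?_⟩
  · intro x hx i
    rw [hb]
    apply (h1 i i.2).2.2.2.1
    rw [hD]
    exact ⟨x, hx, by simp [sub_eq_neg_add]⟩
  · -- the linear map
    obtain ⟨L, hL⟩ : ∃ L : EuclideanSpace ℝ (Fin k) →ₗ[ℝ] EuclideanSpace ℝ (Fin k),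
        ∀ i : Fin k, L (e i) = v i := by
      refine ⟨b.toBasis.constr ℝ (fun i : Fin k => v i), fun i => ?_⟩
      have := b.toBasis.constr_basis ℝ (fun i : Fin k => v i) i
      rwa [OrthonormalBasis.coe_toBasis, hb] at this
    have hdet : LinearMap.det L = ∏ i : Fin k, (inner ℝ (e i) (v i) : ℝ) := by
      rw [← LinearMap.det_toMatrix b.toBasis]
      rw [Matrix.det_of_isUpperTriangular]
      · apply Finset.prod_congr rfl
        intro i _
        rw [LinearMap.toMatrix_apply]
        simp [OrthonormalBasis.repr_apply_apply, hb, hL]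
      · intro i j hij
        rw [LinearMap.toMatrix_apply]
        simp only [OrthonormalBasis.coe_toBasis, OrthonormalBasis.coe_toBasis_repr_apply, OrthonormalBasis.repr_apply_apply, hb, hL]
        exact ((h1 i i.2).2.2.2.2 j hij).2
    have himg : L '' parallelepiped b = parallelepiped (fun i : Fin k => v i) := by
      rw [image_parallelepiped]
      congr 1
      ext1 i
      show L (b i) = v i
      rw [hb]
      exact hL i
    have hsub : (fun x => (k : ℝ)⁻¹ • x) '' parallelepiped (fun i : Fin k => v i) ⊆ D := by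
      rintro _ ⟨y, hy, rfl⟩
      rw [mem_parallelepiped_iff] at hy
      obtain ⟨t, ht, rfl⟩ := hy
      simp only
      rw [Finset.smul_sum]
      rcases Nat.eq_zero_or_pos k with hk | hk
      · subst hk
        simpa using hD0
      · apply hDconv.sum_mem
        · intro i _; positivity
        · simp [hk.ne']
        · intro i _
          exact hDconv.smul_mem_of_zero_mem hD0 (h1 i i.2).2.1 ⟨ht.1 i, ht.2 i⟩
    have hvol2 : ENNReal.ofReal (((k:ℝ)⁻¹) ^ k) * (ENNReal.ofReal |∏ i : Fin k, (inner ℝ (e i) (v i) : ℝ)|) ≤ volume K := by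
      rw [← hvol]
      refine le_trans (le_of_eq ?_) (measure_mono hsub)
      rw [ps_vol_scale k _ (by positivity), ← himg, Measure.addHaar_image_linearMap, b.volume_parallelepiped, hdet, mul_one]
    have hpos : 0 < ∏ i : Fin k, (inner ℝ (e i) (v i) : ℝ) := Finset.prod_pos (fun i _ => (h1 i i.2).2.2.1)
    rw [abs_of_pos hpos, ← ENNReal.ofReal_mul (by positivity)] at hvol2
    have h3 := (ENNReal.ofReal_le_iff_le_toReal hc.measure_lt_top.ne).1 hvol2
    rcases Nat.eq_zero_or_pos k with hk | hk
    · subst hk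
      simpa using h3
    · have hkk : (0:ℝ) < (k:ℝ) ^ k := by positivity
      calc ∏ i : Fin k, (inner ℝ (e i) (v i) : ℝ) = (k:ℝ)^k * (((k:ℝ)⁻¹) ^ k * ∏ i : Fin k, (inner ℝ (e i) (v i) : ℝ)) := by
            rw [← mul_assoc, ← mul_pow, mul_inv_cancel₀ (by positivity), one_pow, one_mul]
        _ ≤ _ := mul_le_mul_of_nonneg_left h3 hkk.le



/-- every convex body fits in a box with sides at most its diameter and comparable volume -/
theorem ps_boxk (k : ℕ) (hk : 1 ≤ k) (K : Set (EuclideanSpace ℝ (Fin k))) (hc : IsCompact K)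
    (hconv : Convex ℝ K) (hint : (interior K).Nonempty) (a : ℝ) (hdiam : Metric.diam K ≤ a) :
    ∃ (g : EuclideanSpace ℝ (Fin k) → EuclideanSpace ℝ (Fin k)) (s : Fin k → ℝ),
      Isometry g ∧ (∀ i, 0 < s i ∧ s i ≤ a) ∧ Antitone s ∧
      ∏ i, s i ≤ (2 * k : ℝ) ^ k * (volume K).toReal ∧
      ∀ x ∈ K, ∀ i, 0 ≤ g x i ∧ g x i ≤ s i := by
  obtain ⟨e, h, p, hp, hpos, hb, hprod⟩ := ps_frame k K hc hconv hint
  have hne : K.Nonempty := ⟨p, hp⟩
  have hcont : ∀ i, Continuous (fun x : EuclideanSpace ℝ (Fin k) => inner ℝ (e i) x) :=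
    fun i => continuous_const.inner continuous_id
  have hmin : ∀ i, ∃ y ∈ K, ∀ x ∈ K, inner ℝ (e i) y ≤ inner ℝ (e i) x := by
    intro i
    obtain ⟨y, hy, hy2⟩ := hc.exists_isMinOn hne (hcont i).continuousOn
    exact ⟨y, hy, fun x hx => hy2 hx⟩
  have hmax : ∀ i, ∃ y ∈ K, ∀ x ∈ K, inner ℝ (e i) x ≤ inner ℝ (e i) y := by
    intro i
    obtain ⟨y, hy, hy2⟩ := hc.exists_isMaxOn hne (hcont i).continuousOn
    exact ⟨y, hy, fun x hx => hy2 hx⟩
  choose y hyK hy using hmin
  choose z hzK hz using hmax
  set m : Fin k → ℝ := fun i => inner ℝ (e i) (y i) with hm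
  set w : Fin k → ℝ := fun i => inner ℝ (e i) (z i) - inner ℝ (e i) (y i) with hw
  have hwpos : ∀ i, 0 < w i := by
    intro i
    obtain ⟨x0, hx0⟩ := hint
    obtain ⟨ε, hε, hball⟩ := Metric.nhds_basis_closedBall.mem_iff.1 (mem_interior_iff_mem_nhds.1 hx0)
    have h1 : x0 + ε • e i ∈ K := by
      apply hball
      rw [Metric.mem_closedBall, dist_eq_norm, add_sub_cancel_left, norm_smul, e.orthonormal.1 i,
        Real.norm_of_nonneg hε.le, mul_one]
    have h2 : x0 ∈ K := interior_subset hx0
    have h3 := hz i _ h1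
    have h4 := hy i _ h2
    have h5 : inner ℝ (e i) (x0 + ε • e i) = inner ℝ (e i) x0 + ε := by
      rw [inner_add_right, inner_smul_right, real_inner_self_eq_norm_sq, e.orthonormal.1 i]; ring
    simp only [hw]
    linarith
  have hwa : ∀ i, w i ≤ a := by
    intro i
    have h1 : w i = inner ℝ (e i) (z i - y i) := by
      simp only [hw]; rw [inner_sub_right]
    have h2 := real_inner_le_norm (e i) (z i - y i)
    rw [e.orthonormal.1 i, one_mul, ← dist_eq_norm] at h2
    have h3 := Metric.dist_le_diam_of_mem hc.isBounded (hzK i) (hyK i)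
    rw [h1]; linarith
  have hwh : ∀ i, w i ≤ 2 * h i := by
    intro i
    have h1 := hb _ (hzK i) i
    have h2 := hb _ (hyK i) i
    rw [abs_le] at h1 h2
    rw [inner_sub_right] at h1 h2
    simp only [hw]
    linarith [h1.2, h2.1]
  set σ : Equiv.Perm (Fin k) := Tuple.sort (fun i => - w i) with hσ
  have hmono : Monotone ((fun i => - w i) ∘ σ) := Tuple.monotone_sort _
  set e' := e.reindex σ.symm with he'
  have he'i : ∀ i, e' i = e (σ i) := by
    intro i; rw [he', OrthonormalBasis.reindex_apply]; rfl
  set c : EuclideanSpace ℝ (Fin k) := WithLp.toLp 2 (fun i => m (σ i)) with hc'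
  refine ⟨fun x => e'.repr x - c, fun i => w (σ i), ?_, fun i => ⟨hwpos _, hwa _⟩, ?_, ?_, ?_⟩
  · intro x y
    rw [edist_sub_right, e'.repr.isometry.edist_eq]
  · intro i j hij
    have := hmono hij
    simp only [Function.comp] at this
    show w (σ j) ≤ w (σ i)
    linarith
  · calc ∏ i, w (σ i) = ∏ i, w i := Equiv.prod_comp σ w
      _ ≤ ∏ i, (2 * h i) := Finset.prod_le_prod (fun i _ => (hwpos i).le) (fun i _ => hwh i)
      _ = 2 ^ k * ∏ i, h i := by
          rw [Finset.prod_mul_distrib, Finset.prod_const, Finset.card_univ, Fintype.card_fin]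
      _ ≤ 2 ^ k * ((k : ℝ) ^ k * (volume K).toReal) :=
          mul_le_mul_of_nonneg_left hprod (by positivity)
      _ = (2 * k : ℝ) ^ k * (volume K).toReal := by rw [mul_pow]; ring
  · intro x hx i
    have h1 : (e'.repr x - c) i = inner ℝ (e (σ i)) x - inner ℝ (e (σ i)) (y (σ i)) := by
      rw [PiLp.sub_apply, OrthonormalBasis.repr_apply_apply, he'i]
    have h2 := hy (σ i) x hx
    have h3 := hz (σ i) x hx
    show 0 ≤ (e'.repr x - c) i ∧ (e'.repr x - c) i ≤ w (σ i)
    rw [h1]
    simp only [hw]
    constructor <;> linarith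


end Pool.Agent.Helper839.PS
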