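import Mathlib

set_option linter.all false

open MeasureTheory Set

namespace Pool.Agent.Helper839.PS

namespace PSPathAux

open RealInnerProductSpace

noncomputable def J0 (r : ℕ) : EuclideanSpace ℝ (Fin r ⊕ Fin r) →ₗ[ℝ] EuclideanSpace ℝ (Fin r ⊕ Fin r) where
  toFun y := WithLp.toLp 2 (Sum.elim (fun i => - y (Sum.inr i)) (fun i => y (Sum.inl i)))
  map_add' x y := by
    ext i
    rcases i with i | i
    · simp; ring
    · simp
  map_smul' c y := by
    ext i
    rcases i with i | i <;> simp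

theorem J0_norm (r : ℕ) (y : EuclideanSpace ℝ (Fin r ⊕ Fin r)) : ‖J0 r y‖ = ‖y‖ := by
  rw [EuclideanSpace.norm_eq, EuclideanSpace.norm_eq]
  congr 1
  rw [Fintype.sum_sum_type, Fintype.sum_sum_type]
  simp [J0, add_comm]

theorem J0_inner (r : ℕ) (y : EuclideanSpace ℝ (Fin r ⊕ Fin r)) : ⟪J0 r y, y⟫ = 0 := by
  rw [PiLp.inner_apply, Fintype.sum_sum_type, ← Finset.sum_add_distrib]
  apply Finset.sum_eq_zero
  intro i _
  simp [J0]
  ring

theorem exists_J {W : Type*} [NormedAddCommGroup W] [InnerProductSpace ℝ W] [FiniteDimensional ℝ W]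
    (r : ℕ) (h : Module.finrank ℝ W = r + r) :
    ∃ J : W →ₗ[ℝ] W, (∀ x, ‖J x‖ = ‖x‖) ∧ (∀ x, ⟪J x, x⟫ = 0) := by
  let b := (stdOrthonormalBasis ℝ W).reindex ((finCongr h).trans finSumFinEquiv.symm)
  refine ⟨b.repr.symm.toLinearEquiv.toLinearMap ∘ₗ J0 r ∘ₗ b.repr.toLinearEquiv.toLinearMap, ?_, ?_⟩
  · intro x
    simp [J0_norm]
  · intro x
    have h1 := J0_inner r (b.repr x)
    have h2 : ⟪b.repr.symm (J0 r (b.repr x)), b.repr.symm (b.repr x)⟫ = ⟪J0 r (b.repr x), b.repr x⟫ :=
      b.repr.symm.inner_map_map _ _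
    rw [b.repr.symm_apply_apply] at h2
    simpa [h1] using h2

theorem exists_T {E : Type*} [NormedAddCommGroup E] [InnerProductSpace ℝ E] [FiniteDimensional ℝ E]
    (W : Submodule ℝ E) (r : ℕ) (h : Module.finrank ℝ W = r + r) :
    ∃ T : ℝ → E →ₗ[ℝ] E, (∀ x, Continuous fun t => T t x) ∧ (∀ t x, ‖T t x‖ = ‖x‖) ∧
      (∀ t x, T t x - x ∈ W) ∧ (∀ x, T 0 x = x) ∧
      (∀ x, ∀ p ∈ W, x - p ∈ Wᗮ → T 1 x = x - (2:ℝ) • p) := by
  obtain ⟨J, hJ1, hJ2⟩ := exists_J (W := W) r h
  let P : E →ₗ[ℝ] W := (W.orthogonalProjectionOnto : E →L[ℝ] W).toLinearMap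
  have hP : ∀ x, x - (P x : E) ∈ Wᗮ := fun x => W.sub_starProjection_mem_orthogonal x
  let T : ℝ → E →ₗ[ℝ] E := fun t => LinearMap.id + (Real.cos (Real.pi * t) - 1) • (W.subtype ∘ₗ P)
    + (Real.sin (Real.pi * t)) • (W.subtype ∘ₗ J ∘ₗ P)
  have hT : ∀ t x, T t x = x + (Real.cos (Real.pi * t) - 1) • (P x : E)
      + (Real.sin (Real.pi * t)) • (J (P x) : E) := by
    intro t x
    simp [T]
  refine ⟨T, ?_, ?_, ?_, ?_, ?_⟩
  · intro x
    simp only [hT]
    fun_prop
  · intro t x
    set c := Real.cos (Real.pi * t)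
    set s := Real.sin (Real.pi * t)
    have hcs : c ^ 2 + s ^ 2 = 1 := by
      rw [add_comm]; exact Real.sin_sq_add_cos_sq _
    set q : W := c • P x + s • J (P x) with hq
    have e1 : T t x = (x - (P x : E)) + (q : E) := by
      rw [hT, hq]
      push_cast
      rw [sub_smul, one_smul]
      abel
    have o1 : ⟪x - (P x : E), (q : E)⟫ = 0 := by
      have := hP x
      rw [Submodule.mem_orthogonal'] at this
      exact this _ q.2
    have o2 : ⟪x - (P x : E), (P x : E)⟫ = 0 := by
      have := hP x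
      rw [Submodule.mem_orthogonal'] at this
      exact this _ (P x).2
    have n1 : ‖q‖ ^ 2 = ‖P x‖ ^ 2 := by
      rw [← real_inner_self_eq_norm_sq, ← real_inner_self_eq_norm_sq, hq]
      simp only [inner_add_left, inner_add_right, real_inner_smul_left, real_inner_smul_right]
      have h3 : ⟪P x, J (P x)⟫ = 0 := by rw [real_inner_comm]; exact hJ2 _
      have h4 : ⟪J (P x), J (P x)⟫ = ⟪P x, P x⟫ := by
        rw [real_inner_self_eq_norm_sq, real_inner_self_eq_norm_sq, hJ1]
      rw [hJ2, h3, h4]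
      linear_combination (⟪P x, P x⟫) * hcs
    have n2 : ‖T t x‖ ^ 2 = ‖x‖ ^ 2 := by
      have a1 : ‖T t x‖ ^ 2 = ‖x - (P x : E)‖ ^ 2 + ‖(q : E)‖ ^ 2 := by
        rw [e1, @norm_add_sq_real, o1]; ring
      have a2 : ‖x‖ ^ 2 = ‖x - (P x : E)‖ ^ 2 + ‖(P x : E)‖ ^ 2 := by
        have : x = (x - (P x : E)) + (P x : E) := by abel
        conv_lhs => rw [this]
        rw [@norm_add_sq_real, o2]; ring
      rw [a1, a2]
      have : ‖(q : E)‖ ^ 2 = ‖(P x : E)‖ ^ 2 := n1
      rw [this]
    exact (sq_eq_sq₀ (norm_nonneg _) (norm_nonneg _)).mp n2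
  · intro t x
    rw [hT]
    have : x + (Real.cos (Real.pi * t) - 1) • (P x : E) + (Real.sin (Real.pi * t)) • (J (P x) : E) - x
        = (Real.cos (Real.pi * t) - 1) • (P x : E) + (Real.sin (Real.pi * t)) • (J (P x) : E) := by abel
    rw [this]
    exact W.add_mem (W.smul_mem _ (P x).2) (W.smul_mem _ (J (P x)).2)
  · intro x
    rw [hT]; simp
  · intro x p hp hx
    have hpe : (P x : E) = p := by
      have : W.starProjection x = p := W.eq_starProjection_of_mem_orthogonal hp hx
      exact this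
    rw [hT, hpe]
    simp
    rw [two_smul]
    module

end PSPathAux

open PSPathAux in
/-- a path of linear isometries of the hyperplane `∑ x_i = 0` from the identity to an isometry
that permutes the coordinates and changes all signs -/
theorem ps_path (j : ℕ) : ∃ (T : ℝ → EuclideanSpace ℝ (Fin (j + 1)) →ₗ[ℝ] EuclideanSpace ℝ (Fin (j + 1)))
    (τ : Equiv.Perm (Fin (j + 1))),
    (∀ x, Continuous fun t => T t x) ∧ (∀ t x, ‖T t x‖ = ‖x‖) ∧
    (∀ t x, ∑ i, x i = 0 → ∑ i, T t x i = 0) ∧ (∀ x, T 0 x = x) ∧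
    (∀ x, ∑ i, x i = 0 → ∀ i, T 1 x i = - x (τ i)) := by
  classical
  let one : EuclideanSpace ℝ (Fin (j + 1)) := WithLp.toLp 2 (fun _ => 1)
  have hone : ∀ x : EuclideanSpace ℝ (Fin (j + 1)), inner ℝ one x = ∑ i, x i := by
    intro x
    rw [PiLp.inner_apply]
    simp [one]
  have hone0 : one ≠ 0 := by
    intro h
    have := congrArg (fun x : EuclideanSpace ℝ (Fin (j + 1)) => x 0) h
    simp [one] at this
  have hfin : Module.finrank ℝ (EuclideanSpace ℝ (Fin (j + 1))) = j + 1 := by simp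
  rcases Nat.even_or_odd j with ⟨r, hr⟩ | ⟨r, hr⟩
  · set W := (Submodule.span ℝ {one})ᗮ with hW
    have hd : Module.finrank ℝ W = r + r := by
      have h1 := Submodule.finrank_add_finrank_orthogonal (Submodule.span ℝ {one})
      rw [finrank_span_singleton hone0, hfin, ← hW] at h1
      omega
    obtain ⟨T, h1, h2, h3, h4, h5⟩ := exists_T W r hd
    have hmem : ∀ x, x ∈ W ↔ ∑ i, x i = 0 := by
      intro x
      rw [hW, Submodule.mem_orthogonal_singleton_iff_inner_right, hone]
    refine ⟨T, 1, h1, h2, ?_, h4, ?_⟩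
    · intro t x hx
      have a := (hmem _).mp (h3 t x)
      simp only [PiLp.sub_apply, Finset.sum_sub_distrib] at a
      linarith
    · intro x hx i
      have := h5 x x ((hmem x).mpr hx) (by simp)
      rw [this]
      simp
      ring
  · have hj : 1 ≤ j := by omega
    let a : Fin (j + 1) := ⟨0, by omega⟩
    let b : Fin (j + 1) := ⟨1, by omega⟩
    have hab : a ≠ b := by simp [a, b]
    let v : EuclideanSpace ℝ (Fin (j + 1)) := EuclideanSpace.single a 1 - EuclideanSpace.single b 1
    have hv : ∀ x : EuclideanSpace ℝ (Fin (j + 1)), inner ℝ v x = x a - x b := by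
      intro x
      simp [v, inner_sub_left, EuclideanSpace.inner_single_left]
    have hov : inner ℝ one v = 0 := by
      rw [real_inner_comm, hv]
      simp [one]
    have hva : v a = 1 := by simp [v, hab]
    have hvb : v b = -1 := by simp [v, hab.symm]
    have hvv : inner ℝ v v = 2 := by
      rw [hv, hva, hvb]; norm_num
    have hv0 : v ≠ 0 := by
      intro h
      rw [h] at hvv
      simp at hvv
    set W := (Submodule.span ℝ {one, v})ᗮ with hW
    have hmem : ∀ x, x ∈ W ↔ inner ℝ one x = 0 ∧ inner ℝ v x = 0 := by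
      intro x
      rw [hW, Submodule.mem_orthogonal]
      constructor
      · intro h
        exact ⟨h one (Submodule.subset_span (by simp)), h v (Submodule.subset_span (by simp))⟩
      · rintro ⟨g1, g2⟩ u hu
        rw [Submodule.mem_span_pair] at hu
        obtain ⟨c, d, rfl⟩ := hu
        rw [inner_add_left, real_inner_smul_left, real_inner_smul_left, g1, g2]
        simp
    have hli : LinearIndependent ℝ ![one, v] := by
      rw [LinearIndependent.pair_iff]
      intro s t hst
      have e1 := congrArg (fun z => inner ℝ v z) hst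
      have e2 := congrArg (fun z => inner ℝ one z) hst
      simp only [inner_add_right, real_inner_smul_right, inner_zero_right] at e1 e2
      rw [hvv, real_inner_comm, hov] at e1
      rw [hov] at e2
      have e3 : inner ℝ one one ≠ 0 := by simpa using hone0
      constructor
      · have : s * inner ℝ one one = 0 := by linarith
        rcases mul_eq_zero.mp this with h | h
        · exact h
        · exact absurd h e3
      · linarith
    have hd2 : Module.finrank ℝ (Submodule.span ℝ {one, v}) = 2 := by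
      have := finrank_span_eq_card hli
      have hr : Set.range ![one, v] = {one, v} := by
        ext z; simp; tauto
      rw [hr] at this
      simpa using this
    have hd : Module.finrank ℝ W = r + r := by
      have h1 := Submodule.finrank_add_finrank_orthogonal (Submodule.span ℝ {one, v})
      rw [hd2, hfin, ← hW] at h1
      omega
    obtain ⟨T, h1, h2, h3, h4, h5⟩ := exists_T W r hd
    refine ⟨T, Equiv.swap a b, h1, h2, ?_, h4, ?_⟩
    · intro t x hx
      have g := ((hmem _).mp (h3 t x)).1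
      rw [hone] at g
      simp only [PiLp.sub_apply, Finset.sum_sub_distrib] at g
      linarith
    · intro x hx i
      set c : ℝ := (x a - x b) / 2 with hc
      have hp : x - c • v ∈ W := by
        rw [hmem]
        constructor
        · rw [inner_sub_right, real_inner_smul_right, hov, hone, hx]; simp
        · rw [inner_sub_right, real_inner_smul_right, hvv, hv, hc]; ring
      have hq : x - (x - c • v) ∈ Wᗮ := by
        rw [sub_sub_cancel, hW]
        apply Submodule.smul_mem
        apply Submodule.le_orthogonal_orthogonal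
        exact Submodule.subset_span (by simp)
      have := h5 x _ hp hq
      rw [this]
      by_cases hia : i = a
      · subst hia
        simp [Equiv.swap_apply_left, hva, hc]
        ring
      · by_cases hib : i = b
        · subst hib
          simp [Equiv.swap_apply_right, hvb, hc]
          ring
        · rw [Equiv.swap_apply_of_ne_of_ne hia hib]
          have : v i = 0 := by simp [v, hia, hib]
          simp [this]
          ring



theorem ps_coord (j : ℕ) (z : EuclideanSpace ℝ (Fin (j + 1))) (hz : ∑ i, z i = 0)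
    (i : Fin (j + 1)) : |z i| ≤ ‖z‖ * Real.sqrt ((j : ℝ) / (j + 1)) := by
  classical
  have h1 : z i = -∑ l ∈ Finset.univ.erase i, z l := by
    have := Finset.add_sum_erase Finset.univ (fun l => z l) (Finset.mem_univ i)
    linarith [hz]
  have h2 : (∑ l ∈ Finset.univ.erase i, z l) ^ 2 ≤
      ((Finset.univ.erase i).card : ℝ) * ∑ l ∈ Finset.univ.erase i, z l ^ 2 :=
    sq_sum_le_card_mul_sum_sq
  have hcard : ((Finset.univ.erase i).card : ℝ) = j := by
    rw [Finset.card_erase_of_mem (Finset.mem_univ i), Finset.card_univ, Fintype.card_fin]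
    simp
  rw [hcard] at h2
  have h3 : ‖z‖ ^ 2 = ∑ l, z l ^ 2 := by
    rw [EuclideanSpace.norm_sq_eq]
    apply Finset.sum_congr rfl
    intro l _
    rw [Real.norm_eq_abs, sq_abs]
  have h4 : z i ^ 2 + ∑ l ∈ Finset.univ.erase i, z l ^ 2 = ‖z‖ ^ 2 := by
    rw [h3]
    exact Finset.add_sum_erase Finset.univ (fun l => z l ^ 2) (Finset.mem_univ i)
  have h5 : z i ^ 2 = (∑ l ∈ Finset.univ.erase i, z l) ^ 2 := by
    rw [h1]; ring
  have hj : (0 : ℝ) < (j : ℝ) + 1 := by positivity
  have h6 : z i ^ 2 ≤ ‖z‖ ^ 2 * ((j : ℝ) / (j + 1)) := by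
    rw [mul_div_assoc', le_div_iff₀ hj]
    nlinarith
  have h7 : |z i| = Real.sqrt (z i ^ 2) := (Real.sqrt_sq_eq_abs _).symm
  rw [h7]
  calc Real.sqrt (z i ^ 2) ≤ Real.sqrt (‖z‖ ^ 2 * ((j : ℝ) / (j + 1))) := Real.sqrt_le_sqrt h6
    _ = ‖z‖ * Real.sqrt ((j : ℝ) / (j + 1)) := by
      rw [Real.sqrt_mul (by positivity), Real.sqrt_sq (norm_nonneg _)]

theorem ps_emb (j : ℕ) : ∃ L : EuclideanSpace ℝ (Fin j) →ₗ[ℝ] EuclideanSpace ℝ (Fin (j + 1)),
    (∀ x, ‖L x‖ = ‖x‖) ∧ ∀ x, ∑ i, L x i = 0 := by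
  let one : EuclideanSpace ℝ (Fin (j + 1)) := WithLp.toLp 2 (fun _ => (1 : ℝ))
  have hone : one ≠ 0 := by
    intro h
    have : one 0 = (0 : EuclideanSpace ℝ (Fin (j + 1))) 0 := by rw [h]
    simp [one] at this
  haveI : Fact (Module.finrank ℝ (EuclideanSpace ℝ (Fin (j + 1))) = j + 1) :=
    ⟨by simp⟩
  let B := OrthonormalBasis.fromOrthogonalSpanSingleton (𝕜 := ℝ) j hone
  let L0 : EuclideanSpace ℝ (Fin j) →ₗᵢ[ℝ] EuclideanSpace ℝ (Fin (j + 1)) :=
    (Submodule.subtypeₗᵢ _).comp B.repr.symm.toLinearIsometry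
  refine ⟨L0.toLinearMap, fun x => L0.norm_map x, fun x => ?_⟩
  have hmem : L0 x ∈ (Submodule.span ℝ {one})ᗮ := (B.repr.symm x).2
  have h0 : inner ℝ one (L0 x) = 0 := Submodule.mem_orthogonal_singleton_iff_inner_right.1 hmem
  rw [PiLp.inner_apply] at h0
  simpa [one] using h0

/-- every set of diameter `w` in `ℝ^j` fits (isometrically) in the central section `∑ x_i = 0` of
the cube `|x_i| ≤ (w/2) √(j/(j+1))` of `ℝ^(j+1)` -/
theorem ps_pal_gen (j : ℕ) (C : Set (EuclideanSpace ℝ (Fin j))) (hc : IsCompact C)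
    (hne : C.Nonempty) (w : ℝ) (hd : ∀ x ∈ C, ∀ y ∈ C, dist x y ≤ w) :
    ∃ G : EuclideanSpace ℝ (Fin j) → EuclideanSpace ℝ (Fin (j + 1)), Isometry G ∧
      (∀ x, ∑ i, G x i = 0) ∧
      ∀ x ∈ C, ∀ i, |G x i| ≤ w / 2 * Real.sqrt ((j : ℝ) / (j + 1)) := by
  classical
  obtain ⟨T, τ, hTc, hTn, hTs, hT0, hT1⟩ := ps_path j
  obtain ⟨L, hLn, hLs⟩ := ps_emb j
  let F : ℝ → EuclideanSpace ℝ (Fin j) → EuclideanSpace ℝ (Fin (j + 1)) := fun t x => T t (L x)
  have hFsub : ∀ t x y, F t x - F t y = F t (x - y) := by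
    intro t x y; simp only [F, map_sub]
  have hFn : ∀ t x, ‖F t x‖ = ‖x‖ := fun t x => by simp only [F]; rw [hTn, hLn]
  have hFs : ∀ t x, ∑ i, F t x i = 0 := fun t x => hTs t _ (hLs x)
  have hFc : ∀ i, Continuous (fun p : ℝ × EuclideanSpace ℝ (Fin j) => F p.1 p.2 i) := by
    intro i
    have hexp : ∀ t x, F t x = ∑ k, x k • T t (L (EuclideanSpace.single k (1 : ℝ))) := by
      intro t x
      have hx : x = ∑ k, x k • EuclideanSpace.single k (1 : ℝ) := by
        ext l
        simp only [WithLp.ofLp_sum, WithLp.ofLp_smul, Finset.sum_apply, Pi.smul_apply, smul_eq_mul]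
        rw [Finset.sum_eq_single l]
        · simp
        · intro b _ hb
          simp [Pi.single_apply, Ne.symm hb]
        · intro h; exact absurd (Finset.mem_univ _) h
      conv_lhs => rw [hx]
      simp only [F, map_sum, map_smul]
    have h1 : (fun p : ℝ × EuclideanSpace ℝ (Fin j) => F p.1 p.2) =
        fun p => ∑ k, p.2 k • T p.1 (L (EuclideanSpace.single k (1 : ℝ))) := by
      funext p; exact hexp p.1 p.2
    have h2 : Continuous (fun p : ℝ × EuclideanSpace ℝ (Fin j) => F p.1 p.2) := by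
      rw [h1]
      refine continuous_finsetSum _ fun k _ => ?_
      have ha : Continuous (fun p : ℝ × EuclideanSpace ℝ (Fin j) => p.2 k) :=
        (EuclideanSpace.proj k).continuous.comp continuous_snd
      have hb : Continuous (fun p : ℝ × EuclideanSpace ℝ (Fin j) =>
          T p.1 (L (EuclideanSpace.single k (1 : ℝ)))) :=
        (hTc (L (EuclideanSpace.single k (1 : ℝ)))).comp continuous_fst
      exact ha.smul hb
    exact (EuclideanSpace.proj i).continuous.comp h2
  set s := Real.sqrt ((j : ℝ) / (j + 1)) with hs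
  have hs0 : 0 ≤ s := Real.sqrt_nonneg _
  have hdiff : ∀ t i, ∀ x ∈ C, ∀ y ∈ C, F t x i - F t y i ≤ w * s := by
    intro t i x hx y hy
    have h1 := ps_coord j (F t (x - y)) (hFs t _) i
    rw [hFn, ← hFsub] at h1
    have h2 : (F t x - F t y) i = F t x i - F t y i := by simp
    rw [h2] at h1
    have h3 := hd x hx y hy
    rw [dist_eq_norm] at h3
    exact (le_abs_self _).trans (h1.trans (mul_le_mul_of_nonneg_right h3 hs0))
  let M : Fin (j + 1) → ℝ → ℝ := fun i t => sSup ((fun x => F t x i) '' C)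
  let N : Fin (j + 1) → ℝ → ℝ := fun i t => sInf ((fun x => F t x i) '' C)
  have hMc : ∀ i, Continuous (M i) := fun i =>
    hc.continuous_sSup (f := fun t x => F t x i) (hFc i)
  have hNc : ∀ i, Continuous (N i) := fun i =>
    hc.continuous_sInf (f := fun t x => F t x i) (hFc i)
  have hcts : ∀ t i, Continuous (fun x => F t x i) := fun t i =>
    (hFc i).comp (Continuous.prodMk continuous_const continuous_id)
  have hba : ∀ t i, BddAbove ((fun x => F t x i) '' C) := fun t i =>
    (hc.image (hcts t i)).bddAbove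
  have hbb : ∀ t i, BddBelow ((fun x => F t x i) '' C) := fun t i =>
    (hc.image (hcts t i)).bddBelow
  have hMN : ∀ i t, M i t - N i t ≤ w * s := by
    intro i t
    have h1 : M i t ≤ N i t + w * s := by
      apply csSup_le (hne.image _)
      rintro _ ⟨x, hx, rfl⟩
      have h2 : F t x i - w * s ≤ N i t := by
        apply le_csInf (hne.image _)
        rintro _ ⟨y, hy, rfl⟩
        have := hdiff t i x hx y hy
        show F t x i - w * s ≤ F t y i
        linarith
      show F t x i ≤ N i t + w * s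
      linarith
    linarith
  let D : ℝ → ℝ := fun t => ∑ i, (M i t + N i t) / 2
  have hDc : Continuous D := continuous_finsetSum _ fun i _ => ((hMc i).add (hNc i)).div_const 2
  have hneg : ∀ g : EuclideanSpace ℝ (Fin j) → ℝ,
      sSup ((fun x => -g x) '' C) = - sInf (g '' C) ∧ sInf ((fun x => -g x) '' C) = - sSup (g '' C) := by
    intro g
    have e1 : ∀ g : EuclideanSpace ℝ (Fin j) → ℝ, -(g '' C) = (fun x => -g x) '' C := by
      intro g
      rw [← Set.image_neg_eq_neg, Set.image_image]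
    constructor
    · rw [Real.sInf_def, e1, neg_neg]
    · rw [Real.sInf_def, e1]
      simp only [neg_neg]
  have hD1 : D 1 = - D 0 := by
    have h1 : ∀ i, M i 1 = - N (τ i) 0 ∧ N i 1 = - M (τ i) 0 := by
      intro i
      have e : (fun x => F 1 x i) = fun x => -(F 0 x (τ i)) := by
        funext x
        simp only [F]
        rw [hT1 _ (hLs x), hT0]
      simp only [M, N]
      rw [e]
      exact hneg _
    simp only [D]
    rw [← Equiv.sum_comp τ (fun i => (M i 0 + N i 0) / 2), ← Finset.sum_neg_distrib]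
    apply Finset.sum_congr rfl
    intro i _
    rw [(h1 i).1, (h1 i).2]
    ring
  obtain ⟨t, ht⟩ : ∃ t, D t = 0 := by
    have := mem_range_of_exists_le_of_exists_ge hDc (c := 0) ?_ ?_
    · exact this
    · rcases le_total (D 0) 0 with h | h
      · exact ⟨0, h⟩
      · exact ⟨1, by rw [hD1]; linarith⟩
    · rcases le_total (D 0) 0 with h | h
      · exact ⟨1, by rw [hD1]; linarith⟩
      · exact ⟨0, h⟩
  let m : EuclideanSpace ℝ (Fin (j + 1)) := WithLp.toLp 2 (fun i => (M i t + N i t) / 2)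
  have hm : ∀ i, m i = (M i t + N i t) / 2 := fun i => rfl
  refine ⟨fun x => F t x - m, ?_, ?_, ?_⟩
  · apply Isometry.of_dist_eq
    intro x y
    rw [dist_eq_norm, dist_eq_norm, sub_sub_sub_cancel_right, hFsub, hFn]
  · intro x
    have h1 : ∀ i, (F t x - m) i = F t x i - m i := fun i => by simp
    simp only [h1, Finset.sum_sub_distrib, hFs]
    have h2 : ∑ i, m i = D t := rfl
    rw [h2, ht, sub_zero]
  · intro x hx i
    have h1 : (F t x - m) i = F t x i - (M i t + N i t) / 2 := by
      rw [← hm]; simp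
    have h2 : F t x i ≤ M i t := le_csSup (hba t i) ⟨x, hx, rfl⟩
    have h3 : N i t ≤ F t x i := csInf_le (hbb t i) ⟨x, hx, rfl⟩
    have h4 := hMN i t
    rw [h1, abs_le]
    constructor <;> linarith


/-- assembling an isometry of `ℝ^k` -/
theorem ps_asm (k j : ℕ) (hj : j < k)
    (G : EuclideanSpace ℝ (Fin j) → EuclideanSpace ℝ (Fin (j + 1))) (hG : Isometry G)
    (hsum : ∀ x, ∑ i, G x i = 0) (c : ℕ → ℝ) (h : ℝ) :
    Isometry (fun z : EuclideanSpace ℝ (Fin k) => (WithLp.toLp 2 (fun i : Fin k =>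
      if hi : (i : ℕ) ≤ j then
        G (WithLp.toLp 2 (fun l : Fin j => z ⟨l, by omega⟩)) ⟨i, by omega⟩ +
          (z ⟨j, hj⟩ + c 0) / Real.sqrt ((j : ℝ) + 1)
      else h - (z i + c (i - j))) : EuclideanSpace ℝ (Fin k))) := by
  obtain ⟨r, rfl⟩ : ∃ r, k = j + 1 + r := ⟨k - (j + 1), by omega⟩
  apply Isometry.of_dist_eq
  intro x y
  rw [EuclideanSpace.dist_eq, EuclideanSpace.dist_eq]
  congr 1
  simp only [Real.dist_eq, sq_abs]
  have hR : ∑ i : Fin (j + 1 + r), (x i - y i) ^ 2 =
      ∑ i : Fin (j + 1), (x (Fin.castAdd r i) - y (Fin.castAdd r i)) ^ 2 +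
      ∑ i : Fin r, (x (Fin.natAdd (j + 1) i) - y (Fin.natAdd (j + 1) i)) ^ 2 := Fin.sum_univ_add _
  rw [hR, Fin.sum_univ_add]
  set x' : EuclideanSpace ℝ (Fin j) := WithLp.toLp 2 (fun l : Fin j => x ⟨l, by omega⟩) with hx'
  set y' : EuclideanSpace ℝ (Fin j) := WithLp.toLp 2 (fun l : Fin j => y ⟨l, by omega⟩) with hy'
  set s : ℝ := Real.sqrt ((j : ℝ) + 1) with hs
  have hs2 : s ^ 2 = (j : ℝ) + 1 := Real.sq_sqrt (by positivity)
  have hspos : 0 < s := Real.sqrt_pos.mpr (by positivity)
  set D : ℝ := x ⟨j, hj⟩ - y ⟨j, hj⟩ with hD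
  congr 1
  · have e1 : ∀ i : Fin (j + 1),
        ((if hi : ((Fin.castAdd r i : Fin (j + 1 + r)) : ℕ) ≤ j then
          G x' ⟨(Fin.castAdd r i : Fin (j + 1 + r)), by omega⟩ + (x ⟨j, hj⟩ + c 0) / s
          else h - (x (Fin.castAdd r i) + c ((Fin.castAdd r i : Fin (j + 1 + r)) - j))) -
        (if hi : ((Fin.castAdd r i : Fin (j + 1 + r)) : ℕ) ≤ j then
          G y' ⟨(Fin.castAdd r i : Fin (j + 1 + r)), by omega⟩ + (y ⟨j, hj⟩ + c 0) / s
          else h - (y (Fin.castAdd r i) + c ((Fin.castAdd r i : Fin (j + 1 + r)) - j)))) ^ 2 =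
        (G x' i - G y' i) ^ 2 + (2 * (D / s)) * (G x' i - G y' i) + (D / s) ^ 2 := by
      intro i
      have hi : ((Fin.castAdd r i : Fin (j + 1 + r)) : ℕ) ≤ j := by
        have := i.2
        simp only [Fin.val_castAdd]
        omega
      rw [dif_pos hi, dif_pos hi]
      have : (⟨(Fin.castAdd r i : Fin (j + 1 + r)), by omega⟩ : Fin (j + 1)) = i := by
        ext
        simp
      rw [this, hD]
      ring
    rw [Finset.sum_congr rfl fun i _ => e1 i]
    rw [Finset.sum_add_distrib, Finset.sum_add_distrib, ← Finset.mul_sum, Finset.sum_sub_distrib,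
      hsum x', hsum y', Finset.sum_const, Finset.card_univ, Fintype.card_fin]
    have e2 : ∑ i : Fin (j + 1), (G x' i - G y' i) ^ 2 = ∑ l : Fin j, (x' l - y' l) ^ 2 := by
      have h1 := hG.dist_eq x' y'
      rw [EuclideanSpace.dist_eq, EuclideanSpace.dist_eq] at h1
      have h2 := Real.sqrt_inj (by positivity) (by positivity) |>.mp h1
      simpa only [Real.dist_eq, sq_abs] using h2
    rw [e2, Fin.sum_univ_castSucc]
    have e3 : (D / s) ^ 2 * ((j:ℝ) + 1) = D ^ 2 := by
      rw [div_pow, hs2]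
      field_simp
    have e4 : (x (Fin.castAdd r (Fin.last j)) - y (Fin.castAdd r (Fin.last j))) = D := rfl
    rw [e4, nsmul_eq_mul]
    push_cast
    have e5 : ∑ l : Fin j, (x' l - y' l) ^ 2 =
        ∑ i : Fin j, (x (Fin.castAdd r i.castSucc) - y (Fin.castAdd r i.castSucc)) ^ 2 := rfl
    rw [e5]
    linarith
  · refine Finset.sum_congr rfl fun i _ => ?_
    have hi : ¬ ((Fin.natAdd (j + 1) i : Fin (j + 1 + r)) : ℕ) ≤ j := by
      simp only [Fin.val_natAdd]
      omega
    rw [dif_neg hi, dif_neg hi]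
    ring


end Pool.Agent.Helper839.PS
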