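import Mathlib
import Pool.Agent.Helper839.PS.E
import Pool.Agent.Helper839.PS.F

set_option linter.all false

open MeasureTheory Set

namespace Pool.Agent.Helper839.PS







/-- the first `j` coordinates -/
noncomputable def psT (j m : ℕ) (z : EuclideanSpace ℝ (Fin (j + (m + 1)))) :
    EuclideanSpace ℝ (Fin j) := WithLp.toLp 2 (fun l : Fin j => z ⟨l, by omega⟩)

/-- the map of `ps_asm` -/
noncomputable def psA (j m : ℕ) (G : EuclideanSpace ℝ (Fin j) → EuclideanSpace ℝ (Fin (j + 1)))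
    (c : ℕ → ℝ) (h : ℝ) (z : EuclideanSpace ℝ (Fin (j + (m + 1)))) :
    EuclideanSpace ℝ (Fin (j + (m + 1))) :=
  WithLp.toLp 2 (fun i : Fin (j + (m + 1)) =>
      if hi : (i : ℕ) ≤ j then
        G (WithLp.toLp 2 (fun l : Fin j => z ⟨l, by omega⟩)) ⟨i, by omega⟩ +
          (z ⟨j, by omega⟩ + c 0) / Real.sqrt ((j : ℝ) + 1)
      else h - (z i + c (i - j)))

theorem psA_iso (j m : ℕ) (G : EuclideanSpace ℝ (Fin j) → EuclideanSpace ℝ (Fin (j + 1)))
    (hG : Isometry G) (hsum : ∀ x, ∑ i, G x i = 0) (c : ℕ → ℝ) (h : ℝ) :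
    Isometry (psA j m G c h) :=
  ps_asm (j + (m + 1)) j (by omega) G hG hsum c h

theorem psT_dist (j m : ℕ) (x y : EuclideanSpace ℝ (Fin (j + (m + 1)))) :
    dist (psT j m x) (psT j m y) ≤ dist x y := by
  rw [EuclideanSpace.dist_eq, EuclideanSpace.dist_eq]
  apply Real.sqrt_le_sqrt
  rw [Fin.sum_univ_add]
  have h1 : ∑ i : Fin j, dist (psT j m x i) (psT j m y i) ^ 2 =
      ∑ i : Fin j, dist (x (Fin.castAdd (m + 1) i)) (y (Fin.castAdd (m + 1) i)) ^ 2 := rfl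
  rw [h1]
  have h2 : 0 ≤ ∑ i : Fin (m + 1), dist (x (Fin.natAdd j i)) (y (Fin.natAdd j i)) ^ 2 :=
    Finset.sum_nonneg fun _ _ => sq_nonneg _
  linarith

theorem psA_low (j m : ℕ) (G : EuclideanSpace ℝ (Fin j) → EuclideanSpace ℝ (Fin (j + 1)))
    (c : ℕ → ℝ) (h : ℝ) (z : EuclideanSpace ℝ (Fin (j + (m + 1)))) (i : Fin (j + (m + 1)))
    (hi : (i : ℕ) ≤ j) :
    psA j m G c h z i = G (psT j m z) ⟨i, by omega⟩ +
      (z (Fin.natAdd j (0 : Fin (m + 1))) + c 0) / Real.sqrt ((j : ℝ) + 1) := by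
  show (if hi : (i : ℕ) ≤ j then
        G (WithLp.toLp 2 (fun l : Fin j => z ⟨l, by omega⟩)) ⟨i, by omega⟩ +
          (z ⟨j, by omega⟩ + c 0) / Real.sqrt ((j : ℝ) + 1)
      else h - (z i + c (i - j))) = _
  rw [dif_pos hi]
  rfl

theorem psA_high (j m : ℕ) (G : EuclideanSpace ℝ (Fin j) → EuclideanSpace ℝ (Fin (j + 1)))
    (c : ℕ → ℝ) (h : ℝ) (z : EuclideanSpace ℝ (Fin (j + (m + 1)))) (l : Fin m) :
    psA j m G c h z (Fin.natAdd j l.succ) =
      h - (z (Fin.natAdd j l.succ) + c ((l : ℕ) + 1)) := by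
  have h0 : ((Fin.natAdd j l.succ : Fin (j + (m + 1))) : ℕ) = j + (l + 1) := rfl
  have hn : ¬ ((Fin.natAdd j l.succ : Fin (j + (m + 1))) : ℕ) ≤ j := by omega
  show (if hi : ((Fin.natAdd j l.succ : Fin (j + (m + 1))) : ℕ) ≤ j then
        G (WithLp.toLp 2 (fun l : Fin j => z ⟨l, by omega⟩))
          ⟨((Fin.natAdd j l.succ : Fin (j + (m + 1))) : ℕ), by omega⟩ +
          (z ⟨j, by omega⟩ + c 0) / Real.sqrt ((j : ℝ) + 1)
      else h - (z (Fin.natAdd j l.succ) +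
        c (((Fin.natAdd j l.succ : Fin (j + (m + 1))) : ℕ) - j))) = _
  rw [dif_neg hn, h0]
  have h1 : j + ((l : ℕ) + 1) - j = (l : ℕ) + 1 := by omega
  rw [h1]

theorem psA_sumlow (j m : ℕ) (G : EuclideanSpace ℝ (Fin j) → EuclideanSpace ℝ (Fin (j + 1)))
    (hsum : ∀ x, ∑ i, G x i = 0) (c : ℕ → ℝ) (h : ℝ)
    (z : EuclideanSpace ℝ (Fin (j + (m + 1)))) :
    (∑ i : Fin j, psA j m G c h z (Fin.castAdd (m + 1) i)) + psA j m G c h z (Fin.natAdd j 0) =
      Real.sqrt ((j : ℝ) + 1) * (z (Fin.natAdd j (0 : Fin (m + 1))) + c 0) := by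
  have h1 : ∀ i : Fin j, psA j m G c h z (Fin.castAdd (m + 1) i) = G (psT j m z) i.castSucc +
      (z (Fin.natAdd j (0 : Fin (m + 1))) + c 0) / Real.sqrt ((j : ℝ) + 1) := fun i =>
    psA_low j m G c h z (Fin.castAdd (m + 1) i) i.2.le
  have h2 : psA j m G c h z (Fin.natAdd j 0) = G (psT j m z) (Fin.last j) +
      (z (Fin.natAdd j (0 : Fin (m + 1))) + c 0) / Real.sqrt ((j : ℝ) + 1) :=
    psA_low j m G c h z (Fin.natAdd j 0) le_rfl
  have h3 := hsum (psT j m z)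
  rw [Fin.sum_univ_castSucc] at h3
  rw [h2, Finset.sum_congr rfl fun i _ => h1 i, Finset.sum_add_distrib, Finset.sum_const,
    Finset.card_univ, Fintype.card_fin, nsmul_eq_mul]
  have hs : Real.sqrt ((j : ℝ) + 1) * Real.sqrt ((j : ℝ) + 1) = (j : ℝ) + 1 :=
    Real.mul_self_sqrt (by positivity)
  have hs0 : 0 < Real.sqrt ((j : ℝ) + 1) := Real.sqrt_pos.2 (by positivity)
  generalize (z (Fin.natAdd j (0 : Fin (m + 1))) + c 0) = T
  have h4 : ((j : ℝ) + 1) * (T / Real.sqrt ((j : ℝ) + 1)) = Real.sqrt ((j : ℝ) + 1) * T := by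
    rw [mul_div_assoc', div_eq_iff hs0.ne']
    linear_combination (-T) * hs
  linarith

theorem psA_sum (j m : ℕ) (G : EuclideanSpace ℝ (Fin j) → EuclideanSpace ℝ (Fin (j + 1)))
    (hsum : ∀ x, ∑ i, G x i = 0) (c : ℕ → ℝ) (h : ℝ)
    (z : EuclideanSpace ℝ (Fin (j + (m + 1)))) :
    ∑ i, psA j m G c h z i = Real.sqrt ((j : ℝ) + 1) *
      (z (Fin.natAdd j (0 : Fin (m + 1))) + c 0) +
      ∑ l : Fin m, psA j m G c h z (Fin.natAdd j l.succ) := by
  have h1 : ∑ i, psA j m G c h z i = ∑ i : Fin j, psA j m G c h z (Fin.castAdd (m + 1) i) +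
      ∑ l : Fin (m + 1), psA j m G c h z (Fin.natAdd j l) := Fin.sum_univ_add _
  have h2 : ∑ l : Fin (m + 1), psA j m G c h z (Fin.natAdd j l) =
      psA j m G c h z (Fin.natAdd j 0) + ∑ l : Fin m, psA j m G c h z (Fin.natAdd j l.succ) :=
    Fin.sum_univ_succ _
  have h3 := psA_sumlow j m G hsum c h z
  linarith

/-- packing of the bodies with exactly `j` sides at least `μ` -/
theorem ps_class (k j : ℕ) (hj : j < k) :
    ∃ V : ℝ, 0 < V ∧ ∀ (a H μ : ℝ), 0 < a → 0 < μ →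
      a / 2 * Real.sqrt ((j : ℝ) / (j + 1)) + 2 * μ ≤ H → ∀ (P : Set ℕ) (K : ℕ → Set (EuclideanSpace ℝ (Fin k)))
      (g : ℕ → EuclideanSpace ℝ (Fin k) → EuclideanSpace ℝ (Fin k)) (s : ℕ → Fin k → ℝ),
      (∀ n ∈ P, IsCompact (K n) ∧ (K n).Nonempty ∧ Metric.diam (K n) ≤ a ∧ Isometry (g n) ∧
        (∀ x ∈ K n, ∀ i, 0 ≤ g n x i ∧ g n x i ≤ s n i) ∧ (∀ i, 0 < s n i) ∧ Antitone (s n) ∧
        (∀ i : Fin k, (i : ℕ) < j → μ ≤ s n i) ∧ (∀ i : Fin k, j ≤ (i : ℕ) → s n i < μ)) →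
      (∀ F : Finset ℕ, (∀ n ∈ F, n ∈ P) → ∑ n ∈ F, ∏ i, s n i ≤ V * μ ^ k) →
      ∃ Φ : ℕ → EuclideanSpace ℝ (Fin k) → EuclideanSpace ℝ (Fin k),
        (∀ n ∈ P, Isometry (Φ n) ∧ ∀ x ∈ K n, (∀ i, |Φ n x i| ≤ H) ∧
          ((k : ℝ) - 1 - j) * H - 2 * k * μ ≤ ∑ i, Φ n x i ∧
          ∑ i, Φ n x i ≤ ((k : ℝ) - 1 - j) * H + 2 * k * μ) ∧
        ∀ p ∈ P, ∀ q ∈ P, p ≠ q → Disjoint (Φ p '' K p) (Φ q '' K q) := by
  obtain ⟨m, rfl⟩ : ∃ m, k = j + (m + 1) := ⟨k - j - 1, by omega⟩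
  obtain ⟨V1, hV1, hpack⟩ := ps_packk m 1 one_pos
  refine ⟨V1, hV1, fun a H μ ha hμ hH P K g s hP hV => ?_⟩
  have hs' : ∀ n ∈ P, (∀ i : Fin (m + 1), 0 < s n (Fin.natAdd j i) / μ ∧
      s n (Fin.natAdd j i) / μ ≤ 1) ∧
      Antitone (fun i : Fin (m + 1) => s n (Fin.natAdd j i) / μ) := by
    intro n hn
    obtain ⟨_, _, _, _, _, hpos, hanti, _, hlt⟩ := hP n hn
    refine ⟨fun i => ⟨div_pos (hpos _) hμ, ?_⟩, ?_⟩
    · rw [div_le_one hμ]
      exact (hlt (Fin.natAdd j i) (Nat.le_add_right j i)).le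
    · intro i i' hii
      have h1 : Fin.natAdd j i ≤ Fin.natAdd j i' := by
        have h2 := Fin.le_def.1 hii
        rw [Fin.le_def]
        show j + (i : ℕ) ≤ j + (i' : ℕ)
        omega
      exact div_le_div_of_nonneg_right (hanti h1) hμ.le
  have hprod : ∀ n ∈ P, ∏ i : Fin (m + 1), s n (Fin.natAdd j i) / μ ≤
      (∏ i, s n i) / μ ^ (j + (m + 1)) := by
    intro n hn
    obtain ⟨_, _, _, _, _, hpos, hanti, hge, hlt⟩ := hP n hn
    have hsplit : ∏ i, s n i = (∏ i : Fin j, s n (Fin.castAdd (m + 1) i)) *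
        ∏ i : Fin (m + 1), s n (Fin.natAdd j i) := Fin.prod_univ_add _
    rw [Finset.prod_div_distrib, Finset.prod_const, Finset.card_univ, Fintype.card_fin,
      hsplit, pow_add μ j (m + 1)]
    have hB : μ ^ j ≤ ∏ i : Fin j, s n (Fin.castAdd (m + 1) i) := by
      calc μ ^ j = ∏ _i : Fin j, μ := by
            rw [Finset.prod_const, Finset.card_univ, Fintype.card_fin]
        _ ≤ ∏ i : Fin j, s n (Fin.castAdd (m + 1) i) :=
            Finset.prod_le_prod (fun _ _ => hμ.le) (fun i _ => hge _ i.2)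
    have hA : 0 < ∏ i : Fin (m + 1), s n (Fin.natAdd j i) := Finset.prod_pos fun i _ => hpos _
    rw [div_le_div_iff₀ (by positivity) (by positivity)]
    have h5 := mul_le_mul_of_nonneg_right hB
      (mul_nonneg hA.le (pow_nonneg hμ.le (m + 1)))
    linarith
  obtain ⟨x, hx1, -, hx3⟩ := hpack P (fun n i => s n (Fin.natAdd j i) / μ) hs' (by
    intro F hF
    calc ∑ n ∈ F, ∏ i : Fin (m + 1), s n (Fin.natAdd j i) / μ
          ≤ ∑ n ∈ F, (∏ i, s n i) / μ ^ (j + (m + 1)) :=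
          Finset.sum_le_sum fun n hn => hprod n (hF n hn)
      _ = (∑ n ∈ F, ∏ i, s n i) / μ ^ (j + (m + 1)) := by rw [Finset.sum_div]
      _ ≤ V1 := by
          rw [div_le_iff₀ (by positivity)]
          exact hV F hF)
  have hG : ∀ n ∈ P, ∃ G : EuclideanSpace ℝ (Fin j) → EuclideanSpace ℝ (Fin (j + 1)),
      Isometry G ∧ (∀ x, ∑ i, G x i = 0) ∧
      ∀ z ∈ K n, ∀ i, |G (psT j m (g n z)) i| ≤ a / 2 * Real.sqrt ((j : ℝ) / (j + 1)) := by
    intro n hn
    obtain ⟨hc, hne, hdiam, hiso, -⟩ := hP n hn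
    have hle : ∀ u v, dist (psT j m (g n u)) (psT j m (g n v)) ≤ dist u v := fun u v =>
      le_trans (psT_dist j m _ _) (hiso.dist_eq u v).le
    have hcont : Continuous (fun z => psT j m (g n z)) :=
      (LipschitzWith.of_dist_le_mul (K := 1) (fun u v => by
        rw [NNReal.coe_one, one_mul]
        exact hle u v)).continuous
    obtain ⟨G, e1, e2, e3⟩ := ps_pal_gen j ((fun z => psT j m (g n z)) '' K n)
      (hc.image hcont) (hne.image _) a (by
        rintro _ ⟨u, hu, rfl⟩ _ ⟨v, hv, rfl⟩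
        exact le_trans (hle u v) (le_trans (Metric.dist_le_diam_of_mem hc.isBounded hu hv) hdiam))
    exact ⟨G, e1, e2, fun z hz i => e3 _ ⟨z, hz, rfl⟩ i⟩
  choose! G hG1 hG2 hG3 using hG
  obtain ⟨c, hc0, hc1⟩ : ∃ c : ℕ → ℕ → ℝ, (∀ n, c n 0 = μ * x n 0) ∧
      ∀ n (l : Fin m), c n ((l : ℕ) + 1) = μ * x n l.succ := by
    refine ⟨fun n l => if h : l < m + 1 then μ * x n ⟨l, h⟩ else 0, fun n => ?_, fun n l => ?_⟩
    · show (if h : 0 < m + 1 then μ * x n ⟨0, h⟩ else 0) = _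
      rw [dif_pos (Nat.succ_pos m)]
      rfl
    · have h1 : (l : ℕ) + 1 < m + 1 := by omega
      show (if h : (l : ℕ) + 1 < m + 1 then μ * x n ⟨(l : ℕ) + 1, h⟩ else 0) = _
      rw [dif_pos h1]
      rfl
  have hY : ∀ n ∈ P, ∀ z ∈ K n, ∀ l : Fin (m + 1),
      μ * x n l ≤ g n z (Fin.natAdd j l) + μ * x n l ∧
      g n z (Fin.natAdd j l) + μ * x n l ≤ μ * (x n l + s n (Fin.natAdd j l) / μ) ∧
      0 ≤ μ * x n l ∧ μ * (x n l + s n (Fin.natAdd j l) / μ) ≤ 2 * μ := by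
    intro n hn z hz l
    obtain ⟨_, _, _, _, hbox, hpos, hanti, hge, hlt⟩ := hP n hn
    obtain ⟨h1, h2⟩ := hbox z hz (Fin.natAdd j l)
    obtain ⟨h3, h4⟩ := hx1 n hn l
    have h5 : μ * (x n l + s n (Fin.natAdd j l) / μ) = μ * x n l + s n (Fin.natAdd j l) := by
      rw [mul_add, mul_div_cancel₀ _ hμ.ne']
    refine ⟨by linarith, by rw [h5]; linarith, mul_nonneg hμ.le h3, ?_⟩
    have h6 := mul_le_mul_of_nonneg_left h4 hμ.le
    linarith
  have hsj : 0 ≤ a / 2 * Real.sqrt ((j : ℝ) / (j + 1)) := by positivity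
  have hHμ : 2 * μ ≤ H := by linarith
  have hs1 : 1 ≤ Real.sqrt ((j : ℝ) + 1) := by
    rw [Real.one_le_sqrt]
    have : (0 : ℝ) ≤ j := Nat.cast_nonneg j
    linarith
  have hs2 : Real.sqrt ((j : ℝ) + 1) ≤ (j : ℝ) + 1 := by
    rw [Real.sqrt_le_left (by positivity)]
    have : (0 : ℝ) ≤ j := Nat.cast_nonneg j
    nlinarith
  refine ⟨fun n z => psA j m (G n) (c n) H (g n z), ?_, ?_⟩
  · intro n hn
    obtain ⟨hcK, hneK, hdiam, hiso, hbox, hpos, hanti, hge, hlt⟩ := hP n hn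
    refine ⟨(psA_iso j m (G n) (hG1 n hn) (hG2 n hn) (c n) H).comp hiso, fun z hz => ?_⟩
    obtain ⟨y1, y2, y3, y4⟩ := hY n hn z hz 0
    have hhigh : ∀ l : Fin m, H - 2 * μ ≤ psA j m (G n) (c n) H (g n z) (Fin.natAdd j l.succ) ∧
        psA j m (G n) (c n) H (g n z) (Fin.natAdd j l.succ) ≤ H := by
      intro l
      obtain ⟨z1, z2, z3, z4⟩ := hY n hn z hz l.succ
      rw [psA_high, hc1]
      constructor <;> linarith
    refine ⟨?_, ?_, ?_⟩
    · intro i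
      by_cases hi : (i : ℕ) ≤ j
      · show |psA j m (G n) (c n) H (g n z) i| ≤ H
        rw [psA_low j m (G n) (c n) H (g n z) i hi, hc0]
        have h1 := hG3 n hn z hz ⟨i, by omega⟩
        have h2 : |(g n z (Fin.natAdd j (0 : Fin (m + 1))) + μ * x n 0) /
            Real.sqrt ((j : ℝ) + 1)| ≤ 2 * μ := by
          rw [abs_of_nonneg (div_nonneg (by linarith) (by linarith)), div_le_iff₀ (by linarith)]
          nlinarith
        exact le_trans (abs_add_le _ _) (by linarith)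
      · obtain ⟨l, rfl⟩ : ∃ l : Fin m, i = Fin.natAdd j l.succ := by
          refine ⟨⟨(i : ℕ) - j - 1, by omega⟩, Fin.ext ?_⟩
          show (i : ℕ) = j + ((i : ℕ) - j - 1 + 1)
          omega
        obtain ⟨z1, z2⟩ := hhigh l
        show |psA j m (G n) (c n) H (g n z) (Fin.natAdd j l.succ)| ≤ H
        rw [abs_le]
        constructor <;> linarith
    · show _ ≤ ∑ i, psA j m (G n) (c n) H (g n z) i
      rw [psA_sum j m (G n) (hG2 n hn), hc0]
      have h1 : ∑ _l : Fin m, (H - 2 * μ) ≤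
          ∑ l : Fin m, psA j m (G n) (c n) H (g n z) (Fin.natAdd j l.succ) :=
        Finset.sum_le_sum fun l _ => (hhigh l).1
      rw [Finset.sum_const, Finset.card_univ, Fintype.card_fin, nsmul_eq_mul] at h1
      have h2 : 0 ≤ Real.sqrt ((j : ℝ) + 1) *
          (g n z (Fin.natAdd j (0 : Fin (m + 1))) + μ * x n 0) :=
        mul_nonneg (by linarith) (by linarith)
      push_cast
      have h3 : (0 : ℝ) ≤ j := Nat.cast_nonneg j
      nlinarith
    · show ∑ i, psA j m (G n) (c n) H (g n z) i ≤ _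
      rw [psA_sum j m (G n) (hG2 n hn), hc0]
      have h1 : ∑ l : Fin m, psA j m (G n) (c n) H (g n z) (Fin.natAdd j l.succ) ≤
          ∑ _l : Fin m, H :=
        Finset.sum_le_sum fun l _ => (hhigh l).2
      rw [Finset.sum_const, Finset.card_univ, Fintype.card_fin, nsmul_eq_mul] at h1
      have h2 : Real.sqrt ((j : ℝ) + 1) *
          (g n z (Fin.natAdd j (0 : Fin (m + 1))) + μ * x n 0) ≤ ((j : ℝ) + 1) * (2 * μ) :=
        mul_le_mul hs2 (by linarith) (by linarith) (by positivity)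
      push_cast
      have h3 : (0 : ℝ) ≤ m := Nat.cast_nonneg m
      nlinarith
  · intro p hp q hq hpq
    rw [Set.disjoint_left]
    rintro w ⟨z, hz, hzw⟩ ⟨z', hz', hzw'⟩
    have heq : ∀ i, psA j m (G p) (c p) H (g p z) i = psA j m (G q) (c q) H (g q z') i := by
      intro i
      have h1 : psA j m (G p) (c p) H (g p z) = psA j m (G q) (c q) H (g q z') :=
        hzw.trans hzw'.symm
      rw [h1]
    have hYe : ∀ l : Fin (m + 1), g p z (Fin.natAdd j l) + μ * x p l =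
        g q z' (Fin.natAdd j l) + μ * x q l := by
      intro l
      refine Fin.cases ?_ (fun l => ?_) l
      · have h1 := psA_sumlow j m (G p) (hG2 p hp) (c p) H (g p z)
        have h2 := psA_sumlow j m (G q) (hG2 q hq) (c q) H (g q z')
        have h3 : ∑ i : Fin j, psA j m (G p) (c p) H (g p z) (Fin.castAdd (m + 1) i) =
            ∑ i : Fin j, psA j m (G q) (c q) H (g q z') (Fin.castAdd (m + 1) i) :=
          Finset.sum_congr rfl fun i _ => heq _
        have h4 := heq (Fin.natAdd j 0)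
        have h5 : Real.sqrt ((j : ℝ) + 1) * (g p z (Fin.natAdd j (0 : Fin (m + 1))) + c p 0) =
            Real.sqrt ((j : ℝ) + 1) * (g q z' (Fin.natAdd j (0 : Fin (m + 1))) + c q 0) := by
          linarith
        rw [hc0, hc0] at h5
        have h6 : Real.sqrt ((j : ℝ) + 1) ≠ 0 := by
          intro h0
          rw [h0] at hs1
          linarith
        exact mul_left_cancel₀ h6 h5
      · have h1 := heq (Fin.natAdd j l.succ)
        rw [psA_high, psA_high, hc1, hc1] at h1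
        linarith
    obtain ⟨l, hl⟩ := hx3 p hp q hq hpq
    obtain ⟨a1, a2, a3, a4⟩ := hY p hp z hz l
    obtain ⟨b1, b2, b3, b4⟩ := hY q hq z' hz' l
    have e := hYe l
    rcases hl with hl | hl
    · have h6 := mul_lt_mul_of_pos_left hl hμ
      linarith
    · have h6 := mul_lt_mul_of_pos_left hl hμ
      linarith


end Pool.Agent.Helper839.PS
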