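import Mathlib
import Pool.Agent.Helper839.PS.F

set_option linter.all false

open MeasureTheory Set

namespace Pool.Agent.Helper839.PS





open Classical in
/-- partial sums of the thicknesses -/
noncomputable def psf_t (P : Set ℕ) (τ : ℕ → ℝ) (n : ℕ) : ℝ :=
  ∑ m ∈ (Finset.range n).filter (fun m => m ∈ P), 2 * τ m

open Classical in
theorem psf_t_nonneg (P : Set ℕ) (τ : ℕ → ℝ) (hτ : ∀ n ∈ P, 0 < τ n) (n : ℕ) :
    0 ≤ psf_t P τ n := by
  unfold psf_t
  refine Finset.sum_nonneg (fun m hm => ?_)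
  have := hτ m (Finset.mem_filter.1 hm).2
  linarith

open Classical in
theorem psf_t_succ (P : Set ℕ) (τ : ℕ → ℝ) (n : ℕ) (hn : n ∈ P) :
    psf_t P τ (n + 1) = psf_t P τ n + 2 * τ n := by
  unfold psf_t
  rw [Finset.range_add_one, Finset.filter_insert, if_pos hn, Finset.sum_insert, add_comm]
  intro h
  exact absurd (Finset.mem_range.1 (Finset.mem_filter.1 h).1) (lt_irrefl n)

open Classical in
theorem psf_t_mono (P : Set ℕ) (τ : ℕ → ℝ) (hτ : ∀ n ∈ P, 0 < τ n) {m n : ℕ} (h : m ≤ n) :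
    psf_t P τ m ≤ psf_t P τ n := by
  unfold psf_t
  refine Finset.sum_le_sum_of_subset_of_nonneg ?_ ?_
  · intro x hx
    rw [Finset.mem_filter, Finset.mem_range] at hx ⊢
    exact ⟨by omega, hx.2⟩
  · intro x hx _
    have := hτ x (Finset.mem_filter.1 hx).2
    linarith

open Classical in
theorem psf_t_le (P : Set ℕ) (τ : ℕ → ℝ) (B : ℝ)
    (hB : ∀ F : Finset ℕ, (∀ n ∈ F, n ∈ P) → ∑ n ∈ F, τ n ≤ B) (n : ℕ) :
    psf_t P τ n ≤ 2 * B := by
  unfold psf_t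
  rw [← Finset.mul_sum]
  have := hB ((Finset.range n).filter (fun m => m ∈ P)) (fun m hm => (Finset.mem_filter.1 hm).2)
  linarith

/-- stacking of flat bodies (`k-1` sides at least `μ`) with total volume of boxes at most `W` -/
theorem ps_class_flat (k : ℕ) (hk : 1 ≤ k) (a H μ W : ℝ) (ha : 0 < a) (hμ : 0 < μ) (hW : 0 < W)
    (hH : a / 2 * Real.sqrt (((k : ℝ) - 1) / k) + 2 * (W / μ ^ (k - 1)) ≤ H)
    (P : Set ℕ) (K : ℕ → Set (EuclideanSpace ℝ (Fin k)))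
    (g : ℕ → EuclideanSpace ℝ (Fin k) → EuclideanSpace ℝ (Fin k)) (s : ℕ → Fin k → ℝ)
    (hP : ∀ n ∈ P, IsCompact (K n) ∧ (K n).Nonempty ∧ Metric.diam (K n) ≤ a ∧ Isometry (g n) ∧
      (∀ x ∈ K n, ∀ i, 0 ≤ g n x i ∧ g n x i ≤ s n i) ∧ (∀ i, 0 < s n i) ∧
      (∀ i : Fin k, (i : ℕ) < k - 1 → μ ≤ s n i))
    (hsum : ∀ F : Finset ℕ, (∀ n ∈ F, n ∈ P) → ∑ n ∈ F, ∏ i, s n i ≤ W) :
    ∃ Φ : ℕ → EuclideanSpace ℝ (Fin k) → EuclideanSpace ℝ (Fin k),
      (∀ n ∈ P, Isometry (Φ n) ∧ ∀ x ∈ K n, (∀ i, |Φ n x i| ≤ H) ∧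
        0 ≤ ∑ i, Φ n x i ∧ ∑ i, Φ n x i ≤ 2 * Real.sqrt k * (W / μ ^ (k - 1))) ∧
      ∀ p ∈ P, ∀ q ∈ P, p ≠ q → Disjoint (Φ p '' K p) (Φ q '' K q) := by
  classical
  obtain ⟨j, rfl⟩ : ∃ j, k = j + 1 := ⟨k - 1, by omega⟩
  have hk1 : j + 1 - 1 = j := by omega
  rw [hk1] at hH ⊢
  simp only [hk1] at hP
  set B : ℝ := W / μ ^ j with hB
  have hμj : 0 < μ ^ j := pow_pos hμ j
  have hcast : (((j + 1 : ℕ) : ℝ) - 1) / ((j + 1 : ℕ) : ℝ) = (j : ℝ) / (j + 1) := by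
    push_cast
    ring
  rw [hcast] at hH
  set τ : ℕ → ℝ := fun n => s n (Fin.last j) with hτdef
  have hτ : ∀ n ∈ P, 0 < τ n := fun n hn => (hP n hn).2.2.2.2.2.1 _
  have hBsum : ∀ F : Finset ℕ, (∀ n ∈ F, n ∈ P) → ∑ n ∈ F, τ n ≤ B := by
    intro F hF
    rw [hB, le_div_iff₀ hμj, Finset.sum_mul]
    refine le_trans (Finset.sum_le_sum (fun n hn => ?_)) (hsum F hF)
    obtain ⟨_, _, _, _, _, h5, h6⟩ := hP n (hF n hn)
    rw [Fin.prod_univ_castSucc, mul_comm]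
    refine mul_le_mul_of_nonneg_right ?_ (h5 _).le
    calc μ ^ j = ∏ _i : Fin j, μ := by rw [Finset.prod_const, Finset.card_univ, Fintype.card_fin]
      _ ≤ ∏ i : Fin j, s n i.castSucc :=
          Finset.prod_le_prod (fun _ _ => hμ.le) (fun i _ => h6 _ (by simp))
  have hB0 : 0 ≤ B := by positivity
  set t := psf_t P τ with ht
  have ht0 : ∀ n, 0 ≤ t n := psf_t_nonneg P τ hτ
  have ht2 : ∀ n ∈ P, t n + 2 * τ n ≤ 2 * B := by
    intro n hn
    rw [ht, ← psf_t_succ P τ n hn]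
    exact psf_t_le P τ B hBsum _
  have ht3 : ∀ m ∈ P, ∀ n, m < n → t m + 2 * τ m ≤ t n := by
    intro m hm n hmn
    rw [ht, ← psf_t_succ P τ m hm]
    exact psf_t_mono P τ hτ hmn
  have hsq1 : 1 ≤ Real.sqrt ((j : ℝ) + 1) := by
    rw [Real.one_le_sqrt]
    linarith [Nat.cast_nonneg (α := ℝ) j]
  have hsq0 : 0 < Real.sqrt ((j : ℝ) + 1) := by linarith
  have hsqsq : Real.sqrt ((j : ℝ) + 1) * Real.sqrt ((j : ℝ) + 1) = (j : ℝ) + 1 :=
    Real.mul_self_sqrt (by positivity)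
  have key : ∀ n : ℕ, ∃ Φ : EuclideanSpace ℝ (Fin (j + 1)) → EuclideanSpace ℝ (Fin (j + 1)),
      n ∈ P → Isometry Φ ∧ ∀ x ∈ K n, (∀ i, |Φ x i| ≤ H) ∧
        ∑ i, Φ x i = Real.sqrt ((j : ℝ) + 1) * (g n x (Fin.last j) + t n) := by
    intro n
    by_cases hn : n ∈ P
    swap
    · exact ⟨id, fun h => absurd h hn⟩
    obtain ⟨h1, h2, h3, h4, h5, h6, h7⟩ := hP n hn
    let π : EuclideanSpace ℝ (Fin (j + 1)) → EuclideanSpace ℝ (Fin j) := fun z =>
      WithLp.toLp 2 (fun l : Fin j => z ⟨l, by omega⟩)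
    have hπd : ∀ x y, dist (π x) (π y) ≤ dist x y := by
      intro x y
      rw [EuclideanSpace.dist_eq, EuclideanSpace.dist_eq]
      refine Real.sqrt_le_sqrt ?_
      rw [Fin.sum_univ_castSucc]
      have h8 : ∑ i : Fin j, dist (π x i) (π y i) ^ 2 =
          ∑ i : Fin j, dist (x i.castSucc) (y i.castSucc) ^ 2 := rfl
      rw [h8]
      have : 0 ≤ dist (x (Fin.last j)) (y (Fin.last j)) ^ 2 := by positivity
      linarith
    have hπc : Continuous π := by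
      have : LipschitzWith 1 π := LipschitzWith.of_dist_le_mul (fun x y => by
        rw [NNReal.coe_one, one_mul]; exact hπd x y)
      exact this.continuous
    obtain ⟨G, hG1, hG2, hG3⟩ := ps_pal_gen j ((fun x => π (g n x)) '' K n)
      (h1.image (hπc.comp h4.continuous)) (h2.image _) a (by
        rintro _ ⟨x, hx, rfl⟩ _ ⟨y, hy, rfl⟩
        calc dist (π (g n x)) (π (g n y)) ≤ dist (g n x) (g n y) := hπd _ _
          _ = dist x y := h4.dist_eq x y
          _ ≤ Metric.diam (K n) := Metric.dist_le_diam_of_mem h1.isBounded hx hy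
          _ ≤ a := h3)
    have hasm := ps_asm (j + 1) j (Nat.lt_succ_self j) G hG1 hG2 (fun _ => t n) 0
    refine ⟨_, fun _ => ⟨hasm.comp h4, ?_⟩⟩
    intro x hx
    have hcoord : ∀ i : Fin (j + 1), (((fun z : EuclideanSpace ℝ (Fin (j + 1)) =>
      (WithLp.toLp 2 (fun i : Fin (j + 1) =>
      if hi : (i : ℕ) ≤ j then
        G (WithLp.toLp 2 (fun l : Fin j => z ⟨l, by omega⟩)) ⟨i, by omega⟩ +
          (z ⟨j, Nat.lt_succ_self j⟩ + (fun _ : ℕ => t n) 0) / Real.sqrt ((j : ℝ) + 1)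
      else 0 - (z i + (fun _ : ℕ => t n) (i - j))) : EuclideanSpace ℝ (Fin (j + 1)))) ∘ g n) x) i =
        G (π (g n x)) i + (g n x (Fin.last j) + t n) / Real.sqrt ((j : ℝ) + 1) := by
      intro i
      have hi : (i : ℕ) ≤ j := by omega
      show (if hi : (i : ℕ) ≤ j then _ else _) = _
      rw [dif_pos hi]
      rfl
    have hY0 : 0 ≤ g n x (Fin.last j) + t n := add_nonneg (h5 x hx _).1 (ht0 n)
    have hY1 : g n x (Fin.last j) + t n ≤ 2 * B := by
      have e1 := (h5 x hx (Fin.last j)).2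
      have e2 := ht2 n hn
      have e3 := hτ n hn
      have e4 : s n (Fin.last j) = τ n := rfl
      rw [e4] at e1
      linarith
    constructor
    · intro i
      rw [hcoord i]
      have h8 : |G (π (g n x)) i| ≤ a / 2 * Real.sqrt ((j : ℝ) / (j + 1)) :=
        hG3 _ ⟨x, hx, rfl⟩ i
      have h9 : |(g n x (Fin.last j) + t n) / Real.sqrt ((j : ℝ) + 1)| ≤ 2 * B := by
        rw [abs_of_nonneg (div_nonneg hY0 hsq0.le), div_le_iff₀ hsq0]
        calc g n x (Fin.last j) + t n ≤ 2 * B * 1 := by linarith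
          _ ≤ 2 * B * Real.sqrt ((j : ℝ) + 1) := mul_le_mul_of_nonneg_left hsq1 (by linarith)
      calc |G (π (g n x)) i + (g n x (Fin.last j) + t n) / Real.sqrt ((j : ℝ) + 1)|
          ≤ |G (π (g n x)) i| + |(g n x (Fin.last j) + t n) / Real.sqrt ((j : ℝ) + 1)| :=
            abs_add_le _ _
        _ ≤ H := by linarith
    · rw [Finset.sum_congr rfl (fun i _ => hcoord i), Finset.sum_add_distrib, hG2, zero_add,
        Finset.sum_const, Finset.card_univ, Fintype.card_fin, nsmul_eq_mul]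
      push_cast
      rw [mul_div_assoc', div_eq_iff hsq0.ne']
      linear_combination (-(g n x (Fin.last j) + t n)) * hsqsq
  choose Φ hΦ using key
  refine ⟨Φ, ?_, ?_⟩
  · intro n hn
    obtain ⟨h1, h2⟩ := hΦ n hn
    obtain ⟨_, _, _, _, h5, h6, _⟩ := hP n hn
    refine ⟨h1, fun x hx => ?_⟩
    obtain ⟨h3, h4⟩ := h2 x hx
    have hY0 : 0 ≤ g n x (Fin.last j) + t n := add_nonneg (h5 x hx _).1 (ht0 n)
    have hY1 : g n x (Fin.last j) + t n ≤ 2 * B := by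
      have e1 := (h5 x hx (Fin.last j)).2
      have e2 := ht2 n hn
      have e3 := hτ n hn
      have e4 : s n (Fin.last j) = τ n := rfl
      rw [e4] at e1
      linarith
    refine ⟨h3, ?_, ?_⟩
    · rw [h4]
      exact mul_nonneg hsq0.le hY0
    · rw [h4]
      push_cast
      calc Real.sqrt ((j : ℝ) + 1) * (g n x (Fin.last j) + t n)
          ≤ Real.sqrt ((j : ℝ) + 1) * (2 * B) := mul_le_mul_of_nonneg_left hY1 hsq0.le
        _ = 2 * Real.sqrt ((j : ℝ) + 1) * B := by ring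
  · have hlt : ∀ p ∈ P, ∀ q ∈ P, p < q → ∀ x ∈ K p, ∀ y ∈ K q, Φ p x ≠ Φ q y := by
      intro p hp q hq hpq x hx y hy heq
      have e1 := ((hΦ p hp).2 x hx).2
      have e2 := ((hΦ q hq).2 y hy).2
      rw [heq] at e1
      rw [e1] at e2
      have e3 := mul_left_cancel₀ hsq0.ne' e2
      obtain ⟨_, _, _, _, h5, _, _⟩ := hP p hp
      obtain ⟨_, _, _, _, h5', _, _⟩ := hP q hq
      have e4 : g p x (Fin.last j) ≤ τ p := (h5 x hx (Fin.last j)).2
      have e5 := (h5' y hy (Fin.last j)).1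
      have e6 := hτ p hp
      have e7 := ht3 p hp q hpq
      linarith
    intro p hp q hq hpq
    rw [Set.disjoint_left]
    rintro _ ⟨x, hx, rfl⟩ ⟨y, hy, hyx⟩
    rcases lt_or_gt_of_ne hpq with h | h
    · exact hlt p hp q hq h x hx y hy hyx.symm
    · exact hlt q hq p hp h y hy x hx hyx




end Pool.Agent.Helper839.PS
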